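import Pool.Agent.Helper28.ED.Types
import Pool.Agent.Helper28.EC.En

/-!
# ED-CHAT: the law of the offset in base `f` (copy of `EC/Chat.lean`, `EC/ChatEnt.lean`)

`chat_ent`: as in `EC/ChatEnt.lean`; in a cell different chains have `0 < |chat - chat'| < p^(N M t)`, and `p^(N M t) <= f^(N (M p) t) <= f^L` since `f >= 2`, `p <= 2^p`, so `p^M <= f^(M p)`.
-/

set_option autoImplicit false

namespace PoolAgent.Helper28.ED

open PoolAgent.Helper28.EC hiding Sys Stat
open Finset Real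

theorem nuF_mass (S : Sys) (h2 : S.Two) {f : ℕ} (hf : f ∣ S.p) (K : ℕ) (hK : ∀ u : List S.ι, S.tt u ≤ K * u.length) (t : ℕ) (B : ℤ)
    (hB : S.alive B) : ∑ T ∈ range (K * t + 1), ∑ R ∈ range (S.p ^ S.rho), (nuF S hf t B T R).mass = 1 := by
  classical
  have hpr : (0 : ℤ) < (S.p : ℤ) ^ S.rho := S.pN_pos _
  have h1 : ∀ T R : ℕ, (nuF S hf t B T R).mass = ∑ u ∈ S.chains t,
      if S.tt u = T ∧ S.cc u B % (S.p : ℤ) ^ S.rho = R then S.pc u B else 0 := by
    intro T R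
    show ∑ u ∈ (S.chains t).filter (fun u => S.tt u = T ∧ S.cc u B % (S.p : ℤ) ^ S.rho = R),
      (if S.cc u B / (S.p : ℤ) ^ S.rho ≡ 0 [ZMOD (f : ℤ) ^ 0] then S.pc u B else 0) = _
    rw [Finset.sum_filter]
    refine Finset.sum_congr rfl fun u _ => ?_
    have h2 : S.cc u B / (S.p : ℤ) ^ S.rho ≡ 0 [ZMOD (f : ℤ) ^ 0] := by
      rw [pow_zero]
      exact Int.modEq_one
    rw [if_pos h2]
  simp only [h1]
  rw [← Finset.sum_product', Finset.sum_comm, ← S.pc_sum h2 t B hB]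
  refine Finset.sum_congr rfl fun u hu => ?_
  have hlen : u.length = t := (S.mem_chains t u).1 hu
  have hc0 := Int.emod_nonneg (S.cc u B) hpr.ne'
  have hc1 := Int.emod_lt_of_pos (S.cc u B) hpr
  rw [Finset.sum_eq_single (S.tt u, (S.cc u B % (S.p : ℤ) ^ S.rho).toNat)]
  · rw [if_pos]
    refine ⟨rfl, ?_⟩
    show S.cc u B % (S.p : ℤ) ^ S.rho = (((S.cc u B % (S.p : ℤ) ^ S.rho).toNat : ℕ) : ℤ)
    rw [Int.toNat_of_nonneg hc0]
  · intro q _ hq
    rw [if_neg]
    rintro ⟨h3, h4⟩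
    apply hq
    ext
    · exact h3.symm
    · show q.2 = (S.cc u B % (S.p : ℤ) ^ S.rho).toNat
      rw [h4]
      simp
  · intro hq
    exfalso
    apply hq
    rw [Finset.mem_product, mem_range, mem_range]
    constructor
    · show S.tt u < K * t + 1
      have := hK u
      rw [hlen] at this
      omega
    · show (S.cc u B % (S.p : ℤ) ^ S.rho).toNat < S.p ^ S.rho
      rw [← Nat.cast_pow] at hc1 hc0 ⊢
      omega


/-- In a cell different chains with nonzero probability have different offsets modulo `p^L`. -/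
private theorem chat_inj (S : Sys) (hsep : S.Sep) (M : ℕ) (hoff : S.OffBd M) {f : ℕ} (hf : f ∣ S.p) (hf2 : 2 ≤ f)
    (t : ℕ) (B : ℤ) (L : ℕ) (hL : S.N * (M * S.p) * t ≤ L) (u u' : List S.ι) (hu : u.length = t) (hu' : u'.length = t)
    (htt : S.tt u = S.tt u') (hR : S.cc u B % (S.p : ℤ) ^ S.rho = S.cc u' B % (S.p : ℤ) ^ S.rho)
    (hp : S.pc u B ≠ 0) (hp' : S.pc u' B ≠ 0)
    (hc : S.cc u B / (S.p : ℤ) ^ S.rho ≡ S.cc u' B / (S.p : ℤ) ^ S.rho [ZMOD (f : ℤ) ^ L]) :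
    u = u' := by
  have h1 := S.cc_formula u B hp
  have h2 := S.cc_formula u' B hp'
  rw [hu] at h1
  rw [hu'] at h2
  have h3 := Int.emod_add_mul_ediv (S.cc u B) ((S.p : ℤ) ^ S.rho)
  have h4 := Int.emod_add_mul_ediv (S.cc u' B) ((S.p : ℤ) ^ S.rho)
  obtain ⟨z, hz⟩ := hc.dvd
  have h5 : S.oo u' - S.oo u = (f : ℤ) ^ L * ((S.p : ℤ) ^ (S.N * t) * ((S.p : ℤ) ^ S.rho * z)) := by
    have e1 : S.oo u' - S.oo u = (S.p : ℤ) ^ (S.N * t) * (S.cc u' B - S.cc u B) := by
      rw [htt] at h1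
      linear_combination h1 - h2
    have e2 : S.cc u' B - S.cc u B = (S.p : ℤ) ^ S.rho * ((f : ℤ) ^ L * z) := by
      rw [← hz]
      linear_combination h3 - h4 - hR
    rw [e1, e2]; ring
  refine hsep u u' (hu.trans hu'.symm) htt ?_
  by_contra hne
  have h6 : S.oo u' - S.oo u ≠ 0 := fun h => hne (by linarith)
  have h7 : (f : ℤ) ^ L ≤ |S.oo u' - S.oo u| := by
    refine Int.le_of_dvd (abs_pos.mpr h6) ?_
    rw [dvd_abs]
    exact ⟨_, h5⟩
  have h8 : (S.p : ℤ) ^ (S.N * M * t) ≤ (f : ℤ) ^ L := by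
    have e1 : S.p ^ (S.N * M * t) ≤ f ^ L := by
      calc S.p ^ (S.N * M * t) ≤ (2 ^ S.p) ^ (S.N * M * t) := Nat.pow_le_pow_left Nat.lt_two_pow_self.le _
        _ = 2 ^ (S.N * (M * S.p) * t) := by rw [← pow_mul]; congr 1; ring
        _ ≤ f ^ (S.N * (M * S.p) * t) := Nat.pow_le_pow_left hf2 _
        _ ≤ f ^ L := Nat.pow_le_pow_right (by omega) hL
    exact_mod_cast e1
  have h9 := hoff u
  have h10 := hoff u'
  rw [hu] at h9
  rw [hu'] at h10
  have h11 : |S.oo u' - S.oo u| ≤ |S.oo u'| + |S.oo u| := abs_sub _ _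
  linarith

/-- Every integer lies in exactly one class of `range (p^L)`. -/
private theorem sum_class (p : ℕ) (hp : 0 < p) (L : ℕ) (a : ℤ) (c : ℝ) :
    ∑ x ∈ range (p ^ L), (if a ≡ (x : ℤ) [ZMOD (p : ℤ) ^ L] then c else 0) = c := by
  have hn : (0 : ℤ) < (p : ℤ) ^ L := pow_pos (by exact_mod_cast hp) L
  have h1 := Int.emod_nonneg a hn.ne'
  have h2 := Int.emod_lt_of_pos a hn
  rw [Finset.sum_eq_single (a % (p : ℤ) ^ L).toNat]
  · rw [if_pos]
    rw [Int.toNat_of_nonneg h1]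
    exact (Int.mod_modEq a _).symm
  · intro x hx hne
    rw [if_neg]
    intro h
    apply hne
    have hx' : (x : ℤ) < (p : ℤ) ^ L := by exact_mod_cast mem_range.1 hx
    have h3 : a % (p : ℤ) ^ L = x := by
      have : a % (p : ℤ) ^ L = (x : ℤ) % (p : ℤ) ^ L := h
      rw [this, Int.emod_eq_of_lt (by positivity) hx']
    rw [h3]; simp
  · intro hne
    exfalso
    apply hne
    rw [mem_range]
    have : ((a % (p : ℤ) ^ L).toNat : ℤ) < ((p ^ L : ℕ) : ℤ) := by
      rw [Int.toNat_of_nonneg h1]; push_cast; exact h2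
    exact_mod_cast this

/-- The function of a sum with at most one nonzero term. -/
private theorem fun_sum_one {κ : Type*} (s : Finset κ) (f : κ → ℝ) (φ : ℝ → ℝ) (h0 : φ 0 = 0)
    (h : ∀ u ∈ s, ∀ v ∈ s, f u ≠ 0 → f v ≠ 0 → u = v) : φ (∑ u ∈ s, f u) = ∑ u ∈ s, φ (f u) := by
  by_cases hex : ∃ u ∈ s, f u ≠ 0
  · obtain ⟨u, hu, hfu⟩ := hex
    have h1 : ∀ v ∈ s, v ≠ u → f v = 0 := by
      intro v hv hvu
      by_contra hfv
      exact hvu (h v hv u hu hfv hfu)
    rw [Finset.sum_eq_single u h1 (fun h' => absurd hu h'),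
      Finset.sum_eq_single u (fun v hv hvu => by rw [h1 v hv hvu, h0]) (fun h' => absurd hu h')]
  · have h1 : ∀ v ∈ s, f v = 0 := fun v hv => by
      by_contra hfv
      exact hex ⟨v, hv, hfv⟩
    rw [Finset.sum_eq_zero h1, h0, Finset.sum_eq_zero (fun v hv => by rw [h1 v hv, h0])]

open Classical in
/-- The entropy of one cell. -/
private theorem cell_H (S : Sys) (hsep : S.Sep) (M : ℕ) (hoff : S.OffBd M) {f : ℕ} (hf : f ∣ S.p) (hf2 : 2 ≤ f)
    (t : ℕ) (B : ℤ) (L : ℕ) (hL : S.N * (M * S.p) * t ≤ L) (T R : ℕ) :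
    (nuF S hf t B T R).H L = (∑ u ∈ (S.chains t).filter
      (fun u => S.tt u = T ∧ S.cc u B % (S.p : ℤ) ^ S.rho = R), Real.negMulLog (S.pc u B)) -
        Real.negMulLog (nuF S hf t B T R).mass := by
  unfold Fam.H En
  rw [Fam.sum_eq_mass]
  congr 1
  set s := (S.chains t).filter (fun u => S.tt u = T ∧ S.cc u B % (S.p : ℤ) ^ S.rho = R) with hs
  have h1 : ∀ x : ℕ, (nuF S hf t B T R).m L (x : ℤ) =
      ∑ u ∈ s, (if S.cc u B / (S.p : ℤ) ^ S.rho ≡ (x : ℤ) [ZMOD (f : ℤ) ^ L] then S.pc u B else 0) :=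
    fun x => rfl
  have h2 : ∀ x : ℕ, Real.negMulLog ((nuF S hf t B T R).m L (x : ℤ)) =
      ∑ u ∈ s, (if S.cc u B / (S.p : ℤ) ^ S.rho ≡ (x : ℤ) [ZMOD (f : ℤ) ^ L] then
        Real.negMulLog (S.pc u B) else 0) := by
    intro x
    rw [h1, fun_sum_one s _ Real.negMulLog Real.negMulLog_zero]
    · refine Finset.sum_congr rfl fun u _ => ?_
      split_ifs
      · rfl
      · exact Real.negMulLog_zero
    · intro u hu v hv hfu hfv
      obtain ⟨hu1, hu2, hu3⟩ := Finset.mem_filter.mp hu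
      obtain ⟨hv1, hv2, hv3⟩ := Finset.mem_filter.mp hv
      have hcu : S.cc u B / (S.p : ℤ) ^ S.rho ≡ (x : ℤ) [ZMOD (f : ℤ) ^ L] := by
        by_contra h; exact hfu (if_neg h)
      have hcv : S.cc v B / (S.p : ℤ) ^ S.rho ≡ (x : ℤ) [ZMOD (f : ℤ) ^ L] := by
        by_contra h; exact hfv (if_neg h)
      rw [if_pos hcu] at hfu
      rw [if_pos hcv] at hfv
      exact chat_inj S hsep M hoff hf hf2 t B L hL u v ((S.mem_chains t u).1 hu1)
        ((S.mem_chains t v).1 hv1) (hu2.trans hv2.symm) (hu3.trans hv3.symm) hfu hfv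
        (hcu.trans hcv.symm)
  simp only [h2]
  rw [Finset.sum_comm]
  exact Finset.sum_congr rfl fun u _ => sum_class f (by omega) L _ _

/-- Entropy of `chat` given `(T, R)`.  In a cell `(T,R)` different chains `u, u'` with `pc <> 0` have `chat` different modulo `p^L`:
`p^(N t) (cc u B - cc u' B) = oo u - oo u'` (`cc_formula`) is not 0 (`Sep`) and less than `p^(N M t)` in absolute value (`OffBd`), and
`cc u B - cc u' B = p^rho (chat - chat')`; so `0 < |chat - chat'| < p^(N M t) <= p^L`.  Hence the masses of the cell law at the level `L` are the `pc u B`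
and `H L = ∑_{u in cell} φ(pc u B) - φ(mass)`; finally `∑_cells φ(mass) <= log (number of cells)` (`en_le_log`, total mass 1). -/
theorem chat_ent (S : Sys) (h2 : S.Two) (hsep : S.Sep) (M : ℕ) (hoff : S.OffBd M) {f : ℕ} (hf : f ∣ S.p) (hf2 : 2 ≤ f)
    (K : ℕ) (hK : ∀ u : List S.ι, S.tt u ≤ K * u.length) (t : ℕ) (B : ℤ) (hB : S.alive B) (L : ℕ) (hL : S.N * (M * S.p) * t ≤ L) :
    ∑ u ∈ S.chains t, Real.negMulLog (S.pc u B) - Real.log (((K * t + 1 : ℕ) : ℝ) * (S.p : ℝ) ^ S.rho) ≤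
      ∑ T ∈ range (K * t + 1), ∑ R ∈ range (S.p ^ S.rho), (nuF S hf t B T R).H L := by
  classical
  have hmass := nuF_mass S h2 hf K hK t B hB
  have hsplit : ∑ u ∈ S.chains t, Real.negMulLog (S.pc u B) =
      ∑ T ∈ range (K * t + 1), ∑ R ∈ range (S.p ^ S.rho), ∑ u ∈ (S.chains t).filter
        (fun u => S.tt u = T ∧ S.cc u B % (S.p : ℤ) ^ S.rho = R), Real.negMulLog (S.pc u B) := by
    have e1 : ∀ T R : ℕ, ∑ u ∈ (S.chains t).filter
        (fun u => S.tt u = T ∧ S.cc u B % (S.p : ℤ) ^ S.rho = R), Real.negMulLog (S.pc u B) =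
        ∑ u ∈ S.chains t, if S.tt u = T ∧ S.cc u B % (S.p : ℤ) ^ S.rho = R then
          Real.negMulLog (S.pc u B) else 0 := fun T R => Finset.sum_filter _ _
    simp only [e1]
    rw [← Finset.sum_product', Finset.sum_comm]
    refine Finset.sum_congr rfl fun u hu => ?_
    have hn : (0 : ℤ) < (S.p : ℤ) ^ S.rho := S.pN_pos S.rho
    have h3 := Int.emod_nonneg (S.cc u B) hn.ne'
    have h4 := Int.emod_lt_of_pos (S.cc u B) hn
    rw [Finset.sum_eq_single (S.tt u, (S.cc u B % (S.p : ℤ) ^ S.rho).toNat)]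
    · rw [if_pos]
      exact ⟨rfl, (Int.toNat_of_nonneg h3).symm⟩
    · rintro ⟨T, R⟩ _ hne
      rw [if_neg]
      rintro ⟨h5, h6⟩
      apply hne
      simp only at h5 h6
      rw [h5, h6]
      simp
    · intro hne
      exfalso
      apply hne
      rw [mem_product, mem_range, mem_range]
      have h5 := hK u
      rw [(S.mem_chains t u).1 hu] at h5
      refine ⟨by omega, ?_⟩
      have h6 : ((S.cc u B % (S.p : ℤ) ^ S.rho).toNat : ℤ) < ((S.p ^ S.rho : ℕ) : ℤ) := by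
        rw [Int.toNat_of_nonneg h3]; push_cast; exact h4
      exact_mod_cast h6
  have hcells : ∑ T ∈ range (K * t + 1), ∑ R ∈ range (S.p ^ S.rho),
      Real.negMulLog (nuF S hf t B T R).mass ≤
      Real.log (((K * t + 1 : ℕ) : ℝ) * (S.p : ℝ) ^ S.rho) := by
    have h3 := en_le_log (range (K * t + 1) ×ˢ range (S.p ^ S.rho))
      (fun q : ℕ × ℕ => (nuF S hf t B q.1 q.2).mass) (fun q _ => (nuF S hf t B q.1 q.2).mass_nonneg)
    unfold En at h3
    rw [Finset.sum_product, Finset.sum_product, hmass, Real.negMulLog_one, sub_zero, one_mul,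
      Finset.card_product, card_range, card_range] at h3
    refine h3.trans (le_of_eq ?_)
    push_cast
    rfl
  have hH : ∑ T ∈ range (K * t + 1), ∑ R ∈ range (S.p ^ S.rho), (nuF S hf t B T R).H L =
      ∑ u ∈ S.chains t, Real.negMulLog (S.pc u B) -
        ∑ T ∈ range (K * t + 1), ∑ R ∈ range (S.p ^ S.rho), Real.negMulLog (nuF S hf t B T R).mass := by
    rw [hsplit, ← Finset.sum_sub_distrib]
    refine Finset.sum_congr rfl fun T _ => ?_
    rw [← Finset.sum_sub_distrib]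
    exact Finset.sum_congr rfl fun R _ => cell_H S hsep M hoff hf hf2 t B L hL T R
  rw [hH]
  linarith


end PoolAgent.Helper28.ED
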