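import Pool.Agent.Helper28.ED.LocP

/-!
# ED-CONVP: the entropy of `D z + c` level by level

Copy of `EC/Conv.lean` (`conv_step`) with `locP` instead of `loc`.  `f = P f'`.  For fixed `a < f^i`: `q_a(x) = μ_{i+w}(a + f^i D' x)`, `D D' = 1 mod f^w`, a rearrangement of the window of `μ`
above `a`; `dev` is invariant under `x -> D' x` (the multiples of `P f'^w` modulo `f^w` are mapped to themselves by a unit; both sums are over complete residue systems).
In `locP` the collision sum is over `e + P c`, `c < P^(w-1) f'^w`: `∑_c ν_{i+w}(b + f^i (e + P c)) = ∑_{e'<f'} ν_{i+1}(b + f^i (e + P e'))` by `cons_iter`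
(`c = e' + f' c'`, `c' < f^(w-1)`, `sum_range_mul`).
-/

set_option autoImplicit false

namespace PoolAgent.Helper28.ED

open PoolAgent.Helper28.EC hiding Sys Stat
open Finset Real

/-- Reindexing of a sum of a periodic function by a unit. -/
private theorem sum_unit_h12 {M : Type*} [AddCommMonoid M] (n : ℕ) (g : ℤ → M) (hg : ∀ x z : ℤ, g (x + n * z) = g x)
    (u u' : ℤ) (hu : u * u' ≡ 1 [ZMOD (n : ℤ)]) : ∑ x ∈ range n, g (u * x) = ∑ x ∈ range n, g x := by
  rcases Nat.eq_zero_or_pos n with rfl | hn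
  · simp
  have hn' : (0 : ℤ) < n := by exact_mod_cast hn
  have key : ∀ y : ℤ, g y = g ((y % n).toNat : ℤ) := by
    intro y
    rw [Int.toNat_of_nonneg (Int.emod_nonneg _ hn'.ne')]
    conv_lhs => rw [← Int.emod_add_mul_ediv y n]
    exact hg _ _
  have inv : ∀ v v' : ℤ, v * v' ≡ 1 [ZMOD (n : ℤ)] → ∀ x ∈ range n,
      ((v' * (((v * (x : ℤ)) % n).toNat : ℤ)) % n).toNat = x := by
    intro v v' hv x hx
    rw [mem_range] at hx
    rw [Int.toNat_of_nonneg (Int.emod_nonneg _ hn'.ne')]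
    have h1 : v' * ((v * (x : ℤ)) % n) ≡ v' * (v * x) [ZMOD (n : ℤ)] := (Int.mod_modEq _ _).mul_left _
    have h2 : v' * (v * (x : ℤ)) ≡ x [ZMOD (n : ℤ)] := by
      have h3 := hv.mul_right (x : ℤ)
      rw [one_mul] at h3
      have h4 : v' * (v * (x : ℤ)) = v * v' * x := by ring
      rw [h4]
      exact h3
    have h5 : (v' * ((v * (x : ℤ)) % n)) % n = x % n := h1.trans h2
    rw [h5, Int.emod_eq_of_lt (by positivity) (by exact_mod_cast hx)]
    rfl
  refine Finset.sum_nbij' (fun x => ((u * (x : ℤ)) % n).toNat) (fun x => ((u' * (x : ℤ)) % n).toNat)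
    ?_ ?_ ?_ ?_ ?_
  · intro x _
    rw [mem_range]
    have h1 := Int.emod_lt_of_pos (u * (x : ℤ)) hn'
    have h2 := Int.emod_nonneg (u * (x : ℤ)) hn'.ne'
    omega
  · intro x _
    rw [mem_range]
    have h1 := Int.emod_lt_of_pos (u' * (x : ℤ)) hn'
    have h2 := Int.emod_nonneg (u' * (x : ℤ)) hn'.ne'
    omega
  · intro x hx
    exact inv u u' hu x hx
  · intro x hx
    exact inv u' u (by rw [mul_comm]; exact hu) x hx
  · intro x _
    exact key _

private theorem sum_affine_h12 {M : Type*} [AddCommMonoid M] (n : ℕ) (g : ℤ → M) (hg : ∀ x z : ℤ, g (x + n * z) = g x)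
    (u u' c : ℤ) (hu : u * u' ≡ 1 [ZMOD (n : ℤ)]) : ∑ x ∈ range n, g (u * x + c) = ∑ x ∈ range n, g x := by
  have h1 := sum_unit_h12 n (fun x => g (x + c)) (fun x z => by
    have : x + n * z + c = (x + c) + n * z := by ring
    simp only [this, hg]) u u' hu
  rw [h1]
  exact sum_range_shift n g hg c

/-- The window of the law of `D z + c` is a sum of convolutions. -/
private theorem aff_window_h12 {p : ℕ} (D D' : ℤ) (μ ν : Fam p) (i w : ℕ) (hDD : D * D' ≡ 1 [ZMOD (p : ℤ) ^ w])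
    (y e : ℤ) :
    (Fam.aff D μ ν).m (i + w) (y + (p : ℤ) ^ i * e) = ∑ a ∈ range (p ^ i), ∑ c ∈ range (p ^ w),
      ν.m (i + w) ((y - D * a) + (p : ℤ) ^ i * c) * μ.m (i + w) (a + (p : ℤ) ^ i * (D' * (e - c))) := by
  show ∑ z ∈ range (p ^ (i + w)), μ.m (i + w) (z : ℤ) * ν.m (i + w) (y + (p : ℤ) ^ i * e - D * z) = _
  rw [pow_add, sum_range_mul]
  refine Finset.sum_congr rfl fun a _ => ?_
  set g : ℤ → ℝ := fun x => μ.m (i + w) (a + (p : ℤ) ^ i * x) * ν.m (i + w) ((y - D * a) + (p : ℤ) ^ i * (e - D * x)) with hgdef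
  have hg : ∀ x z : ℤ, g (x + ((p ^ w : ℕ) : ℤ) * z) = g x := by
    intro x z
    have h1 : (a : ℤ) + (p : ℤ) ^ i * (x + ((p ^ w : ℕ) : ℤ) * z) = (a + (p : ℤ) ^ i * x) + (p : ℤ) ^ (i + w) * z := by
      push_cast; ring
    have h2 : (y - D * a) + (p : ℤ) ^ i * (e - D * (x + ((p ^ w : ℕ) : ℤ) * z)) =
        ((y - D * a) + (p : ℤ) ^ i * (e - D * x)) + (p : ℤ) ^ (i + w) * (-(D * z)) := by
      push_cast; ring
    simp only [hgdef, h1, h2, μ.per, ν.per]
  have h3 := sum_affine_h12 (p ^ w) g hg (-D') (-D) (D' * e) (by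
    rw [Nat.cast_pow]
    have : -D' * -D = D * D' := by ring
    rw [this]
    exact hDD)
  have h4 : ∑ e' ∈ range (p ^ w), μ.m (i + w) (((a + p ^ i * e' : ℕ) : ℤ)) *
      ν.m (i + w) (y + (p : ℤ) ^ i * e - D * ((a + p ^ i * e' : ℕ) : ℤ)) = ∑ x ∈ range (p ^ w), g x := by
    refine Finset.sum_congr rfl fun x _ => ?_
    simp only [hgdef]
    have k1 : ((a + p ^ i * x : ℕ) : ℤ) = (a : ℤ) + (p : ℤ) ^ i * x := by push_cast; ring
    rw [k1]
    have k2 : y + (p : ℤ) ^ i * e - D * ((a : ℤ) + (p : ℤ) ^ i * x) = y - D * a + (p : ℤ) ^ i * (e - D * x) := by ring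
    rw [k2]
  rw [h4, ← h3]
  refine Finset.sum_congr rfl fun c _ => ?_
  simp only [hgdef]
  rw [mul_comm]
  congr 1
  · refine ν.congr_of_modEq _ ?_
    refine Int.ModEq.add_left _ ?_
    rw [pow_add]
    refine Int.ModEq.mul_left' ?_
    have h5 : D * (-D' * c + D' * e) = D * D' * (e - c) := by ring
    rw [h5]
    have h6 : D * D' * (e - c) ≡ 1 * (e - c) [ZMOD (p : ℤ) ^ w] := hDD.mul_right _
    have h7 := (Int.ModEq.refl e).sub h6
    have h8 : e - 1 * (e - c) = c := by ring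
    rw [h8] at h7
    exact h7
  · congr 1
    ring

private theorem exists_inv_h12 {f : ℕ} (D : ℤ) (hD : IsCoprime D (f : ℤ)) (w : ℕ) :
    ∃ D' : ℤ, D * D' ≡ 1 [ZMOD (f : ℤ) ^ w] := by
  obtain ⟨a, b, hab⟩ := (hD.pow_right : IsCoprime D ((f : ℤ) ^ w))
  refine ⟨a, ?_⟩
  rw [Int.modEq_iff_dvd]
  exact ⟨b, by linarith⟩

/-- the average of `u (D' x)` -/
private theorem av_unit_h12 (P f' w : ℕ) (hw : 1 ≤ w) (u : ℤ → ℝ) (D' D : ℤ)
    (hD : D' * D ≡ 1 [ZMOD ((P * f' : ℕ) : ℤ) ^ w]) (hu : ∀ x z, u (x + ((P * f' : ℕ) : ℤ) ^ w * z) = u x) (x : ℤ) :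
    av P f' w (fun y => u (D' * y)) x = av P f' w u (D' * x) := by
  unfold av
  congr 1
  have hg : ∀ k z : ℤ, u (D' * x + P * (f' : ℤ) ^ w * (k + ((P ^ (w - 1) : ℕ) : ℤ) * z)) = u (D' * x + P * (f' : ℤ) ^ w * k) := by
    intro k z
    have e : D' * x + P * (f' : ℤ) ^ w * (k + ((P ^ (w - 1) : ℕ) : ℤ) * z) =
        (D' * x + P * (f' : ℤ) ^ w * k) + ((P * f' : ℕ) : ℤ) ^ w * z := by
      obtain ⟨v, rfl⟩ : ∃ v, w = v + 1 := ⟨w - 1, by omega⟩
      push_cast
      ring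
    rw [e, hu]
  have hdvd : ((P ^ (w - 1) : ℕ) : ℤ) ∣ ((P * f' : ℕ) : ℤ) ^ w := by
    obtain ⟨v, rfl⟩ : ∃ v, w = v + 1 := ⟨w - 1, by omega⟩
    refine ⟨P * (f' : ℤ) ^ (v + 1), ?_⟩
    rw [show v + 1 - 1 = v from rfl]
    push_cast
    ring
  have h1 := sum_unit_h12 (P ^ (w - 1)) (fun k => u (D' * x + P * (f' : ℤ) ^ w * k)) hg D' D (hD.of_dvd hdvd)
  rw [← h1]
  refine Finset.sum_congr rfl fun k _ => ?_
  show u (D' * (x + P * (f' : ℤ) ^ w * k)) = u (D' * x + P * (f' : ℤ) ^ w * (D' * k))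
  congr 1
  ring

private theorem dev_unit_h12 (P f' w : ℕ) (hw : 1 ≤ w) (u : ℤ → ℝ) (D' D : ℤ)
    (hD : D' * D ≡ 1 [ZMOD ((P * f' : ℕ) : ℤ) ^ w]) (hu : ∀ x z, u (x + ((P * f' : ℕ) : ℤ) ^ w * z) = u x) :
    dev P f' w (fun y => u (D' * y)) = dev P f' w u := by
  have hD' : D' * D ≡ 1 [ZMOD (((P * f') ^ w : ℕ) : ℤ)] := by
    rw [Nat.cast_pow]
    exact hD
  have hu' : ∀ x z : ℤ, u (x + (((P * f') ^ w : ℕ) : ℤ) * z) = u x := by
    intro x z
    rw [Nat.cast_pow]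
    exact hu x z
  have hav : ∀ x z : ℤ, av P f' w u (x + (((P * f') ^ w : ℕ) : ℤ) * z) = av P f' w u x := by
    intro x z
    unfold av
    congr 1
    refine Finset.sum_congr rfl fun k _ => ?_
    have e : x + (((P * f') ^ w : ℕ) : ℤ) * z + P * (f' : ℤ) ^ w * k =
        (x + P * (f' : ℤ) ^ w * k) + (((P * f') ^ w : ℕ) : ℤ) * z := by ring
    rw [e, hu']
  unfold dev
  have h1 := sum_unit_h12 ((P * f') ^ w) u hu' D' D hD'
  have h2 := sum_unit_h12 ((P * f') ^ w) (fun x => (u x - av P f' w u x) ^ 2)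
    (fun x z => by simp only [hu', hav]) D' D hD'
  congr 1
  rw [← h2]
  refine Finset.sum_congr rfl fun x _ => ?_
  rw [av_unit_h12 P f' w hw u D' D hD hu]

theorem conv_stepP {f : ℕ} (P f' : ℕ) (hf : f = P * f') (hP : ∃ p v : ℕ, p.Prime ∧ 1 ≤ v ∧ P = p ^ v) (hc : Nat.Coprime P f')
    (hf' : 0 < f') (D : ℤ) (hD : IsCoprime D (f : ℤ)) (μ ν : Fam f) (i w : ℕ) (hw : 1 ≤ w) :
    ν.mass * (μ.H (i + w) - μ.H i) + 1 / (4 * (f : ℝ) ^ (2 * w)) * (ncp P f' ν i * DEV P f' w μ i) ≤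
      (Fam.aff D μ ν).H (i + w) - (Fam.aff D μ ν).H i := by
  obtain ⟨D', hDD⟩ := exists_inv_h12 D hD w
  set K : ℝ := 1 / (4 * (f : ℝ) ^ (2 * w)) with hK
  set q : ℕ → ℤ → ℝ := fun a x => μ.m (i + w) (a + (f : ℤ) ^ i * (D' * x)) with hq
  set nb : ℤ → ℤ → ℝ := fun b c => ν.m (i + w) (b + (f : ℤ) ^ i * c) with hnb
  set dv : ℕ → ℝ := fun a => dev P f' w (fun x => μ.m (i + w) ((a : ℤ) + (f : ℤ) ^ i * x)) with hdv
  -- the loss function of the noise
  set F : ℤ → ℝ := fun b => ν.m i b - (∑ e ∈ range P, (∑ e' ∈ range f', ν.m (i + 1) (b + (f : ℤ) ^ i * (e + P * e'))) ^ 2) / ν.m i b with hF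
  have hwin : ∀ (y : ℕ) (e : ℕ), (Fam.aff D μ ν).m (i + w) ((y : ℤ) + (f : ℤ) ^ i * e) =
      ∑ a ∈ range (f ^ i), ∑ c ∈ range (f ^ w), nb (y - D * a) c * q a ((e : ℤ) - c) := by
    intro y e
    exact aff_window_h12 D D' μ ν i w hDD y e
  -- facts on `q a`
  have hDn : D' * D ≡ 1 [ZMOD ((f ^ w : ℕ) : ℤ)] := by
    rw [Nat.cast_pow, mul_comm]
    exact hDD
  have hper : ∀ (a : ℕ) (x z : ℤ), μ.m (i + w) (a + (f : ℤ) ^ i * (x + ((f ^ w : ℕ) : ℤ) * z)) = μ.m (i + w) (a + (f : ℤ) ^ i * x) := by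
    intro a x z
    have h1 : (a : ℤ) + (f : ℤ) ^ i * (x + ((f ^ w : ℕ) : ℤ) * z) = (a + (f : ℤ) ^ i * x) + (f : ℤ) ^ (i + w) * z := by
      push_cast; ring
    rw [h1, μ.per]
  have hqmass : ∀ a : ℕ, ∑ x ∈ range (f ^ w), q a x = μ.m i a := by
    intro a
    have h1 := sum_unit_h12 (f ^ w) (fun x => μ.m (i + w) (a + (f : ℤ) ^ i * x)) (hper a) D' D hDn
    simp only [hq]
    rw [h1, ← μ.cons_iter]
  have hqen : ∀ a : ℕ, En (range (f ^ w)) (fun x => q a (x : ℤ)) = (μ.res i a).H w := by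
    intro a
    have h1 := sum_unit_h12 (f ^ w) (fun x => Real.negMulLog (μ.m (i + w) (a + (f : ℤ) ^ i * x)))
      (fun x z => by simp only [hper a x z]) D' D hDn
    unfold En Fam.H En
    rw [hqmass a]
    have h2 : ∑ x ∈ range (f ^ w), (μ.res i (a : ℤ)).m w (x : ℤ) = μ.m i a := (μ.cons_iter i w a).symm
    rw [h2]
    congr 1
  have hqdev : ∀ a : ℕ, dev P f' w (q a) = dv a := by
    intro a
    refine dev_unit_h12 P f' w hw (fun x => μ.m (i + w) ((a : ℤ) + (f : ℤ) ^ i * x)) D' D ?_ ?_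
    · rw [← hf, mul_comm]
      exact hDD
    · intro x z
      rw [← hf]
      have := hper a x z
      rw [Nat.cast_pow] at this
      exact this
  -- facts on the noise
  have hbmass : ∀ b : ℤ, ∑ c ∈ range (f ^ w), nb b c = ν.m i b := fun b => (ν.cons_iter i w b).symm
  have hbcoll : ∀ b : ℤ, ∀ e : ℕ, ∑ c ∈ range (P ^ (w - 1) * f' ^ w), nb b ((e : ℤ) + P * c) =
      ∑ e' ∈ range f', ν.m (i + 1) (b + (f : ℤ) ^ i * (e + P * e')) := by
    intro b e
    have h0 : P ^ (w - 1) * f' ^ w = f' * f ^ (w - 1) := by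
      obtain ⟨v, rfl⟩ : ∃ v, w = v + 1 := ⟨w - 1, by omega⟩
      rw [hf, Nat.add_sub_cancel, mul_pow, pow_succ]
      ring
    rw [h0, sum_range_mul]
    refine Finset.sum_congr rfl fun e' _ => ?_
    rw [ν.cons_iter (i + 1) (w - 1)]
    have h1 : i + 1 + (w - 1) = i + w := by omega
    rw [h1]
    refine Finset.sum_congr rfl fun c _ => ?_
    simp only [hnb]
    congr 1
    have h2 : (f : ℤ) ^ (i + 1) = (f : ℤ) ^ i * (P * f') := by
      rw [pow_succ]
      congr 1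
      rw [hf]
      push_cast
      ring
    push_cast
    rw [h2]
    ring
  have hSper : ∀ (b e z : ℤ), ∑ e' ∈ range f', ν.m (i + 1) (b + (f : ℤ) ^ i * (e + P * z + P * e')) =
      ∑ e' ∈ range f', ν.m (i + 1) (b + (f : ℤ) ^ i * (e + P * e')) := by
    intro b e z
    have h3 := sum_range_shift f' (fun y => ν.m (i + 1) (b + (f : ℤ) ^ i * (e + P * y))) (fun y z' => by
      have h2 : (f : ℤ) ^ (i + 1) = (f : ℤ) ^ i * (P * f') := by
        rw [pow_succ]
        congr 1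
        rw [hf]
        push_cast
        ring
      have : b + (f : ℤ) ^ i * (e + P * (y + f' * z')) = (b + (f : ℤ) ^ i * (e + P * y)) + (f : ℤ) ^ (i + 1) * z' := by
        rw [h2]
        ring
      simp only [this, ν.per]) z
    rw [← h3]
    refine Finset.sum_congr rfl fun e' _ => ?_
    congr 1
    ring
  have hFper : ∀ x z : ℤ, F (x + ((f ^ i : ℕ) : ℤ) * z) = F x := by
    intro x z
    simp only [hF]
    have h1 : ν.m i (x + ((f ^ i : ℕ) : ℤ) * z) = ν.m i x := ν.per_nat i x z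
    have h2 : ∑ e ∈ range P, (∑ e' ∈ range f', ν.m (i + 1) (x + ((f ^ i : ℕ) : ℤ) * z + (f : ℤ) ^ i * (e + P * e'))) ^ 2 =
        ∑ e ∈ range P, (∑ e' ∈ range f', ν.m (i + 1) (x + (f : ℤ) ^ i * (e + P * e'))) ^ 2 := by
      have h3 := sum_range_shift P (fun e => (∑ e' ∈ range f', ν.m (i + 1) (x + (f : ℤ) ^ i * (e + P * e'))) ^ 2)
        (fun y z' => by simp only [hSper x y z']) z
      rw [← h3]
      refine Finset.sum_congr rfl fun e _ => ?_
      congr 1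
      refine Finset.sum_congr rfl fun e' _ => ?_
      congr 1
      push_cast
      ring
    rw [h1, h2]
  have hFsum : ∀ c : ℤ, ∑ y ∈ range (f ^ i), F ((y : ℤ) + c) = ncp P f' ν i := by
    intro c
    rw [sum_range_shift (f ^ i) F hFper c]
    rfl
  have hMsum : ∀ c : ℤ, ∑ y ∈ range (f ^ i), ν.m i ((y : ℤ) + c) = ν.mass := by
    intro c
    rw [sum_range_shift (f ^ i) (fun x => ν.m i x) (fun x z => ν.per_nat i x z) c, ν.sum_eq_mass]
  -- the local inequality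
  have hloc : ∀ y a : ℕ, ν.m i (y - D * a) * (μ.res i a).H w + K * (F (y - D * a) * dv a) ≤
      En (range (f ^ w)) (fun x => ∑ c ∈ range (f ^ w), nb (y - D * a) (c : ℤ) * q a ((x : ℤ) - c)) := by
    intro y a
    have h := locP P f' w hP hc hf' hw (q a) (nb (y - D * a)) (fun x => μ.nonneg _ _) (fun x => ν.nonneg _ _)
      (fun x z => by
        rw [← hf]
        simp only [hq]
        have h1 : (a : ℤ) + (f : ℤ) ^ i * (D' * (x + (f : ℤ) ^ w * z)) = (a + (f : ℤ) ^ i * (D' * x)) + (f : ℤ) ^ (i + w) * (D' * z) := by ring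
        rw [h1, μ.per])
      (fun x z => by
        rw [← hf]
        simp only [hnb]
        have h1 : ((y : ℤ) - D * a) + (f : ℤ) ^ i * (x + (f : ℤ) ^ w * z) = ((y - D * a) + (f : ℤ) ^ i * x) + (f : ℤ) ^ (i + w) * z := by ring
        rw [h1, ν.per])
    rw [← hf] at h
    rw [hbmass, hqen, hqdev] at h
    simp only [hbcoll] at h
    exact h
  -- the sum over `y` and `a`
  have hH : (Fam.aff D μ ν).H (i + w) - (Fam.aff D μ ν).H i =
      ∑ y ∈ range (f ^ i), En (range (f ^ w)) (fun e => ∑ a ∈ range (f ^ i), ∑ c ∈ range (f ^ w), nb ((y : ℤ) - D * a) c * q a ((e : ℤ) - c)) := by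
    rw [H_add]
    have h1 : ∀ y : ℕ, ((Fam.aff D μ ν).res i y).H w = En (range (f ^ w)) (fun e => ∑ a ∈ range (f ^ i), ∑ c ∈ range (f ^ w), nb ((y : ℤ) - D * a) c * q a ((e : ℤ) - c)) := by
      intro y
      unfold Fam.H
      congr 1
      funext e
      exact hwin y e
    simp only [h1]
    ring
  rw [hH]
  have hHμ : μ.H (i + w) - μ.H i = ∑ a ∈ range (f ^ i), (μ.res i a).H w := by
    rw [H_add]
    ring
  calc ν.mass * (μ.H (i + w) - μ.H i) + K * (ncp P f' ν i * DEV P f' w μ i)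
      = ∑ a ∈ range (f ^ i), ∑ y ∈ range (f ^ i), (ν.m i (y - D * a) * (μ.res i a).H w +
          K * (F (y - D * a) * dv a)) := by
        have h1 : ∀ a : ℕ, ∑ y ∈ range (f ^ i), (ν.m i (y - D * a) * (μ.res i a).H w +
          K * (F (y - D * a) * dv a)) =
          ν.mass * (μ.res i a).H w + K * (ncp P f' ν i * dv a) := by
          intro a
          rw [Finset.sum_add_distrib, ← Finset.sum_mul, ← Finset.mul_sum, ← Finset.sum_mul]
          have h2 := hMsum (-(D * a))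
          have h3 := hFsum (-(D * a))
          simp only [← sub_eq_add_neg] at h2 h3
          rw [h2, h3]
        simp only [h1]
        rw [Finset.sum_add_distrib, ← Finset.mul_sum, ← Finset.mul_sum, ← Finset.mul_sum, ← hHμ]
        rfl
    _ = ∑ y ∈ range (f ^ i), ∑ a ∈ range (f ^ i), (ν.m i (y - D * a) * (μ.res i a).H w +
          K * (F (y - D * a) * dv a)) := Finset.sum_comm
    _ ≤ ∑ y ∈ range (f ^ i), ∑ a ∈ range (f ^ i),
          En (range (f ^ w)) (fun x => ∑ c ∈ range (f ^ w), nb ((y : ℤ) - D * a) (c : ℤ) * q a ((x : ℤ) - c)) :=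
        Finset.sum_le_sum fun y _ => Finset.sum_le_sum fun a _ => hloc y a
    _ ≤ _ := by
        refine Finset.sum_le_sum fun y _ => ?_
        exact en_superadd (range (f ^ i)) (range (f ^ w))
          (fun (a : ℕ) (e : ℕ) => ∑ c ∈ range (f ^ w), nb ((y : ℤ) - D * a) c * q a ((e : ℤ) - c))
          (fun a _ e _ => Finset.sum_nonneg fun c _ => mul_nonneg (ν.nonneg _ _) (μ.nonneg _ _))

end PoolAgent.Helper28.ED
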