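import Pool.Agent.Helper28.ED.ConvP

/-!
# ED-CSUMP: summation over the levels

Copy of `EC/ConvSum.lean` with `conv_stepP`.  `ncp_nonneg`: `∑_{e<P} (∑_{e'<f'} ...)^2 <= (∑_{e<P} ∑_{e'<f'} ...)^2 = ν_i(y)^2` (`cons`, `f = P f'`).
-/

set_option autoImplicit false

namespace PoolAgent.Helper28.ED

open PoolAgent.Helper28.EC hiding Sys Stat
open Finset Real

private theorem ncp_term_nonneg {f : ℕ} (P f' : ℕ) (hf : f = P * f') (ν : Fam f) (i : ℕ) (y : ℤ) :
    0 ≤ ν.m i y - (∑ e ∈ range P, (∑ e' ∈ range f', ν.m (i + 1) (y + (f : ℤ) ^ i * (e + P * e'))) ^ 2) / ν.m i y := by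
  rcases (ν.nonneg i y).eq_or_lt with h | h
  · rw [← h]; simp
  · have h0 : ν.m i y = ∑ e ∈ range P, ∑ e' ∈ range f', ν.m (i + 1) (y + (f : ℤ) ^ i * (e + P * e')) := by
      rw [ν.cons i y]
      have h1 := sum_range_mul P f' (fun e : ℕ => ν.m (i + 1) (y + (f : ℤ) ^ i * e))
      rw [← hf] at h1
      rw [h1]
      refine Finset.sum_congr rfl fun e _ => Finset.sum_congr rfl fun e' _ => ?_
      push_cast
      rfl
    have h1 : ∑ e ∈ range P, (∑ e' ∈ range f', ν.m (i + 1) (y + (f : ℤ) ^ i * (e + P * e'))) ^ 2 ≤ ν.m i y ^ 2 := by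
      rw [h0]
      exact Finset.sum_sq_le_sq_sum_of_nonneg (fun e _ => Finset.sum_nonneg fun e' _ => ν.nonneg _ _)
    have h2 : (∑ e ∈ range P, (∑ e' ∈ range f', ν.m (i + 1) (y + (f : ℤ) ^ i * (e + P * e'))) ^ 2) / ν.m i y ≤
        ν.m i y := by
      rw [div_le_iff₀ h]
      calc _ ≤ ν.m i y ^ 2 := h1
        _ = _ := by ring
    linarith

theorem ncp_nonneg {f : ℕ} (P f' : ℕ) (hf : f = P * f') (ν : Fam f) (i : ℕ) : 0 ≤ ncp P f' ν i := by
  unfold ncp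
  exact Finset.sum_nonneg fun y _ => ncp_term_nonneg P f' hf ν i y

theorem ncp_le_mass {f : ℕ} (P f' : ℕ) (ν : Fam f) (i : ℕ) : ncp P f' ν i ≤ ν.mass := by
  unfold ncp
  rw [← ν.sum_eq_mass i]
  refine Finset.sum_le_sum fun y _ => ?_
  have : 0 ≤ (∑ e ∈ range P, (∑ e' ∈ range f', ν.m (i + 1) ((y : ℤ) + (f : ℤ) ^ i * (e + P * e'))) ^ 2) /
      ν.m i (y : ℤ) :=
    div_nonneg (Finset.sum_nonneg fun e _ => sq_nonneg _) (ν.nonneg _ _)
  linarith

theorem DEV_nonneg {f : ℕ} (P f' w : ℕ) (μ : Fam f) (i : ℕ) : 0 ≤ DEV P f' w μ i := by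
  unfold DEV
  refine Finset.sum_nonneg fun a _ => ?_
  unfold dev
  exact div_nonneg (Finset.sum_nonneg fun e _ => sq_nonneg _) (Finset.sum_nonneg fun e _ => μ.nonneg _ _)

private theorem teleP (g : ℕ → ℝ) (N w : ℕ) :
    ∑ i ∈ range N, (g (i + w) - g i) = ∑ j ∈ range w, (g (N + j) - g j) := by
  rw [Finset.sum_sub_distrib, Finset.sum_sub_distrib]
  have h1 := Finset.sum_range_add g N w
  have h2 := Finset.sum_range_add g w N
  rw [add_comm w N] at h2
  have h3 : ∑ x ∈ range N, g (w + x) = ∑ x ∈ range N, g (x + w) :=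
    Finset.sum_congr rfl fun x _ => by rw [add_comm]
  rw [h3] at h2
  linarith

theorem conv_sumP {f : ℕ} (P f' : ℕ) (hf : f = P * f') (hP : ∃ p v : ℕ, p.Prime ∧ 1 ≤ v ∧ P = p ^ v) (hc : Nat.Coprime P f')
    (hf' : 0 < f') (D : ℤ) (hD : IsCoprime D (f : ℤ)) (μ ν : Fam f) (L w : ℕ) (hw : 1 ≤ w) (hL : w ≤ L) :
    ∑ i ∈ range (L - w + 1), ncp P f' ν i * DEV P f' w μ i ≤
      4 * w * (f : ℝ) ^ (2 * w) * ((Fam.aff D μ ν).H L - ν.mass * μ.H L) := by
  have hP0 : 0 < P := by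
    obtain ⟨p, v, hp, -, rfl⟩ := hP
    exact pow_pos hp.pos _
  have hf0 : (0 : ℝ) < f := by
    have : 0 < f := by rw [hf]; exact Nat.mul_pos hP0 hf'
    exact_mod_cast this
  set g : ℕ → ℝ := fun j => (Fam.aff D μ ν).H j - ν.mass * μ.H j with hg
  have hstep : ∀ i v : ℕ, 1 ≤ v → 1 / (4 * (f : ℝ) ^ (2 * v)) * (ncp P f' ν i * DEV P f' v μ i) ≤ g (i + v) - g i := by
    intro i v hv
    have h := conv_stepP P f' hf hP hc hf' D hD μ ν i v hv
    simp only [hg]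
    linarith
  have hmono : Monotone g := by
    refine monotone_nat_of_le_succ fun i => ?_
    have h := hstep i 1 le_rfl
    have h1 : 0 ≤ 1 / (4 * (f : ℝ) ^ (2 * 1)) * (ncp P f' ν i * DEV P f' 1 μ i) :=
      mul_nonneg (by positivity) (mul_nonneg (ncp_nonneg P f' hf ν i) (DEV_nonneg P f' 1 μ i))
    linarith
  have hg0 : g 0 = 0 := by
    simp only [hg, H_zero]; ring
  have hgn : ∀ j, 0 ≤ g j := fun j => by rw [← hg0]; exact hmono (Nat.zero_le j)
  have h1 : 1 / (4 * (f : ℝ) ^ (2 * w)) * ∑ i ∈ range (L - w + 1), ncp P f' ν i * DEV P f' w μ i ≤ w * g L := by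
    rw [Finset.mul_sum]
    calc ∑ i ∈ range (L - w + 1), 1 / (4 * (f : ℝ) ^ (2 * w)) * (ncp P f' ν i * DEV P f' w μ i)
        ≤ ∑ i ∈ range (L - w + 1), (g (i + w) - g i) :=
          Finset.sum_le_sum fun i _ => hstep i w hw
      _ = ∑ j ∈ range w, (g (L - w + 1 + j) - g j) := teleP g _ _
      _ ≤ ∑ j ∈ range w, g L := by
          refine Finset.sum_le_sum fun j hj => ?_
          have hj' := mem_range.1 hj
          have h2 : g (L - w + 1 + j) ≤ g L := hmono (by omega)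
          have h3 := hgn j
          linarith
      _ = w * g L := by simp
  have hc : (0 : ℝ) < 4 * (f : ℝ) ^ (2 * w) := by positivity
  rw [one_div, inv_mul_le_iff₀ hc] at h1
  calc ∑ i ∈ range (L - w + 1), ncp P f' ν i * DEV P f' w μ i ≤ 4 * (f : ℝ) ^ (2 * w) * (w * g L) := h1
    _ = _ := by simp only [hg]; ring

end PoolAgent.Helper28.ED
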