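import Pool.Agent.Helper28.ED.GainTotal

/-!
# ED-FEK: the loss is `o(t)` (copy of `EC/Fek.lean`)

Nonnegativity of the loss: `gain_totalP` with `f = S.p`, `g = 1` (`type_self`), `P = r^(S.p.factorization r)`, `r` a prime factor of `S.p` (`S.p >= 2`), `w = 1`.
-/

set_option autoImplicit false

namespace PoolAgent.Helper28.ED

open PoolAgent.Helper28.EC hiding Sys Stat
open Finset Real

open Filter Topology in
private lemma fek_sub_h2 (S : Sys) (h2 : S.Two) (ω : Fam S.p) (hst : Stat S ω) :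
    Subadditive (fun k => ω.H (S.N * k + S.rho)) := by
  obtain ⟨K, _, hK⟩ := S.tt_le
  intro s t
  show ω.H (S.N * (s + t) + S.rho) ≤ ω.H (S.N * s + S.rho) + ω.H (S.N * t + S.rho)
  rcases Nat.eq_zero_or_pos s with rfl | hs
  · rw [zero_add]
    have := H_nonneg ω (S.N * 0 + S.rho)
    linarith
  · have hL : 1 ≤ S.N * s := Nat.mul_pos S.hN hs
    have hp2 := S.hp
    have hr : (S.p.minFac).Prime := Nat.minFac_prime (by omega)
    have hp0 : S.p ≠ 0 := by omega
    set r := S.p.minFac with hrdef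
    set P := r ^ (S.p.factorization r) with hPdef
    set f' := S.p / P with hf'def
    have hPf : S.p = P * f' := (Nat.ordProj_mul_ordCompl_eq_self S.p r).symm
    have hfac : 1 ≤ S.p.factorization r :=
      hr.factorization_pos_of_dvd hp0 (Nat.minFac_dvd S.p)
    have hcop : Nat.Coprime P f' := Nat.Coprime.pow_left _ (Nat.coprime_ordCompl hr hp0)
    have h := gain_totalP S h2 (f := S.p) (g := 1) (mul_one _).symm (Nat.coprime_one_right _)
      dvd_rfl P f' hPf ⟨r, _, hr, hfac, rfl⟩ hcop ω hst (type_self S ω) K hK t (S.N * s) 1 le_rfl hL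
    have h0 : 0 ≤ ∑ i ∈ range (S.N * s - 1 + 1), ∑ B ∈ range (S.p ^ (S.N * t + S.rho)),
        ∑ T ∈ range (K * t + 1), ∑ R ∈ range (S.p ^ S.rho),
          ncp P f' (nuF S dvd_rfl t B T R) i * DEV P f' 1 (muF S dvd_rfl ω (S.N * t + S.rho) B) i :=
      Finset.sum_nonneg fun i _ => Finset.sum_nonneg fun B _ => Finset.sum_nonneg fun T _ =>
        Finset.sum_nonneg fun R _ => mul_nonneg (ncp_nonneg _ _ hPf _ _) (DEV_nonneg _ _ _ _ _)
    have h1 := h0.trans h
    have hp : (0 : ℝ) < 4 * ((1 : ℕ) : ℝ) * (S.p : ℝ) ^ (2 * 1) := by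
      have : (0 : ℝ) < S.p := by exact_mod_cast S.pp
      positivity
    have h3 := nonneg_of_mul_nonneg_right h1 hp
    have e : S.N * (s + t) + S.rho = S.N * s + (S.N * t + S.rho) := by ring
    rw [e]
    linarith

open Filter Topology in
theorem loss (S : Sys) (h2 : S.Two) (ω : Fam S.p) (hst : Stat S ω) (M : ℕ) (hM : 1 ≤ M) :
    Tendsto (fun t : ℕ => (ω.H (S.N * M * t + S.rho) + ω.H (S.N * t + S.rho) -
      ω.H (S.N * M * t + (S.N * t + S.rho))) / t) atTop (𝓝 0) := by
  have hsub := fek_sub_h2 S h2 ω hst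
  set a : ℕ → ℝ := fun k => ω.H (S.N * k + S.rho) with ha
  have hbdd : BddBelow (Set.range fun n => a n / n) := by
    refine ⟨0, ?_⟩
    rintro _ ⟨n, rfl⟩
    exact div_nonneg (H_nonneg ω _) (Nat.cast_nonneg n)
  have hlim := hsub.tendsto_lim hbdd
  have h1 : Tendsto (fun t : ℕ => a (M * t) / ((M * t : ℕ) : ℝ)) atTop (𝓝 hsub.lim) :=
    hlim.comp (tendsto_id.const_mul_atTop' hM)
  have h2' : Tendsto (fun t : ℕ => a ((M + 1) * t) / (((M + 1) * t : ℕ) : ℝ)) atTop (𝓝 hsub.lim) :=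
    hlim.comp (tendsto_id.const_mul_atTop' (Nat.succ_pos M))
  have h3 := ((h1.const_mul (M : ℝ)).add hlim).sub (h2'.const_mul ((M : ℝ) + 1))
  have e0 : (M : ℝ) * hsub.lim + hsub.lim - ((M : ℝ) + 1) * hsub.lim = 0 := by ring
  rw [e0] at h3
  refine h3.congr' ?_
  filter_upwards [eventually_ge_atTop 1] with t ht
  have ht' : (t : ℝ) ≠ 0 := by
    have : t ≠ 0 := by omega
    exact_mod_cast this
  have hM' : (M : ℝ) ≠ 0 := by
    have : M ≠ 0 := by omega
    exact_mod_cast this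
  have hM'' : (M : ℝ) + 1 ≠ 0 := by positivity
  have k1 : ω.H (S.N * M * t + S.rho) = a (M * t) := by
    rw [ha]; simp only; rw [mul_assoc]
  have k2 : ω.H (S.N * M * t + (S.N * t + S.rho)) = a ((M + 1) * t) := by
    rw [ha]; simp only; congr 1; ring
  have k3 : ω.H (S.N * t + S.rho) = a t := rfl
  rw [k1, k2, k3]
  push_cast
  field_simp

end PoolAgent.Helper28.ED
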