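import Pool.Agent.Helper28.ED.Minor
import Pool.Agent.Helper28.ED.Growth

/-!
# ED: the growth theorem for affine letter systems, arbitrary base
-/

set_option autoImplicit false

namespace PoolAgent.Helper28.ED

open PoolAgent.Helper28.EC hiding Sys Stat
open Finset Real

theorem growth (S : Sys) (h2 : S.Two) (hsep : S.Sep) (M : ℕ) (hM : 1 ≤ M) (hoff : S.OffBd M) (cs : ℝ) (hcs : 0 < cs)
    (havg : ∀ R : ℤ, S.alive R → cs * (S.p : ℝ) ^ S.N ≤
      ∑ e ∈ range (S.p ^ S.N), Real.log (S.Z1 (R + (S.p : ℤ) ^ S.rho * e))) :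
    ∃ t : ℕ, 1 ≤ t ∧ ∀ a : ℤ, S.alive a → Real.exp (cs / 2 * t) ≤ S.Z t a :=
  growth_of_minor S h2 (minor S h2 hsep M hM hoff) cs hcs havg

end PoolAgent.Helper28.ED
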