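import Pool.Agent.Helper28.ED.Chain

/-!
# EC-IT: stationarity over `t` steps

Induction on `t`.  Step: write the level `j` by `hst.inv` (one step, level `j + N`), every term `μ.m (j+N) y'` by the induction hypothesis at the level
`j + N` (`u` chain of length `t` from `y` with `cc u y = y' mod p^(j+N)`).  For such `y`: `S.pr w y' = S.pr w (cc u y)` (`pr_per`, `j >= rho`) and
`S.child w y' = S.child w (cc u y) mod p^j` when `w` is valid (`child_shift`).  The chain is `u` followed by `w` - since `cc` and `pc` are defined head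
first, either prove `pc (u ++ [w]) a = pc u a * pr w (cc u a)`, `cc (u ++ [w]) a = child w (cc u a)` and reindex the chains of length `t+1`, or do the
induction the other way round: first letter `w` by `hst.inv` at the far level.  (The second way: `μ.m j x = ∑_{y < p^(j+Nt)} μ.m (j+Nt) y ∑_u ...`; expand
`μ.m (j+Nt) y` by `hst.inv`: `= ∑_{y'<p^(j+Nt+N)} μ.m (j+Nt+N) y' ∑_w [child w y' = y mod p^(j+Nt)] pr w y'`, then
`pc u y = pc u (child w y')`, `cc u y = cc u (child w y') mod p^j` by `pc_per`, `cc_shift`; each `child w y'` is congruent to exactly one `y < p^(j+Nt)`.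
This avoids appending at the end.)
-/

set_option autoImplicit false

namespace PoolAgent.Helper28.ED

open PoolAgent.Helper28.EC hiding Sys Stat

open Finset

/-- a sum over the residues with the indicator of one class -/
private theorem sum_class_h12 {n : ℕ} (hn : 0 < n) (G : ℤ → ℝ) (hG : ∀ a z : ℤ, G (a + n * z) = G a) (c : ℤ) :
    ∑ y ∈ range n, (if c ≡ (y : ℤ) [ZMOD (n : ℤ)] then G y else 0) = G c := by
  have hn' : (0 : ℤ) < n := by exact_mod_cast hn
  have h1 := Int.emod_nonneg c hn'.ne'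
  have h2 := Int.emod_lt_of_pos c hn'
  have h3 : ((c % n).toNat : ℤ) = c % n := Int.toNat_of_nonneg h1
  rw [Finset.sum_eq_single_of_mem (c % n).toNat]
  · rw [h3, if_pos (Int.mod_modEq c n).symm]
    have h4 := Int.emod_add_mul_ediv c n
    conv_rhs => rw [← h4]
    rw [hG]
  · rw [mem_range]
    omega
  · intro y hy hne
    rw [mem_range] at hy
    rw [if_neg]
    intro h
    apply hne
    have h5 : c % n = (y : ℤ) % n := h
    have h6 : (y : ℤ) % n = y := Int.emod_eq_of_lt (by positivity) (by exact_mod_cast hy)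
    rw [h6] at h5
    omega

open Classical in
/-- the chains of length `t` from `y` which end in the class of `x` -/
private noncomputable def G_h12 (S : Sys) (t j : ℕ) (x y : ℤ) : ℝ :=
  ∑ u ∈ S.chains t, if S.cc u y ≡ x [ZMOD (S.p : ℤ) ^ j] then S.pc u y else 0

private theorem G_per_h12 (S : Sys) (t j : ℕ) (x : ℤ) (hj : S.rho ≤ j) (a z : ℤ) :
    G_h12 S t j x (a + ((S.p ^ (j + S.N * t) : ℕ) : ℤ) * z) = G_h12 S t j x a := by
  unfold G_h12
  refine Finset.sum_congr rfl fun u hu => ?_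
  have hlen : u.length = t := (S.mem_chains t u).1 hu
  have e1 : ((S.p ^ (j + S.N * t) : ℕ) : ℤ) * z = (S.p : ℤ) ^ (S.N * u.length + S.rho) * ((S.p : ℤ) ^ (j - S.rho) * z) := by
    push_cast
    rw [← mul_assoc, ← pow_add]
    congr 2
    rw [hlen]
    omega
  have e2 : ((S.p ^ (j + S.N * t) : ℕ) : ℤ) * z = (S.p : ℤ) ^ (S.N * u.length + j) * z := by
    push_cast
    congr 2
    rw [hlen]
    omega
  have h1 : S.pc u (a + ((S.p ^ (j + S.N * t) : ℕ) : ℤ) * z) = S.pc u a := by
    rw [e1, S.pc_per]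
  by_cases h0 : S.pc u a = 0
  · rw [h1, h0, ite_self, ite_self]
  · rw [h1]
    have h2 : S.cc u (a + ((S.p ^ (j + S.N * t) : ℕ) : ℤ) * z) ≡ S.cc u a [ZMOD (S.p : ℤ) ^ j] := by
      rw [e2, S.cc_shift u a z j h0]
      have : S.cc u a + (S.p : ℤ) ^ j * (S.d ^ S.tt u * z) ≡ S.cc u a + 0 [ZMOD (S.p : ℤ) ^ j] :=
        Int.ModEq.add_left _ ((Int.modEq_zero_iff_dvd).2 (Dvd.intro _ rfl))
      rwa [add_zero] at this
    by_cases h3 : S.cc u a ≡ x [ZMOD (S.p : ℤ) ^ j]
    · rw [if_pos h3, if_pos (h2.trans h3)]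
    · rw [if_neg h3, if_neg fun h => h3 (h2.symm.trans h)]

theorem stat_iter (S : Sys) (μ : Fam S.p) (hst : Stat S μ) (t j : ℕ) (x : ℤ) (hj : S.rho ≤ j) :
    μ.m j x = ∑ y ∈ range (S.p ^ (j + S.N * t)), μ.m (j + S.N * t) (y : ℤ) *
      ∑ u ∈ S.chains t, if S.cc u y ≡ x [ZMOD (S.p : ℤ) ^ j] then S.pc u y else 0 := by
  have hp0 : 0 < S.p := S.pp
  induction t with
  | zero =>
    rw [mul_zero, add_zero]
    have h1 : ∀ y ∈ range (S.p ^ j), μ.m j (y : ℤ) *
        ∑ u ∈ S.chains 0, (if S.cc u y ≡ x [ZMOD (S.p : ℤ) ^ j] then S.pc u y else 0) =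
        if x ≡ (y : ℤ) [ZMOD ((S.p ^ j : ℕ) : ℤ)] then μ.m j (y : ℤ) else 0 := by
      intro y _
      show μ.m j (y : ℤ) * ∑ u ∈ {([] : List S.ι)}, (if S.cc u y ≡ x [ZMOD (S.p : ℤ) ^ j] then S.pc u y else 0) = _
      rw [Finset.sum_singleton]
      show μ.m j (y : ℤ) * (if (y : ℤ) ≡ x [ZMOD (S.p : ℤ) ^ j] then (1 : ℝ) else 0) = _
      push_cast
      by_cases h : (y : ℤ) ≡ x [ZMOD (S.p : ℤ) ^ j]
      · rw [if_pos h, if_pos h.symm, mul_one]
      · rw [if_neg h, if_neg fun h' => h h'.symm, mul_zero]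
    rw [Finset.sum_congr rfl h1]
    refine (sum_class_h12 (pow_pos hp0 j) (fun y => μ.m j y) (fun a z => ?_) x).symm
    have := μ.per j a z
    push_cast
    exact this
  | succ t ih =>
    set J := j + S.N * t with hJ
    have hJN : j + S.N * (t + 1) = J + S.N := by rw [hJ]; ring
    rw [hJN, ih]
    have hinv : ∀ y ∈ range (S.p ^ J), μ.m J (y : ℤ) *
        ∑ u ∈ S.chains t, (if S.cc u y ≡ x [ZMOD (S.p : ℤ) ^ j] then S.pc u y else 0) =
        ∑ y' ∈ range (S.p ^ (J + S.N)), μ.m (J + S.N) (y' : ℤ) *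
          ∑ w : S.ι, S.pr w y' * (if S.child w y' ≡ (y : ℤ) [ZMOD ((S.p ^ J : ℕ) : ℤ)] then G_h12 S t j x y else 0) := by
      intro y _
      rw [hst.inv J y (by omega), Finset.sum_mul]
      refine Finset.sum_congr rfl fun y' _ => ?_
      rw [mul_assoc, Finset.sum_mul]
      congr 1
      refine Finset.sum_congr rfl fun w _ => ?_
      push_cast
      by_cases h : S.child w y' ≡ (y : ℤ) [ZMOD (S.p : ℤ) ^ J]
      · rw [if_pos h, if_pos h]
        rfl
      · rw [if_neg h, if_neg h, zero_mul, mul_zero]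
    rw [Finset.sum_congr rfl hinv, Finset.sum_comm]
    refine Finset.sum_congr rfl fun y' _ => ?_
    rw [← Finset.mul_sum]
    congr 1
    rw [Finset.sum_comm, S.sum_chains_succ]
    refine Finset.sum_congr rfl fun w _ => ?_
    rw [← Finset.mul_sum, sum_class_h12 (pow_pos hp0 J) (G_h12 S t j x) (G_per_h12 S t j x hj) (S.child w y')]
    unfold G_h12
    rw [Finset.mul_sum]
    refine Finset.sum_congr rfl fun u _ => ?_
    show S.pr w y' * _ = if S.cc u (S.child w y') ≡ x [ZMOD (S.p : ℤ) ^ j] then S.pr w y' * S.pc u (S.child w y') else 0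
    by_cases h : S.cc u (S.child w y') ≡ x [ZMOD (S.p : ℤ) ^ j]
    · rw [if_pos h, if_pos h]
    · rw [if_neg h, if_neg h, mul_zero]

end PoolAgent.Helper28.ED
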