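import Pool.Agent.Helper28.ED.Proj
import Pool.Agent.Helper28.ED.Iter

/-!
# ED-GAIN: no entropy is gained by a stationary family of type `f`

Adapt `EC/Gain.lean`.  `l = N t + rho`, `q = p = f g`.  By `res_type` and `proj_m`: `(muF ω l B)_L(e) = g^L ω_{l+L}(B + p^l e)`, `(muF ω rho R)_L(x) = g^L ω_{rho+L}(R + p^rho x)`.
Claim: for `R < p^rho` `(muF ω rho R)_L(x) = ∑_B ∑_T (aff (d^T) (muF ω l B) (nuF t B T R))_L(x)`: `stat_iter` at the level `rho + L` with `y = B + p^l e`, `B < p^l`, `e < p^L`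
(`sum_range_mul`; `pc u y = pc u B`, `cc u y = cc u B + p^rho d^(tt u) e`): for each chain `u` exactly one `e < p^L` has `chat + d^(tt u) e = x mod p^L`; on the other side exactly one
`z < f^L` has `chat + d^(tt u) z = x mod f^L`; `e = z mod f^L`, and `ω_{l+L}(B + p^l .)` is periodic modulo `f^L`.  Then `en_superadd`, and `∑_R (muF ω rho R).H L = ω.H (rho+L) - ω.H rho - L log g`
by `H_add` and `proj_H` (mass 1), `ω.H rho >= 0`.
-/

set_option autoImplicit false

namespace PoolAgent.Helper28.ED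

open PoolAgent.Helper28.EC hiding Sys Stat
open Finset Real

private lemma modEq_split_h43 (q P c R v w : ℤ) (hq : 0 < q) (hR0 : 0 ≤ R) (hR : R < q) :
    (c + q * w ≡ R + q * v [ZMOD (P * q)]) ↔ (c % q = R ∧ c / q ≡ v - w [ZMOD P]) := by
  have hc := Int.emod_add_mul_ediv c q
  constructor
  · intro h
    have h1 : c + q * w ≡ R + q * v [ZMOD q] := h.of_dvd (Dvd.intro_left P rfl)
    have h2 : c % q = R := by
      have h3 : (c + q * w) % q = (R + q * v) % q := h1
      rw [Int.add_mul_emod_self_left, Int.add_mul_emod_self_left, Int.emod_eq_of_lt hR0 hR] at h3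
      exact h3
    refine ⟨h2, ?_⟩
    obtain ⟨m, hm⟩ := h.dvd
    rw [Int.modEq_iff_dvd]
    refine ⟨m, ?_⟩
    have h4 : q * (v - w - c / q) = q * (P * m) := by
      rw [h2] at hc
      linear_combination hm - hc
    exact mul_left_cancel₀ hq.ne' h4
  · rintro ⟨h2, h3⟩
    rw [Int.modEq_iff_dvd] at h3 ⊢
    obtain ⟨m, hm⟩ := h3
    refine ⟨m, ?_⟩
    rw [h2] at hc
    linear_combination q * hm + hc

/-- A sum over the residues with the indicator of the solutions of a linear congruence. -/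
private lemma sum_lin_h43 {n : ℕ} (hn : 0 < n) (F : ℤ → ℝ) (hF : ∀ a z : ℤ, F (a + n * z) = F a)
    (D c x u0 : ℤ) (hu : u0 * D ≡ 1 [ZMOD (n : ℤ)]) :
    ∑ e ∈ range n, (if c ≡ x - D * e [ZMOD (n : ℤ)] then F e else 0) = F (u0 * (x - c)) := by
  have hn' : (0 : ℤ) < n := by exact_mod_cast hn
  set C : ℤ := u0 * (x - c) with hC
  have key : ∀ e : ℤ, (c ≡ x - D * e [ZMOD (n : ℤ)]) ↔ (C ≡ e [ZMOD (n : ℤ)]) := by
    intro e
    constructor
    · intro h
      have h1 : D * e ≡ x - c [ZMOD (n : ℤ)] := by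
        have := (h.add_right (D * e - c)).symm
        have e1 : x - D * e + (D * e - c) = x - c := by ring
        have e2 : c + (D * e - c) = D * e := by ring
        rw [e1, e2] at this
        exact this.symm
      have h2 := h1.mul_left u0
      have h3 := hu.mul_right e
      rw [one_mul, mul_assoc] at h3
      exact h2.symm.trans h3
    · intro h
      have h1 := h.mul_left D
      have h2 : D * C ≡ x - c [ZMOD (n : ℤ)] := by
        have := hu.mul_right (x - c)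
        rw [one_mul] at this
        have e1 : u0 * D * (x - c) = D * C := by rw [hC]; ring
        rwa [e1] at this
      have h3 : x - c ≡ D * e [ZMOD (n : ℤ)] := h2.symm.trans h1
      have h4 := h3.add_right (c - D * e)
      have e1 : x - c + (c - D * e) = x - D * e := by ring
      have e2 : D * e + (c - D * e) = c := by ring
      rw [e1, e2] at h4
      exact h4.symm
  have h1 := Int.emod_nonneg C hn'.ne'
  have h2 := Int.emod_lt_of_pos C hn'
  have h3 : ((C % n).toNat : ℤ) = C % n := Int.toNat_of_nonneg h1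
  rw [Finset.sum_eq_single_of_mem (C % n).toNat]
  · rw [if_pos]
    · rw [h3]
      have h4 := Int.emod_add_mul_ediv C n
      conv_rhs => rw [← h4]
      rw [hF]
    · rw [key, h3]
      exact (Int.mod_modEq C n).symm
  · rw [mem_range]
    omega
  · intro y hy hne
    rw [mem_range] at hy
    rw [if_neg]
    rw [key]
    intro h
    apply hne
    have h5 : C % n = (y : ℤ) % n := h
    have h6 : (y : ℤ) % n = y := Int.emod_eq_of_lt (by positivity) (by exact_mod_cast hy)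
    rw [h6] at h5
    omega

private lemma gain_key_h43 (S : Sys) {f g : ℕ} (hfg : S.p = f * g) (hc : Nat.Coprime f g) (hf : f ∣ S.p)
    (ω : Fam S.p) (hst : Stat S ω) (hT : OfType S f ω) (K : ℕ)
    (hK : ∀ u : List S.ι, S.tt u ≤ K * u.length) (t L R : ℕ) (hR : R < S.p ^ S.rho) (v : ℤ) :
    (muF S hf ω S.rho R).m L v =
      ∑ B ∈ range (S.p ^ (S.N * t + S.rho)), ∑ T ∈ range (K * t + 1),
        (Fam.aff (S.d ^ T) (muF S hf ω (S.N * t + S.rho) B) (nuF S hf t B T R)).m L v := by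
  classical
  have hpp := S.pp
  have hf0 : 0 < f := Nat.pos_of_dvd_of_pos hf hpp
  have hp0 : (0 : ℤ) < S.p := by exact_mod_cast S.pp
  have hq : (0 : ℤ) < (S.p : ℤ) ^ S.rho := pow_pos hp0 _
  have hmu : ∀ (l : ℕ) (y : ℤ), S.rho ≤ l → ∀ x : ℤ,
      (muF S hf ω l y).m L x = (g : ℝ) ^ L * ω.m (l + L) (y + (S.p : ℤ) ^ l * x) := by
    intro l y hl x
    exact proj_m S.pp hf hfg hc (ω.res l y) (res_type S hfg ω hT l y hl) L x
  rw [hmu S.rho R le_rfl, add_comm S.rho L, stat_iter S ω hst t (L + S.rho) _ (Nat.le_add_left _ _)]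
  have e : L + S.rho + S.N * t = (S.N * t + S.rho) + L := by ring
  rw [e, pow_add, sum_range_mul, Finset.mul_sum]
  refine Finset.sum_congr rfl fun B _ => ?_
  set l := S.N * t + S.rho with hl
  -- the function on the digits
  let F : ℤ → ℝ := fun z => ω.m (l + L) ((B : ℤ) + (S.p : ℤ) ^ l * z)
  have hFf : ∀ a z : ℤ, F (a + ((f ^ L : ℕ) : ℤ) * z) = F a := by
    intro a z
    have := res_type S hfg ω hT l (B : ℤ) (by omega) L a z
    push_cast
    exact this
  have hFp : ∀ a z : ℤ, F (a + ((S.p ^ L : ℕ) : ℤ) * z) = F a := by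
    intro a z
    have e1 : ((S.p ^ L : ℕ) : ℤ) * z = ((f ^ L : ℕ) : ℤ) * ((g : ℤ) ^ L * z) := by
      rw [hfg]; push_cast; rw [mul_pow]; ring
    rw [e1, hFf]
  -- the right side
  have hrhs : ∀ T : ℕ, (Fam.aff (S.d ^ T) (muF S hf ω l B) (nuF S hf t B T R)).m L v =
      ∑ z ∈ range (f ^ L), (g : ℝ) ^ L * F (z : ℤ) *
        ∑ u ∈ S.chains t, if (S.tt u = T ∧ S.cc u B % (S.p : ℤ) ^ S.rho = R) then
        (if S.cc u B / (S.p : ℤ) ^ S.rho ≡ v - S.d ^ T * z [ZMOD (f : ℤ) ^ L] then S.pc u B else 0)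
        else 0 := by
    intro T
    show ∑ z ∈ range (f ^ L), (muF S hf ω l B).m L (z : ℤ) * (nuF S hf t B T R).m L (v - S.d ^ T * z) = _
    refine Finset.sum_congr rfl fun z _ => ?_
    rw [hmu l B (by omega)]
    congr 1
    have h1 : (nuF S hf t B T R).m L (v - S.d ^ T * z) =
      ∑ u ∈ (S.chains t).filter (fun u => S.tt u = T ∧ S.cc u B % (S.p : ℤ) ^ S.rho = R),
        (if S.cc u B / (S.p : ℤ) ^ S.rho ≡ v - S.d ^ T * z [ZMOD (f : ℤ) ^ L] then S.pc u B else 0) := by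
      unfold nuF Fam.law
      dsimp only
    rw [h1, Finset.sum_filter]
  simp only [hrhs]
  -- move the chains outside
  have hR1 : ∑ T ∈ range (K * t + 1), ∑ z ∈ range (f ^ L), (g : ℝ) ^ L * F (z : ℤ) *
        ∑ u ∈ S.chains t, (if (S.tt u = T ∧ S.cc u B % (S.p : ℤ) ^ S.rho = R) then
        (if S.cc u B / (S.p : ℤ) ^ S.rho ≡ v - S.d ^ T * z [ZMOD (f : ℤ) ^ L] then S.pc u B else 0)
        else 0) =
      ∑ u ∈ S.chains t, if S.cc u B % (S.p : ℤ) ^ S.rho = R then (g : ℝ) ^ L * S.pc u B *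
        ∑ z ∈ range (f ^ L), (if S.cc u B / (S.p : ℤ) ^ S.rho ≡ v - S.d ^ S.tt u * z [ZMOD ((f ^ L : ℕ) : ℤ)]
          then F z else 0) else 0 := by
    have h1 : ∀ T : ℕ, ∑ z ∈ range (f ^ L), (g : ℝ) ^ L * F (z : ℤ) *
        ∑ u ∈ S.chains t, (if (S.tt u = T ∧ S.cc u B % (S.p : ℤ) ^ S.rho = R) then
        (if S.cc u B / (S.p : ℤ) ^ S.rho ≡ v - S.d ^ T * z [ZMOD (f : ℤ) ^ L] then S.pc u B else 0)
        else 0) = ∑ u ∈ S.chains t, ∑ z ∈ range (f ^ L), (g : ℝ) ^ L * F (z : ℤ) *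
        (if (S.tt u = T ∧ S.cc u B % (S.p : ℤ) ^ S.rho = R) then
        (if S.cc u B / (S.p : ℤ) ^ S.rho ≡ v - S.d ^ T * z [ZMOD (f : ℤ) ^ L] then S.pc u B else 0)
        else 0) := by
      intro T
      simp only [Finset.mul_sum]
      rw [Finset.sum_comm]
    simp only [h1]
    rw [Finset.sum_comm]
    refine Finset.sum_congr rfl fun u hu => ?_
    have hlen : u.length = t := (S.mem_chains t u).1 hu
    rw [Finset.sum_eq_single (S.tt u)]
    · by_cases h4 : S.cc u B % (S.p : ℤ) ^ S.rho = R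
      · rw [if_pos h4, Finset.mul_sum]
        refine Finset.sum_congr rfl fun z _ => ?_
        rw [if_pos ⟨rfl, h4⟩]
        push_cast
        split_ifs <;> ring
      · rw [if_neg h4]
        refine Finset.sum_eq_zero fun z _ => ?_
        rw [if_neg fun h5 => h4 h5.2, mul_zero]
    · intro T _ hT'
      refine Finset.sum_eq_zero fun z _ => ?_
      rw [if_neg fun h5 => hT' h5.1.symm, mul_zero]
    · intro hT'
      exfalso
      apply hT'
      rw [mem_range]
      have := hK u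
      rw [hlen] at this
      omega
  rw [hR1]
  -- the left side
  have hL1 : (g : ℝ) ^ L * ∑ z ∈ range (S.p ^ L), ω.m (l + L) (((B + S.p ^ l * z : ℕ)) : ℤ) *
        ∑ u ∈ S.chains t, (if S.cc u (((B + S.p ^ l * z : ℕ)) : ℤ) ≡ R + (S.p : ℤ) ^ S.rho * v
          [ZMOD (S.p : ℤ) ^ (L + S.rho)] then S.pc u (((B + S.p ^ l * z : ℕ)) : ℤ) else 0) =
      ∑ u ∈ S.chains t, if S.cc u B % (S.p : ℤ) ^ S.rho = R then (g : ℝ) ^ L * S.pc u B *
        ∑ z ∈ range (S.p ^ L), (if S.cc u B / (S.p : ℤ) ^ S.rho ≡ v - S.d ^ S.tt u * z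
          [ZMOD ((S.p ^ L : ℕ) : ℤ)] then F z else 0) else 0 := by
    have h1 : ∀ z : ℕ, ω.m (l + L) (((B + S.p ^ l * z : ℕ)) : ℤ) *
        ∑ u ∈ S.chains t, (if S.cc u (((B + S.p ^ l * z : ℕ)) : ℤ) ≡ R + (S.p : ℤ) ^ S.rho * v
          [ZMOD (S.p : ℤ) ^ (L + S.rho)] then S.pc u (((B + S.p ^ l * z : ℕ)) : ℤ) else 0) =
        ∑ u ∈ S.chains t, F (z : ℤ) * (if S.cc u B % (S.p : ℤ) ^ S.rho = R then
          (if S.cc u B / (S.p : ℤ) ^ S.rho ≡ v - S.d ^ S.tt u * z [ZMOD ((S.p ^ L : ℕ) : ℤ)]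
            then S.pc u B else 0) else 0) := by
      intro z
      have hcast : ((B + S.p ^ l * z : ℕ) : ℤ) = (B : ℤ) + (S.p : ℤ) ^ l * z := by push_cast; ring
      rw [hcast, Finset.mul_sum]
      refine Finset.sum_congr rfl fun u hu => ?_
      have hlen : u.length = t := (S.mem_chains t u).1 hu
      show F z * _ = F z * _
      congr 1
      have hpc : S.pc u ((B : ℤ) + (S.p : ℤ) ^ l * z) = S.pc u B := by
        have := S.pc_per u B z
        rwa [hlen] at this
      rw [hpc]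
      by_cases h : S.pc u B = 0
      · simp [h]
      · have hcc : S.cc u ((B : ℤ) + (S.p : ℤ) ^ l * z) =
            S.cc u B + (S.p : ℤ) ^ S.rho * (S.d ^ S.tt u * z) := by
          have := S.cc_shift u B z S.rho h
          rwa [hlen] at this
        rw [hcc]
        have hpow : (S.p : ℤ) ^ (L + S.rho) = (S.p : ℤ) ^ L * (S.p : ℤ) ^ S.rho := pow_add _ _ _
        rw [hpow]
        have hiff := modEq_split_h43 ((S.p : ℤ) ^ S.rho) ((S.p : ℤ) ^ L) (S.cc u B) R v (S.d ^ S.tt u * z) hq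
          (by positivity) (by exact_mod_cast hR)
        push_cast
        by_cases h2 : S.cc u B + (S.p : ℤ) ^ S.rho * (S.d ^ S.tt u * z) ≡
            R + (S.p : ℤ) ^ S.rho * v [ZMOD (S.p : ℤ) ^ L * (S.p : ℤ) ^ S.rho]
        · have h3 := hiff.1 h2
          rw [if_pos h2, if_pos h3.1, if_pos h3.2]
        · rw [if_neg h2]
          by_cases h4 : S.cc u B % (S.p : ℤ) ^ S.rho = R
          · rw [if_pos h4, if_neg]
            intro h5
            exact h2 (hiff.2 ⟨h4, h5⟩)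
          · rw [if_neg h4]
    simp only [h1]
    rw [Finset.sum_comm, Finset.mul_sum]
    refine Finset.sum_congr rfl fun u _ => ?_
    by_cases h4 : S.cc u B % (S.p : ℤ) ^ S.rho = R
    · simp only [if_pos h4]
      rw [Finset.mul_sum, Finset.mul_sum]
      refine Finset.sum_congr rfl fun z _ => ?_
      split_ifs <;> ring
    · simp only [if_neg h4]
      simp
  refine Eq.trans hL1 ?_
  refine Finset.sum_congr rfl fun u _ => ?_
  by_cases h4 : S.cc u B % (S.p : ℤ) ^ S.rho = R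
  · rw [if_pos h4, if_pos h4]
    congr 1
    have hcop : IsCoprime (S.d ^ S.tt u) ((S.p : ℤ) ^ L) := IsCoprime.pow S.hd
    obtain ⟨a, b, hab⟩ := hcop
    have h5 : a * S.d ^ S.tt u ≡ 1 [ZMOD ((S.p ^ L : ℕ) : ℤ)] := by
      rw [Int.modEq_iff_dvd]
      refine ⟨b, ?_⟩
      push_cast
      linear_combination -hab
    have h6 : a * S.d ^ S.tt u ≡ 1 [ZMOD ((f ^ L : ℕ) : ℤ)] := by
      refine h5.of_dvd ?_
      exact_mod_cast pow_dvd_pow_of_dvd hf L
    rw [sum_lin_h43 (pow_pos hpp L) F hFp _ _ v a h5, sum_lin_h43 (pow_pos hf0 L) F hFf _ _ v a h6]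
  · rw [if_neg h4, if_neg h4]

theorem gain (S : Sys) {f g : ℕ} (hfg : S.p = f * g) (hc : Nat.Coprime f g) (hf : f ∣ S.p) (ω : Fam S.p) (hst : Stat S ω)
    (hT : OfType S f ω) (K : ℕ) (hK : ∀ u : List S.ι, S.tt u ≤ K * u.length) (t L : ℕ) :
    ∑ B ∈ range (S.p ^ (S.N * t + S.rho)), ∑ T ∈ range (K * t + 1), ∑ R ∈ range (S.p ^ S.rho),
      (Fam.aff (S.d ^ T) (muF S hf ω (S.N * t + S.rho) B) (nuF S hf t B T R)).H L + L * Real.log g ≤ ω.H (L + S.rho) := by
  have hadd : ω.H (L + S.rho) = ω.H S.rho + ∑ R ∈ range (S.p ^ S.rho), (ω.res S.rho R).H L := by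
    rw [add_comm L, H_add]
  have h0 : 0 ≤ ω.H S.rho := H_nonneg ω _
  have hproj : ∀ R ∈ range (S.p ^ S.rho), (ω.res S.rho (R : ℤ)).H L =
      (muF S hf ω S.rho (R : ℤ)).H L + ω.m S.rho (R : ℤ) * (L * Real.log g) := by
    intro R _
    rw [proj_H S.pp hf hfg hc (ω.res S.rho (R : ℤ)) (res_type S hfg ω hT S.rho (R : ℤ) le_rfl) L,
      Fam.res_mass]
    rfl
  have hmass : ∑ R ∈ range (S.p ^ S.rho), ω.m S.rho (R : ℤ) * (L * Real.log g) = L * Real.log g := by
    rw [← Finset.sum_mul, ω.sum_eq_mass]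
    have : ω.mass = 1 := hst.mass
    rw [this, one_mul]
  have hswap : ∑ B ∈ range (S.p ^ (S.N * t + S.rho)), ∑ T ∈ range (K * t + 1), ∑ R ∈ range (S.p ^ S.rho),
      (Fam.aff (S.d ^ T) (muF S hf ω (S.N * t + S.rho) B) (nuF S hf t B T R)).H L =
      ∑ R ∈ range (S.p ^ S.rho), ∑ q ∈ range (S.p ^ (S.N * t + S.rho)) ×ˢ range (K * t + 1),
      (Fam.aff (S.d ^ q.2) (muF S hf ω (S.N * t + S.rho) q.1) (nuF S hf t q.1 q.2 R)).H L := by
    rw [← Finset.sum_product' (range (S.p ^ (S.N * t + S.rho))) (range (K * t + 1))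
      (fun B T => ∑ R ∈ range (S.p ^ S.rho),
        (Fam.aff (S.d ^ T) (muF S hf ω (S.N * t + S.rho) B) (nuF S hf t B T R)).H L), Finset.sum_comm]
  rw [hswap, hadd, Finset.sum_congr rfl hproj, Finset.sum_add_distrib, hmass]
  have h1 : ∀ R ∈ range (S.p ^ S.rho),
      ∑ q ∈ range (S.p ^ (S.N * t + S.rho)) ×ˢ range (K * t + 1),
      (Fam.aff (S.d ^ q.2) (muF S hf ω (S.N * t + S.rho) q.1) (nuF S hf t q.1 q.2 R)).H L ≤
      (muF S hf ω S.rho (R : ℤ)).H L := by
    intro R hR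
    rw [mem_range] at hR
    have h2 := en_superadd (range (S.p ^ (S.N * t + S.rho)) ×ˢ range (K * t + 1)) (range (f ^ L))
      (fun q x => (Fam.aff (S.d ^ q.2) (muF S hf ω (S.N * t + S.rho) q.1) (nuF S hf t q.1 q.2 R)).m L (x : ℤ))
      (fun q _ x _ => Fam.nonneg _ _ _)
    refine h2.trans (le_of_eq ?_)
    unfold Fam.H
    congr 1
    funext x
    have h3 := gain_key_h43 S hfg hc hf ω hst hT K hK t L R hR (x : ℤ)
    rw [Finset.sum_product, ← h3]
  have h2 := Finset.sum_le_sum h1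
  linarith

end PoolAgent.Helper28.ED
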