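import Pool.Agent.Helper28.ED.Gain
import Pool.Agent.Helper28.ED.ConvSumP
import Pool.Agent.Helper28.ED.Chat

/-!
# ED-GT: no entropy gain, with the convolution inequality (adapt `EC/GainTotal.lean`)

`∑_B (muF ω l B).H L = ω.H (L + l) - ω.H l - L log g` by `H_add`, `proj_H`, `res_type` (mass 1); for `B` not alive `ω.m l B = 0`, so `(muF ω l B).mass = 0` and `H L = 0`; `DEV = 0` then too.
-/

set_option autoImplicit false

namespace PoolAgent.Helper28.ED

open PoolAgent.Helper28.EC hiding Sys Stat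
open Finset Real

theorem gain_totalP (S : Sys) (h2 : S.Two) {f g : ℕ} (hfg : S.p = f * g) (hc : Nat.Coprime f g) (hf : f ∣ S.p)
    (P f' : ℕ) (hPf : f = P * f') (hP : ∃ p v : ℕ, p.Prime ∧ 1 ≤ v ∧ P = p ^ v) (hPc : Nat.Coprime P f')
    (ω : Fam S.p) (hst : Stat S ω) (hT : OfType S f ω) (K : ℕ) (hK : ∀ u : List S.ι, S.tt u ≤ K * u.length)
    (t L w : ℕ) (hw : 1 ≤ w) (hL : w ≤ L) :
    ∑ i ∈ range (L - w + 1), ∑ B ∈ range (S.p ^ (S.N * t + S.rho)), ∑ T ∈ range (K * t + 1), ∑ R ∈ range (S.p ^ S.rho),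
      ncp P f' (nuF S hf t B T R) i * DEV P f' w (muF S hf ω (S.N * t + S.rho) B) i ≤
      4 * w * (f : ℝ) ^ (2 * w) * (ω.H (L + S.rho) + ω.H (S.N * t + S.rho) - ω.H (L + (S.N * t + S.rho))) := by
  have hC : (0 : ℝ) ≤ 4 * w * (f : ℝ) ^ (2 * w) := by positivity
  set C : ℝ := 4 * w * (f : ℝ) ^ (2 * w) with hCdef
  set l : ℕ := S.N * t + S.rho with hl
  have hrl : S.rho ≤ l := Nat.le_add_left _ _
  have hf' : 0 < f' := by
    rcases Nat.eq_zero_or_pos f' with h | h
    · exfalso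
      have h1 : 0 < f := Nat.pos_of_dvd_of_pos hf S.pp
      rw [hPf, h, mul_zero] at h1
      exact lt_irrefl _ h1
    · exact h
  have hDf : IsCoprime S.d (f : ℤ) :=
    IsCoprime.of_isCoprime_of_dvd_right S.hd (Int.natCast_dvd_natCast.2 hf)
  -- the chain rule
  have hch : ω.H (L + l) = ω.H l + ∑ B ∈ range (S.p ^ l), (muF S hf ω l B).H L + L * Real.log g := by
    rw [add_comm L, H_add]
    have h1 : ∀ B : ℕ, (ω.res l B).H L = (muF S hf ω l B).H L + ω.m l (B : ℤ) * (L * Real.log g) := by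
      intro B
      have h := proj_H S.pp hf hfg hc (ω.res l B) (res_type S hfg ω hT l B hrl) L
      rw [Fam.res_mass] at h
      exact h
    simp only [h1]
    rw [Finset.sum_add_distrib, ← Finset.sum_mul, ω.sum_eq_mass]
    have h2 : ω.mass = 1 := hst.mass
    rw [h2]
    ring
  -- the total mass
  have hmass : ∀ B : ℕ, ∑ T ∈ range (K * t + 1), ∑ R ∈ range (S.p ^ S.rho),
      (nuF S hf t B T R).mass * (muF S hf ω l B).H L = (muF S hf ω l B).H L := by
    intro B
    by_cases hB : S.alive (B : ℤ)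
    · simp only [← Finset.sum_mul]
      rw [nuF_mass S h2 hf K hK t B hB, one_mul]
    · have h0 : (muF S hf ω l B).H L = 0 := by
        apply le_antisymm _ (H_nonneg _ _)
        refine (H_le _ L).trans (le_of_eq ?_)
        unfold muF
        rw [proj_mass, Fam.res_mass, hst.supp _ _ hrl hB, zero_mul]
      rw [h0]
      simp
  -- the convolution inequality
  have hstep : ∀ B : ℕ, ∀ T : ℕ, ∀ R : ℕ,
      ∑ i ∈ range (L - w + 1), ncp P f' (nuF S hf t B T R) i * DEV P f' w (muF S hf ω l B) i ≤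
      C * ((Fam.aff (S.d ^ T) (muF S hf ω l B) (nuF S hf t B T R)).H L -
        (nuF S hf t B T R).mass * (muF S hf ω l B).H L) := by
    intro B T R
    exact conv_sumP P f' hPf hP hPc hf' (S.d ^ T) (hDf.pow_left) _ _ L w hw hL
  have hswap : ∑ i ∈ range (L - w + 1), ∑ B ∈ range (S.p ^ l), ∑ T ∈ range (K * t + 1),
      ∑ R ∈ range (S.p ^ S.rho), ncp P f' (nuF S hf t B T R) i * DEV P f' w (muF S hf ω l B) i =
      ∑ B ∈ range (S.p ^ l), ∑ T ∈ range (K * t + 1), ∑ R ∈ range (S.p ^ S.rho),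
        ∑ i ∈ range (L - w + 1), ncp P f' (nuF S hf t B T R) i * DEV P f' w (muF S hf ω l B) i := by
    rw [Finset.sum_comm]
    refine Finset.sum_congr rfl fun B _ => ?_
    rw [Finset.sum_comm]
    refine Finset.sum_congr rfl fun T _ => ?_
    rw [Finset.sum_comm]
  rw [hswap]
  calc ∑ B ∈ range (S.p ^ l), ∑ T ∈ range (K * t + 1), ∑ R ∈ range (S.p ^ S.rho),
        ∑ i ∈ range (L - w + 1), ncp P f' (nuF S hf t B T R) i * DEV P f' w (muF S hf ω l B) i
      ≤ ∑ B ∈ range (S.p ^ l), ∑ T ∈ range (K * t + 1), ∑ R ∈ range (S.p ^ S.rho),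
        C * ((Fam.aff (S.d ^ T) (muF S hf ω l B) (nuF S hf t B T R)).H L -
          (nuF S hf t B T R).mass * (muF S hf ω l B).H L) :=
        Finset.sum_le_sum fun B _ => Finset.sum_le_sum fun T _ => Finset.sum_le_sum fun R _ => hstep B T R
    _ = C * (∑ B ∈ range (S.p ^ l), ∑ T ∈ range (K * t + 1), ∑ R ∈ range (S.p ^ S.rho),
          (Fam.aff (S.d ^ T) (muF S hf ω l B) (nuF S hf t B T R)).H L -
          ∑ B ∈ range (S.p ^ l), (muF S hf ω l B).H L) := by
        simp only [← Finset.mul_sum, Finset.sum_sub_distrib]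
        congr 2
        exact Finset.sum_congr rfl fun B _ => hmass B
    _ ≤ C * (ω.H (L + S.rho) + ω.H l - ω.H (L + l)) := by
        refine mul_le_mul_of_nonneg_left ?_ hC
        have h := gain S hfg hc hf ω hst hT K hK t L
        rw [hch]
        linarith

end PoolAgent.Helper28.ED
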