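import Pool.Agent.Helper28.ED.MmMono

/-!
# ED-KMAX: the largest invariant minorant of a family

`F J x := ⨅_k ω_J(x + n_J k)`, `n_J = P^s Q^J`.  `κ_j(x) := ⨅_J ∑_{e<q^J} F (j+J) (x + q^j e)`; the sequence in `J` is nonincreasing (`inf_mono`) and `>= 0`, so it converges to its infimum (`tendsto_atTop_ciInf`), and
consistency passes to the limit (finite sums; shift of `J` by one).  `κ <= ω`: term `J = 0` and `k = 0`.  Mass: `∑_{e<q^J} F J e = mm ω n_J J >= c`.  Periodicity modulo `P^s Q^j`: for given `z` choose `z'` with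
`n_{j+J} z' = n_j z mod q^j` (as in `inf_mono`, `Q^J z' = z mod P^(j-s)`); `F (j+J)` is invariant under translation by `n_{j+J} z'`, and `x + n_j z + q^j e`, `e < q^J`, is a permutation of the classes
`x + n_{j+J} z' + q^j e` modulo `q^(j+J)` (`sum_range_shift`).  Maximality: for an invariant `κ' <= ω`: `κ'_{j+J}(y) = κ'_{j+J}(y + n_{j+J} k) <= ω_{j+J}(y + n_{j+J} k)` for `s <= j + J`, so `κ'_{j+J}(y) <= F (j+J) y`,
sum over the classes (`cons_iter`), limit.  Type: if all `ω_j` (`j >= r`) are periodic modulo `q^r f^(j-r)` then so are the `κ_j` (same argument as for the periodicity: `f^J z' = z mod g^(j-r)`).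
-/

set_option autoImplicit false

namespace PoolAgent.Helper28.ED

open PoolAgent.Helper28.EC hiding Sys Stat
open Finset Real

namespace KMax

/-- A congruence with a unit. -/
theorem nt (a b : ℕ) (h : Nat.Coprime b a) (n J : ℕ) (z : ℤ) : ∃ z' : ℤ, (a : ℤ) ^ n ∣ z - (b : ℤ) ^ J * z' := by
  have h1 : IsCoprime ((b : ℤ) ^ J) ((a : ℤ) ^ n) := IsCoprime.pow (Nat.isCoprime_iff_coprime.2 h)
  obtain ⟨u, v, huv⟩ := h1
  refine ⟨u * z, v * z, ?_⟩
  linear_combination (-z) * huv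

variable {q : ℕ} (P Q s : ℕ) (ω : Fam q)

/-- Largest minorant at one level. -/
noncomputable def F (J : ℕ) (x : ℤ) : ℝ := ⨅ k : ℤ, ω.m J (x + (P : ℤ) ^ s * (Q : ℤ) ^ J * k)

theorem F_bdd (J : ℕ) (x : ℤ) : BddBelow (Set.range fun k : ℤ => ω.m J (x + (P : ℤ) ^ s * (Q : ℤ) ^ J * k)) := by
  refine ⟨0, ?_⟩
  rintro _ ⟨k, rfl⟩
  exact ω.nonneg _ _

theorem F_le (J : ℕ) (x k : ℤ) : F P Q s ω J x ≤ ω.m J (x + (P : ℤ) ^ s * (Q : ℤ) ^ J * k) :=
  ciInf_le (F_bdd P Q s ω J x) k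

theorem F_nonneg (J : ℕ) (x : ℤ) : 0 ≤ F P Q s ω J x := Real.iInf_nonneg fun _ => ω.nonneg _ _

theorem F_per (J : ℕ) (x z : ℤ) : F P Q s ω J (x + (q : ℤ) ^ J * z) = F P Q s ω J x := by
  unfold F
  congr 1
  funext k
  have : x + (q : ℤ) ^ J * z + (P : ℤ) ^ s * (Q : ℤ) ^ J * k =
      x + (P : ℤ) ^ s * (Q : ℤ) ^ J * k + (q : ℤ) ^ J * z := by ring
  rw [this, ω.per]

theorem F_inv (J : ℕ) (x z : ℤ) : F P Q s ω J (x + (P : ℤ) ^ s * (Q : ℤ) ^ J * z) = F P Q s ω J x := by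
  unfold F
  refine Equiv.iInf_congr (Equiv.addLeft z) fun k => ?_
  congr 1
  simp only [Equiv.coe_addLeft]
  ring

/-- The sums. -/
noncomputable def G (J j : ℕ) (x : ℤ) : ℝ := ∑ e ∈ range (q ^ J), F P Q s ω (j + J) (x + (q : ℤ) ^ j * e)

theorem G_nonneg (J j : ℕ) (x : ℤ) : 0 ≤ G P Q s ω J j x := Finset.sum_nonneg fun _ _ => F_nonneg P Q s ω _ _

theorem G_per (J j : ℕ) (x z : ℤ) : G P Q s ω J j (x + (q : ℤ) ^ j * z) = G P Q s ω J j x := by
  unfold G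
  have h := sum_range_shift (q ^ J) (fun y : ℤ => F P Q s ω (j + J) (x + (q : ℤ) ^ j * y)) ?_ z
  · rw [← h]
    refine Finset.sum_congr rfl fun e _ => ?_
    congr 1
    ring
  · intro y z'
    have : x + (q : ℤ) ^ j * (y + ((q ^ J : ℕ) : ℤ) * z') =
        x + (q : ℤ) ^ j * y + (q : ℤ) ^ (j + J) * z' := by
      push_cast; ring
    simp only [this]
    exact F_per P Q s ω _ _ _

theorem G_shift (J j : ℕ) (x t t' : ℤ) (hd : (q : ℤ) ^ j ∣ t - t')
    (hinv : ∀ y : ℤ, F P Q s ω (j + J) (y + t') = F P Q s ω (j + J) y) :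
    G P Q s ω J j (x + t) = G P Q s ω J j x := by
  obtain ⟨y, hy⟩ := hd
  have e1 : x + t = (x + t') + (q : ℤ) ^ j * y := by linarith
  rw [e1, G_per]
  unfold G
  refine Finset.sum_congr rfl fun e _ => ?_
  rw [← hinv (x + (q : ℤ) ^ j * e)]
  congr 1
  ring

theorem G_cons (J j : ℕ) (x : ℤ) :
    G P Q s ω (J + 1) j x = ∑ e ∈ range q, G P Q s ω J (j + 1) (x + (q : ℤ) ^ j * e) := by
  unfold G
  rw [pow_succ', sum_range_mul]
  refine Finset.sum_congr rfl fun y _ => ?_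
  refine Finset.sum_congr rfl fun e _ => ?_
  have e1 : j + (J + 1) = j + 1 + J := by ring
  rw [e1]
  congr 1
  push_cast
  ring

variable {P Q} in
theorem G_anti (hPQ : q = P * Q) (hc : Nat.Coprime P Q) (hq : 0 < q) (j : ℕ) (x : ℤ) :
    Antitone fun J => G P Q s ω J j x := by
  apply antitone_nat_of_succ_le
  intro J
  unfold G
  rw [pow_succ, sum_range_mul]
  refine Finset.sum_le_sum fun y _ => ?_
  have h := inf_mono hPQ hc hq s ω (j + J) (x + (q : ℤ) ^ j * y)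
  refine le_trans (le_of_eq ?_) h
  refine Finset.sum_congr rfl fun e _ => ?_
  unfold F
  congr 1
  funext k
  have e1 : j + (J + 1) = j + J + 1 := by ring
  rw [e1]
  congr 1
  push_cast
  ring

theorem G_bdd (j : ℕ) (x : ℤ) : BddBelow (Set.range fun J => G P Q s ω J j x) := by
  refine ⟨0, ?_⟩
  rintro _ ⟨J, rfl⟩
  exact G_nonneg P Q s ω _ _ _

variable {P Q} in
/-- The largest invariant minorant. -/
noncomputable def kap (hPQ : q = P * Q) (hc : Nat.Coprime P Q) (hq : 0 < q) : Fam q where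
  m j x := ⨅ J, G P Q s ω J j x
  nonneg j x := Real.iInf_nonneg fun J => G_nonneg P Q s ω _ _ _
  per j x z := by
    congr 1
    funext J
    exact G_per P Q s ω J j x z
  cons j x := by
    have h1 : Filter.Tendsto (fun J => G P Q s ω (J + 1) j x) Filter.atTop (nhds (⨅ J, G P Q s ω J j x)) :=
      (tendsto_atTop_ciInf (G_anti s ω hPQ hc hq j x) (G_bdd P Q s ω j x)).comp (Filter.tendsto_add_atTop_nat 1)
    have h2 : Filter.Tendsto (fun J => ∑ e ∈ range q, G P Q s ω J (j + 1) (x + (q : ℤ) ^ j * e)) Filter.atTop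
        (nhds (∑ e ∈ range q, ⨅ J, G P Q s ω J (j + 1) (x + (q : ℤ) ^ j * e))) :=
      tendsto_finsetSum _ fun e _ =>
        tendsto_atTop_ciInf (G_anti s ω hPQ hc hq (j + 1) _) (G_bdd P Q s ω (j + 1) _)
    have h3 : (fun J => G P Q s ω (J + 1) j x) =
        fun J => ∑ e ∈ range q, G P Q s ω J (j + 1) (x + (q : ℤ) ^ j * e) := by
      funext J
      exact G_cons P Q s ω J j x
    rw [h3] at h1
    exact tendsto_nhds_unique h1 h2

variable {P Q} in
theorem kap_le_G (hPQ : q = P * Q) (hc : Nat.Coprime P Q) (hq : 0 < q) (J j : ℕ) (x : ℤ) :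
    (kap s ω hPQ hc hq).m j x ≤ G P Q s ω J j x := ciInf_le (G_bdd P Q s ω j x) J

end KMax

open KMax in
theorem kmax {q P Q : ℕ} (hPQ : q = P * Q) (hc : Nat.Coprime P Q) (hq : 0 < q) (s : ℕ) (ω : Fam q) (c : ℝ)
    (hcm : ∀ J : ℕ, c ≤ mm ω ((P : ℤ) ^ s * (Q : ℤ) ^ J) J) :
    ∃ κ : Fam q, (∀ j x, κ.m j x ≤ ω.m j x) ∧ c ≤ κ.mass ∧
      (∀ (j : ℕ) (x z : ℤ), κ.m j (x + (P : ℤ) ^ s * (Q : ℤ) ^ j * z) = κ.m j x) ∧
      (∀ κ' : Fam q, (∀ j x, κ'.m j x ≤ ω.m j x) →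
        (∀ (j : ℕ) (x z : ℤ), s ≤ j → κ'.m j (x + (P : ℤ) ^ s * (Q : ℤ) ^ j * z) = κ'.m j x) → ∀ j x, κ'.m j x ≤ κ.m j x) ∧
      (∀ r f g : ℕ, q = f * g → Nat.Coprime f g →
        (∀ (j : ℕ) (x z : ℤ), r ≤ j → ω.m j (x + (q : ℤ) ^ r * (f : ℤ) ^ (j - r) * z) = ω.m j x) →
        ∀ (j : ℕ) (x z : ℤ), r ≤ j → κ.m j (x + (q : ℤ) ^ r * (f : ℤ) ^ (j - r) * z) = κ.m j x) := by
  refine ⟨kap s ω hPQ hc hq, ?_, ?_, ?_, ?_, ?_⟩
  · intro j x
    refine le_trans (kap_le_G s ω hPQ hc hq 0 j x) ?_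
    unfold G
    have h := F_le P Q s ω j x 0
    simpa using h
  · show c ≤ ⨅ J, G P Q s ω J 0 0
    apply le_ciInf
    intro J
    have h := hcm J
    refine le_trans h (le_of_eq ?_)
    unfold mm G F
    refine Finset.sum_congr rfl fun e _ => ?_
    simp
  · intro j x z
    show (⨅ J, G P Q s ω J j (x + (P : ℤ) ^ s * (Q : ℤ) ^ j * z)) = ⨅ J, G P Q s ω J j x
    congr 1
    funext J
    rcases le_or_gt j s with hj | hj
    · refine G_shift P Q s ω J j x _ 0 ?_ (fun y => by rw [add_zero])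
      rw [sub_zero, hPQ]
      push_cast
      rw [mul_pow]
      exact Dvd.dvd.mul_right (mul_dvd_mul (pow_dvd_pow _ hj) (dvd_refl _)) _
    · obtain ⟨z', hz'⟩ := nt P Q hc.symm (j - s) J z
      refine G_shift P Q s ω J j x _ ((P : ℤ) ^ s * (Q : ℤ) ^ (j + J) * z') ?_ (fun y => F_inv P Q s ω _ _ _)
      obtain ⟨u, hu⟩ := hz'
      refine ⟨u, ?_⟩
      have e1 : (q : ℤ) ^ j = (P : ℤ) ^ s * (P : ℤ) ^ (j - s) * (Q : ℤ) ^ j := by
        rw [hPQ, ← pow_add]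
        push_cast
        rw [mul_pow]
        congr 2
        omega
      rw [e1, pow_add]
      linear_combination ((P : ℤ) ^ s * (Q : ℤ) ^ j) * hu
  · intro κ' hle hinv j x
    show κ'.m j x ≤ ⨅ J, G P Q s ω J j x
    apply le_ciInf
    intro J
    refine le_trans ?_ (G_anti s ω hPQ hc hq j x (Nat.le_add_right J s))
    show κ'.m j x ≤ G P Q s ω (J + s) j x
    rw [κ'.cons_iter j (J + s)]
    unfold G
    refine Finset.sum_le_sum fun e _ => ?_
    unfold F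
    apply le_ciInf
    intro k
    rw [← hinv (j + (J + s)) _ k (by omega)]
    exact hle _ _
  · intro r f g hfg hcfg hper j x z hj
    show (⨅ J, G P Q s ω J j (x + (q : ℤ) ^ r * (f : ℤ) ^ (j - r) * z)) = ⨅ J, G P Q s ω J j x
    congr 1
    funext J
    obtain ⟨z', hz'⟩ := nt g f hcfg (j - r) J z
    refine G_shift P Q s ω J j x _ ((q : ℤ) ^ r * (f : ℤ) ^ (j + J - r) * z') ?_ ?_
    · obtain ⟨u, hu⟩ := hz'
      refine ⟨u, ?_⟩
      have e1 : (q : ℤ) ^ j = (q : ℤ) ^ r * ((f : ℤ) ^ (j - r) * (g : ℤ) ^ (j - r)) := by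
        rw [← mul_pow]
        have e2 : (f : ℤ) * (g : ℤ) = q := by rw [hfg]; push_cast; ring
        rw [e2, ← pow_add]
        congr 1
        omega
      have e3 : j + J - r = (j - r) + J := by omega
      rw [e1, e3, pow_add]
      linear_combination ((q : ℤ) ^ r * (f : ℤ) ^ (j - r)) * hu
    · intro y
      unfold F
      congr 1
      funext k
      have e1 : y + (q : ℤ) ^ r * (f : ℤ) ^ (j + J - r) * z' + (P : ℤ) ^ s * (Q : ℤ) ^ (j + J) * k =
          y + (P : ℤ) ^ s * (Q : ℤ) ^ (j + J) * k + (q : ℤ) ^ r * (f : ℤ) ^ (j + J - r) * z' := by ring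
      rw [e1, hper _ _ _ (by omega)]

end PoolAgent.Helper28.ED
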