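import Pool.Agent.Helper28.ED.KMax
import Pool.Agent.Helper28.ED.Iter

/-!
# ED-KSTAT: the largest invariant minorant of a stationary family is stationary, of smaller type

`κ` from `kmax` with `s = rho`.  One step of the chain: the family `κ'` with `κ'_j(x) = ∑_{y<p^(j+N)} κ_{j+N}(y) ∑_w [child w y = x mod p^j] pr w y` for `j >= rho` (for `j < rho`: the sum of the masses of the classes modulo `p^rho`
below; it is convenient to write `κ'` as `x -> ∑_{e<p^(rho-j)} κ'_{max j rho}(x + p^j e)`).  `κ' <= ω` (`hst.inv`, `κ <= ω`, `pr >= 0`).  `κ'_j` is periodic modulo `P^rho Q^j` (`j >= rho`): `x -> x + n_j z` corresponds to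
`y -> y + p^N z'`, `d^tau z' = n_j z mod p^j` (`z'` a multiple of `n_j`), `p^N n_j = P^N n_{j+N}` is a multiple of `n_{j+N}`, `p^(N+rho) | p^N n_j` so `pr` does not change.  By maximality `κ' <= κ`.  The masses agree (`pr_sum` for
alive `y`; `κ <= ω` vanishes on the non-alive classes), so `κ' = κ` (`∑` of nonnegative differences is 0 at each level).  So `κ/mass` is stationary.  Type: `κ_j` is periodic modulo `p^rho f^(j-rho)` (last clause of `kmax`, `r = rho`) and
modulo `P^rho Q^j`; with `f = P f'`, `Q = f' g` the gcd of the two periods is `p^rho f'^(j-rho)` (`p^rho f^(j-rho) = P^j f'^j g^rho`, `P^rho Q^j = P^rho f'^j g^j`).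
-/

set_option autoImplicit false

namespace PoolAgent.Helper28.ED

open PoolAgent.Helper28.EC hiding Sys Stat
open Finset Real

namespace KStat

variable (S : Sys)

/-- The law of the child of `y`. -/
noncomputable def qf (y : ℤ) : Fam S.p :=
  Fam.law S.pp Finset.univ (fun w => S.pr w y) (fun w => S.pr_nonneg w y) (fun w => S.child w y)

theorem qf_m (y : ℤ) (j : ℕ) (x : ℤ) :
    (qf S y).m j x = ∑ w : S.ι, if S.child w y ≡ x [ZMOD (S.p : ℤ) ^ j] then S.pr w y else 0 := rfl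

theorem qf_mass (y : ℤ) : (qf S y).mass = ∑ w : S.ι, S.pr w y := by
  show (qf S y).m 0 0 = _
  rw [qf_m]
  refine Finset.sum_congr rfl fun w _ => ?_
  rw [if_pos]
  rw [pow_zero]
  exact Int.modEq_one

/-- The shift invariance of the child law. -/
theorem qf_per (j : ℕ) (hj : S.rho ≤ j) (y x z : ℤ) :
    (qf S (y + (S.p : ℤ) ^ (S.N + j) * z)).m j x = (qf S y).m j x := by
  rw [qf_m, qf_m]
  refine Finset.sum_congr rfl fun w _ => ?_
  have hpr : S.pr w (y + (S.p : ℤ) ^ (S.N + j) * z) = S.pr w y := by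
    have : (S.p : ℤ) ^ (S.N + j) * z = (S.p : ℤ) ^ (S.N + S.rho) * ((S.p : ℤ) ^ (j - S.rho) * z) := by
      rw [← mul_assoc, ← pow_add]
      congr 2
      omega
    rw [this, S.pr_per]
  rw [hpr]
  by_cases h0 : S.pr w y = 0
  · rw [h0]; simp
  · have hval := S.valid_of_pr w y h0
    rw [S.child_shift w y z j hval.1]
    have : (S.child w y + (S.p : ℤ) ^ j * (S.d ^ S.tau w * z) ≡ x [ZMOD (S.p : ℤ) ^ j]) ↔
        (S.child w y ≡ x [ZMOD (S.p : ℤ) ^ j]) := by
      have h : S.child w y + (S.p : ℤ) ^ j * (S.d ^ S.tau w * z) ≡ S.child w y [ZMOD (S.p : ℤ) ^ j] := by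
        rw [Int.modEq_iff_dvd]
        exact ⟨-(S.d ^ S.tau w * z), by ring⟩
      exact ⟨fun h' => h.symm.trans h', fun h' => h.trans h'⟩
    simp only [this]

variable (κ : Fam S.p)

/-- One step of the chain at one level. -/
noncomputable def K (j : ℕ) (x : ℤ) : ℝ :=
  ∑ y ∈ range (S.p ^ (j + S.N)), κ.m (j + S.N) (y : ℤ) * (qf S y).m j x

theorem K_nonneg (j : ℕ) (x : ℤ) : 0 ≤ K S κ j x :=
  Finset.sum_nonneg fun y _ => mul_nonneg (κ.nonneg _ _) ((qf S y).nonneg _ _)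

theorem K_per (j : ℕ) (x z : ℤ) : K S κ j (x + (S.p : ℤ) ^ j * z) = K S κ j x := by
  unfold K
  refine Finset.sum_congr rfl fun y _ => ?_
  rw [(qf S y).per]

theorem K_cons (j : ℕ) (hj : S.rho ≤ j) (x : ℤ) :
    K S κ j x = ∑ e ∈ range S.p, K S κ (j + 1) (x + (S.p : ℤ) ^ j * e) := by
  unfold K
  rw [Finset.sum_comm]
  have h1 : ∀ y : ℕ, ∑ e ∈ range S.p, κ.m (j + 1 + S.N) (y : ℤ) * (qf S y).m (j + 1) (x + (S.p : ℤ) ^ j * e) =
      κ.m (j + 1 + S.N) (y : ℤ) * (qf S y).m j x := by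
    intro y
    rw [← Finset.mul_sum, ← (qf S y).cons]
  simp only [h1]
  have e1 : j + 1 + S.N = j + S.N + 1 := by ring
  rw [e1, pow_succ, sum_range_mul]
  refine Finset.sum_congr rfl fun y _ => ?_
  rw [κ.cons, Finset.sum_mul]
  refine Finset.sum_congr rfl fun e _ => ?_
  have e2 : ((y + S.p ^ (j + S.N) * e : ℕ) : ℤ) = (y : ℤ) + (S.p : ℤ) ^ (S.N + j) * e := by
    push_cast; ring
  have e3 : (y : ℤ) + (S.p : ℤ) ^ (j + S.N) * e = (y : ℤ) + (S.p : ℤ) ^ (S.N + j) * e := by ring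
  rw [e2, qf_per S j hj, e3]

/-- One step of the chain. -/
noncomputable def stepF : Fam S.p where
  m j x := ∑ e ∈ range (S.p ^ (S.rho - j)), K S κ (max j S.rho) (x + (S.p : ℤ) ^ j * e)
  nonneg j x := Finset.sum_nonneg fun e _ => K_nonneg S κ _ _
  per j x z := by
    have h := sum_range_shift (S.p ^ (S.rho - j)) (fun y : ℤ => K S κ (max j S.rho) (x + (S.p : ℤ) ^ j * y)) ?_ z
    · rw [← h]
      refine Finset.sum_congr rfl fun e _ => ?_
      congr 1
      ring
    · intro y z'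
      have hm : j + (S.rho - j) = max j S.rho := by omega
      have : x + (S.p : ℤ) ^ j * (y + ((S.p ^ (S.rho - j) : ℕ) : ℤ) * z') =
          x + (S.p : ℤ) ^ j * y + (S.p : ℤ) ^ (max j S.rho) * z' := by
        rw [← hm]
        push_cast; ring
      simp only [this]
      exact K_per S κ _ _ _
  cons j x := by
    rcases le_or_gt S.rho j with hj | hj
    · have e1 : S.rho - j = 0 := by omega
      have e2 : S.rho - (j + 1) = 0 := by omega
      have e3 : max j S.rho = j := max_eq_left hj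
      have e4 : max (j + 1) S.rho = j + 1 := max_eq_left (by omega)
      simp only [e1, e2, e3, e4, pow_zero, range_one, sum_singleton, Nat.cast_zero, mul_zero, add_zero]
      exact K_cons S κ j hj x
    · have e1 : S.rho - j = (S.rho - (j + 1)) + 1 := by omega
      have e3 : max j S.rho = S.rho := max_eq_right (by omega)
      have e4 : max (j + 1) S.rho = S.rho := max_eq_right (by omega)
      rw [e1, e3, e4, pow_succ', sum_range_mul]
      refine Finset.sum_congr rfl fun y _ => ?_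
      refine Finset.sum_congr rfl fun e _ => ?_
      congr 1
      push_cast
      ring

theorem stepF_m (j : ℕ) (hj : S.rho ≤ j) (x : ℤ) : (stepF S κ).m j x = K S κ j x := by
  show ∑ e ∈ range (S.p ^ (S.rho - j)), K S κ (max j S.rho) (x + (S.p : ℤ) ^ j * e) = _
  have e1 : S.rho - j = 0 := by omega
  rw [e1, max_eq_left hj]
  simp

variable {κ}

theorem K_le {ω : Fam S.p} (hst : Stat S ω) (hle : ∀ j x, κ.m j x ≤ ω.m j x) (j : ℕ) (hj : S.rho ≤ j) (x : ℤ) :
    K S κ j x ≤ ω.m j x := by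
  rw [hst.inv j x hj]
  unfold K
  exact Finset.sum_le_sum fun y _ => mul_le_mul_of_nonneg_right (hle _ _) ((qf S y).nonneg _ _)

theorem stepF_le {ω : Fam S.p} (hst : Stat S ω) (hle : ∀ j x, κ.m j x ≤ ω.m j x) (j : ℕ) (x : ℤ) :
    (stepF S κ).m j x ≤ ω.m j x := by
  rw [(stepF S κ).cons_iter j S.rho, ω.cons_iter j S.rho]
  refine Finset.sum_le_sum fun e _ => ?_
  rw [stepF_m S κ _ (by omega)]
  exact K_le S hst hle _ (by omega) _

theorem K_inv {P Q : ℕ} (hPQ : S.p = P * Q)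
    (hper : ∀ (j : ℕ) (x z : ℤ), κ.m j (x + (P : ℤ) ^ S.rho * (Q : ℤ) ^ j * z) = κ.m j x)
    (j : ℕ) (hj : S.rho ≤ j) (x z : ℤ) :
    K S κ j (x + (P : ℤ) ^ S.rho * (Q : ℤ) ^ j * z) = K S κ j x := by
  unfold K
  simp only [qf_m, Finset.mul_sum]
  rw [Finset.sum_comm]
  conv_rhs => rw [Finset.sum_comm]
  refine Finset.sum_congr rfl fun w _ => ?_
  -- inverse of d^tau
  have hcop : IsCoprime (S.d ^ S.tau w) ((S.p : ℤ) ^ j) := IsCoprime.pow S.hd
  obtain ⟨u, v, huv⟩ := hcop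
  set n : ℤ := (P : ℤ) ^ S.rho * (Q : ℤ) ^ j with hn
  -- n is a multiple of p^rho
  have hnp : n = (S.p : ℤ) ^ S.rho * (Q : ℤ) ^ (j - S.rho) := by
    rw [hn, hPQ]
    push_cast
    rw [mul_pow, mul_assoc, ← pow_add]
    congr 2
    omega
  set z' : ℤ := u * n * z with hz'
  have hshift := sum_range_shift (S.p ^ (j + S.N))
    (fun y : ℤ => κ.m (j + S.N) y * if S.child w y ≡ x + n * z [ZMOD (S.p : ℤ) ^ j] then S.pr w y else 0) ?_
    ((S.p : ℤ) ^ S.N * z')
  · rw [← hshift]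
    refine Finset.sum_congr rfl fun y _ => ?_
    have h1 : κ.m (j + S.N) ((y : ℤ) + (S.p : ℤ) ^ S.N * z') = κ.m (j + S.N) y := by
      have : (S.p : ℤ) ^ S.N * z' = (P : ℤ) ^ S.rho * (Q : ℤ) ^ (j + S.N) * ((P : ℤ) ^ S.N * (u * z)) := by
        rw [hz', hn, hPQ]
        push_cast
        rw [mul_pow, pow_add]
        ring
      rw [this, hper]
    have h2 : S.pr w ((y : ℤ) + (S.p : ℤ) ^ S.N * z') = S.pr w y := by
      have : (S.p : ℤ) ^ S.N * z' = (S.p : ℤ) ^ (S.N + S.rho) * ((Q : ℤ) ^ (j - S.rho) * (u * z)) := by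
        rw [hz', hnp, pow_add]
        ring
      rw [this, S.pr_per]
    rw [h1, h2]
    congr 1
    by_cases h0 : S.pr w y = 0
    · rw [h0]; simp
    · have hval := S.valid_of_pr w y h0
      have hch := S.child_shift w y z' 0 hval.1
      rw [add_zero, pow_zero, one_mul] at hch
      rw [hch]
      have : (S.child w y + S.d ^ S.tau w * z' ≡ x + n * z [ZMOD (S.p : ℤ) ^ j]) ↔
          (S.child w y ≡ x [ZMOD (S.p : ℤ) ^ j]) := by
        have h : S.d ^ S.tau w * z' ≡ n * z [ZMOD (S.p : ℤ) ^ j] := by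
          rw [Int.modEq_iff_dvd]
          refine ⟨v * n * z, ?_⟩
          rw [hz']
          linear_combination (-(n * z)) * huv
        constructor
        · intro h'
          exact Int.ModEq.add_right_cancel h h'
        · intro h'
          exact h'.add h
      simp only [this]
  · intro y t
    have h1 : κ.m (j + S.N) (y + ((S.p ^ (j + S.N) : ℕ) : ℤ) * t) = κ.m (j + S.N) y := κ.per_nat _ _ _
    have h2 : y + ((S.p ^ (j + S.N) : ℕ) : ℤ) * t = y + (S.p : ℤ) ^ (S.N + j) * t := by push_cast; ring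
    have hpr : S.pr w (y + (S.p : ℤ) ^ (S.N + j) * t) = S.pr w y := by
      have : (S.p : ℤ) ^ (S.N + j) * t = (S.p : ℤ) ^ (S.N + S.rho) * ((S.p : ℤ) ^ (j - S.rho) * t) := by
        rw [← mul_assoc, ← pow_add]
        congr 2
        omega
      rw [this, S.pr_per]
    rw [h1, h2, hpr]
    congr 1
    by_cases h0 : S.pr w y = 0
    · rw [h0]; simp
    · have hval := S.valid_of_pr w y h0
      rw [S.child_shift w y t j hval.1]
      have : (S.child w y + (S.p : ℤ) ^ j * (S.d ^ S.tau w * t) ≡ x + n * z [ZMOD (S.p : ℤ) ^ j]) ↔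
          (S.child w y ≡ x + n * z [ZMOD (S.p : ℤ) ^ j]) := by
        have h : S.child w y + (S.p : ℤ) ^ j * (S.d ^ S.tau w * t) ≡ S.child w y [ZMOD (S.p : ℤ) ^ j] := by
          rw [Int.modEq_iff_dvd]
          exact ⟨-(S.d ^ S.tau w * t), by ring⟩
        exact ⟨fun h' => h.symm.trans h', fun h' => h.trans h'⟩
      simp only [this]

theorem step_mass (h2 : S.Two) {ω : Fam S.p} (hst : Stat S ω) (hle : ∀ j x, κ.m j x ≤ ω.m j x) :
    (stepF S κ).mass = κ.mass := by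
  rw [← (stepF S κ).sum_eq_mass S.rho, ← κ.sum_eq_mass (S.rho + S.N)]
  simp only [stepF_m S κ S.rho le_rfl]
  unfold K
  rw [Finset.sum_comm]
  refine Finset.sum_congr rfl fun y _ => ?_
  rw [← Finset.mul_sum, (qf S y).sum_eq_mass, qf_mass]
  by_cases ha : S.alive (y : ℤ)
  · rw [S.pr_sum h2 _ ha, mul_one]
  · have h3 : κ.m (S.rho + S.N) (y : ℤ) = 0 := by
      apply le_antisymm _ (κ.nonneg _ _)
      rw [← hst.supp (S.rho + S.N) y (by omega) ha]
      exact hle _ _
    rw [h3, zero_mul]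

/-- Reduction of an integer to the range. -/
theorem red {q : ℕ} (hq : 0 < q) (n : ℕ) (x : ℤ) :
    ∃ x0 ∈ range (q ^ n), ((x0 : ℕ) : ℤ) ≡ x [ZMOD (q : ℤ) ^ n] := by
  have hp' : (0 : ℤ) < q := by exact_mod_cast hq
  have hpn : (0 : ℤ) < (q : ℤ) ^ n := pow_pos hp' n
  refine ⟨(x % (q : ℤ) ^ n).toNat, ?_, ?_⟩
  · rw [mem_range]
    have h1 := Int.emod_lt_of_pos x hpn
    have h2 := Int.emod_nonneg x hpn.ne'
    have h3 : ((q ^ n : ℕ) : ℤ) = (q : ℤ) ^ n := by push_cast; ring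
    omega
  · rw [Int.toNat_of_nonneg (Int.emod_nonneg _ hpn.ne')]
    exact Int.mod_modEq _ _

/-- A family below another one with the same mass is equal to it. -/
theorem eq_of_le {q : ℕ} (hq : 0 < q) {μ ν : Fam q} (h : ∀ j x, μ.m j x ≤ ν.m j x) (hm : μ.mass = ν.mass)
    (j : ℕ) (x : ℤ) : μ.m j x = ν.m j x := by
  obtain ⟨x0, hx0, hx⟩ := red hq j x
  rw [← μ.congr_of_modEq j hx, ← ν.congr_of_modEq j hx]
  have h1 : ∑ y ∈ range (q ^ j), μ.m j (y : ℤ) = ∑ y ∈ range (q ^ j), ν.m j (y : ℤ) := by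
    rw [μ.sum_eq_mass, ν.sum_eq_mass, hm]
  exact (Finset.sum_eq_sum_iff_of_le (fun i (_ : i ∈ range (q ^ j)) => h j (i : ℤ))).1 h1 x0 hx0

/-- Division by a constant. -/
noncomputable def scale {q : ℕ} (μ : Fam q) (a : ℝ) (ha : 0 < a) : Fam q where
  m j x := μ.m j x / a
  nonneg j x := div_nonneg (μ.nonneg j x) ha.le
  per j x z := by rw [μ.per]
  cons j x := by rw [← Finset.sum_div, ← μ.cons]

end KStat

open KStat in
theorem kstat (S : Sys) (h2 : S.Two) {f g : ℕ} (hfg : S.p = f * g) (hc : Nat.Coprime f g)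
    (P f' : ℕ) (hPf : f = P * f') (hPc : Nat.Coprime P f')
    (ω : Fam S.p) (hst : Stat S ω) (hT : OfType S f ω) (c : ℝ) (hc0 : 0 < c)
    (hcm : ∀ J : ℕ, c ≤ mm ω ((P : ℤ) ^ S.rho * ((f' * g : ℕ) : ℤ) ^ J) J) :
    ∃ κ : Fam S.p, Stat S κ ∧ OfType S f' κ ∧ ∀ j x, c * κ.m j x ≤ ω.m j x := by
  have hPQ : S.p = P * (f' * g) := by rw [hfg, hPf]; ring
  have hPg : Nat.Coprime P g := Nat.Coprime.coprime_dvd_left ⟨f', hPf⟩ hc
  have hcPQ : Nat.Coprime P (f' * g) := Nat.Coprime.mul_right hPc hPg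
  obtain ⟨κ, hle, hmass, hper, hmax, htype⟩ := kmax hPQ hcPQ S.pp S.rho ω c hcm
  -- the step of κ is κ
  have hstep : ∀ j x, (stepF S κ).m j x ≤ κ.m j x := by
    apply hmax (stepF S κ) (stepF_le S hst hle)
    intro j x z hj
    rw [stepF_m S κ j hj, stepF_m S κ j hj]
    exact K_inv S hPQ hper j hj x z
  have heq := eq_of_le S.pp hstep (step_mass S h2 hst hle)
  have hm0 : 0 < κ.mass := lt_of_lt_of_le hc0 hmass
  refine ⟨scale κ κ.mass hm0, ⟨?_, ?_, ?_⟩, ?_, ?_⟩
  · show κ.m 0 0 / κ.mass = 1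
    exact div_self hm0.ne'
  · intro j x hj hx
    show κ.m j x / κ.mass = 0
    have h3 : κ.m j x = 0 := by
      apply le_antisymm _ (κ.nonneg _ _)
      rw [← hst.supp j x hj hx]
      exact hle _ _
    rw [h3, zero_div]
  · intro j x hj
    show κ.m j x / κ.mass = ∑ y ∈ range (S.p ^ (j + S.N)), (κ.m (j + S.N) (y : ℤ) / κ.mass) * (qf S y).m j x
    rw [← heq j x, stepF_m S κ j hj]
    unfold K
    rw [Finset.sum_div]
    refine Finset.sum_congr rfl fun y _ => ?_
    ring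
  · intro j x z hj
    show κ.m j (x + (S.p : ℤ) ^ S.rho * (f' : ℤ) ^ (j - S.rho) * z) / κ.mass = κ.m j x / κ.mass
    congr 1
    have hco : IsCoprime ((P : ℤ) ^ (j - S.rho)) ((g : ℤ) ^ (j - S.rho)) :=
      IsCoprime.pow (Nat.isCoprime_iff_coprime.2 hPg)
    obtain ⟨u, v, huv⟩ := hco
    have e1 : x + (S.p : ℤ) ^ S.rho * (f' : ℤ) ^ (j - S.rho) * z =
        (x + (S.p : ℤ) ^ S.rho * (f : ℤ) ^ (j - S.rho) * (u * z)) +
          (P : ℤ) ^ S.rho * ((f' * g : ℕ) : ℤ) ^ j * (v * z) := by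
      have e2 : (P : ℤ) ^ S.rho * ((f' * g : ℕ) : ℤ) ^ j =
          (S.p : ℤ) ^ S.rho * ((f' : ℤ) ^ (j - S.rho) * (g : ℤ) ^ (j - S.rho)) := by
        have e3 : j = S.rho + (j - S.rho) := by omega
        rw [hPQ]
        push_cast
        conv_lhs => rw [e3]
        rw [mul_pow, mul_pow, mul_pow, pow_add, pow_add]
        ring
      have e4 : (f : ℤ) ^ (j - S.rho) = (P : ℤ) ^ (j - S.rho) * (f' : ℤ) ^ (j - S.rho) := by
        rw [hPf]; push_cast; rw [mul_pow]
      rw [e2, e4]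
      linear_combination (-((S.p : ℤ) ^ S.rho * (f' : ℤ) ^ (j - S.rho) * z)) * huv
    rw [e1, hper, htype S.rho f g hfg hc (fun j x z hj => hT j x z hj) j x (u * z) hj]
  · intro j x
    show c * (κ.m j x / κ.mass) ≤ ω.m j x
    have h1 : c * (κ.m j x / κ.mass) ≤ κ.m j x := by
      rw [← mul_div_assoc, div_le_iff₀ hm0, mul_comm]
      exact mul_le_mul_of_nonneg_left hmass (κ.nonneg _ _)
    exact h1.trans (hle j x)

end PoolAgent.Helper28.ED
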