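import Pool.Agent.Helper28.ED.Types

/-!
# ED-NCS: a non-collision of a digit is a non-collision modulo one of the prime powers of `f`

For each `y < f^i`, `ν_i(y) nc = ∑_{e <> e'' in range f} ν_{i+1}(y + f^i e) ν_{i+1}(y + f^i e'')`, and two digits `e <> e'' < f` differ modulo `p^(f.factorization p)` for some prime `p | f`
(otherwise `f | e - e''`).  The pairs which differ modulo `P = p^(f.factorization p)` have total weight `ν_i(y)^2 - ∑_{e<P} (∑_{e'<f'} ν_{i+1}(y + f^i (e + P e')))^2`.
-/

/-!
(`f >= 1`.)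
-/

set_option autoImplicit false

namespace PoolAgent.Helper28.ED

open PoolAgent.Helper28.EC hiding Sys Stat
open Finset Real

private theorem pair_h11 (a : ℕ → ℝ) (P f' : ℕ) :
    (∑ e ∈ range (P * f'), a e) ^ 2 - ∑ c ∈ range P, (∑ e' ∈ range f', a (c + P * e')) ^ 2 =
      ∑ e ∈ range (P * f'), ∑ e'' ∈ range (P * f'), if e % P ≠ e'' % P then a e * a e'' else 0 := by
  have h1 : ∑ e ∈ range (P * f'), ∑ e'' ∈ range (P * f'), (if e % P = e'' % P then a e * a e'' else 0) =
      ∑ c ∈ range P, (∑ e' ∈ range f', a (c + P * e')) ^ 2 := by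
    rw [sum_range_mul]
    refine Finset.sum_congr rfl fun c hc => ?_
    rw [mem_range] at hc
    rw [sq, Finset.sum_mul]
    refine Finset.sum_congr rfl fun e' _ => ?_
    rw [sum_range_mul, Finset.sum_eq_single c]
    · rw [Finset.mul_sum]
      refine Finset.sum_congr rfl fun e2 _ => ?_
      rw [if_pos (by rw [Nat.add_mul_mod_self_left, Nat.add_mul_mod_self_left])]
    · intro c2 hc2 hne
      rw [mem_range] at hc2
      refine Finset.sum_eq_zero fun e2 _ => if_neg ?_
      rw [Nat.add_mul_mod_self_left, Nat.add_mul_mod_self_left, Nat.mod_eq_of_lt hc, Nat.mod_eq_of_lt hc2]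
      exact fun h => hne h.symm
    · intro h
      exact absurd (mem_range.2 hc) h
  rw [← h1, sq, Finset.sum_mul_sum, ← Finset.sum_sub_distrib]
  refine Finset.sum_congr rfl fun e _ => ?_
  rw [← Finset.sum_sub_distrib]
  refine Finset.sum_congr rfl fun e'' _ => ?_
  by_cases h : e % P = e'' % P
  · simp [h]
  · simp [h]

private theorem exists_prime_h11 {f e e'' : ℕ} (he : e < f) (he'' : e'' < f) (hne : e ≠ e'') :
    ∃ p ∈ f.primeFactors, e % p ^ f.factorization p ≠ e'' % p ^ f.factorization p := by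
  by_contra hcon
  push Not at hcon
  have hf : f ≠ 0 := by omega
  have h1 : (f : ℤ) ∣ (e'' : ℤ) - e := by
    have h2 : f = f.factorization.prod fun p k => p ^ k := (Nat.prod_factorization_pow_eq_self hf).symm
    have h3 : ((∏ p ∈ f.primeFactors, p ^ f.factorization p : ℕ) : ℤ) ∣ (e'' : ℤ) - e := by
      push_cast
      refine Finset.prod_dvd_of_coprime ?_ fun p hp => ?_
      · intro p hp q hq hpq
        have hp' := Nat.prime_of_mem_primeFactors (Finset.mem_coe.1 hp)
        have hq' := Nat.prime_of_mem_primeFactors (Finset.mem_coe.1 hq)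
        have : Nat.Coprime (p ^ f.factorization p) (q ^ f.factorization q) :=
          Nat.Coprime.pow _ _ ((Nat.coprime_primes hp' hq').2 hpq)
        have h4 := Nat.isCoprime_iff_coprime.2 this
        push_cast at h4
        exact h4
      · have h5 := hcon p hp
        have h6 := (Nat.modEq_iff_dvd.1 (show e ≡ e'' [MOD p ^ f.factorization p] from h5))
        push_cast at h6
        exact h6
    have h4 : f = ∏ p ∈ f.primeFactors, p ^ f.factorization p := by
      conv_lhs => rw [h2]
      rw [Finsupp.prod, Nat.support_factorization]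
    rw [← h4] at h3
    exact h3
  have h2 := Nat.modEq_iff_dvd.2 h1
  have h3 : e % f = e'' % f := h2
  rw [Nat.mod_eq_of_lt he, Nat.mod_eq_of_lt he''] at h3
  exact hne h3

theorem nc_le_sum {f : ℕ} (hf : 0 < f) (ν : Fam f) (i : ℕ) :
    ν.nc i ≤ ∑ p ∈ f.primeFactors, ncp (p ^ f.factorization p) (f / p ^ f.factorization p) ν i := by
  unfold ncp
  rw [Finset.sum_comm]
  unfold Fam.nc
  refine Finset.sum_le_sum fun y _ => ?_
  set a : ℕ → ℝ := fun e => ν.m (i + 1) ((y : ℤ) + (f : ℤ) ^ i * (e : ℤ)) with ha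
  set A := ν.m i (y : ℤ) with hA
  have ha0 : ∀ e, 0 ≤ a e := fun e => ν.nonneg _ _
  have hAs : A = ∑ e ∈ range f, a e := ν.cons i y
  have hA0 : 0 ≤ A := ν.nonneg _ _
  rcases hA0.eq_or_lt with h0 | hpos
  · rw [← h0]
    simp
  have key : A ^ 2 - ∑ e ∈ range f, a e ^ 2 ≤ ∑ p ∈ f.primeFactors, (A ^ 2 -
      ∑ e ∈ range (p ^ f.factorization p), (∑ e' ∈ range (f / p ^ f.factorization p),
        a (e + p ^ f.factorization p * e')) ^ 2) := by
    have hR : ∀ p ∈ f.primeFactors, A ^ 2 -
      ∑ e ∈ range (p ^ f.factorization p), (∑ e' ∈ range (f / p ^ f.factorization p),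
        a (e + p ^ f.factorization p * e')) ^ 2 = ∑ e ∈ range f, ∑ e'' ∈ range f,
          if e % p ^ f.factorization p ≠ e'' % p ^ f.factorization p then a e * a e'' else 0 := by
      intro p _
      have h1 : p ^ f.factorization p * (f / p ^ f.factorization p) = f := Nat.ordProj_mul_ordCompl_eq_self f p
      have h2 := pair_h11 a (p ^ f.factorization p) (f / p ^ f.factorization p)
      rw [h1] at h2
      rw [hAs]
      exact h2
    rw [Finset.sum_congr rfl hR, Finset.sum_comm]
    have hL : A ^ 2 - ∑ e ∈ range f, a e ^ 2 = ∑ e ∈ range f, ∑ e'' ∈ range f,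
        if e ≠ e'' then a e * a e'' else 0 := by
      rw [hAs, sq, Finset.sum_mul_sum, ← Finset.sum_sub_distrib]
      refine Finset.sum_congr rfl fun e he => ?_
      have h3 : ∑ e'' ∈ range f, (if e ≠ e'' then a e * a e'' else 0) =
          ∑ e'' ∈ range f, (a e * a e'' - if e = e'' then a e * a e'' else 0) := by
        refine Finset.sum_congr rfl fun e'' _ => ?_
        by_cases h : e = e''
        · simp [h]
        · simp [h]
      rw [h3, Finset.sum_sub_distrib, Finset.sum_ite_eq, if_pos he, sq]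
    rw [hL]
    refine Finset.sum_le_sum fun e he => ?_
    rw [Finset.sum_comm]
    refine Finset.sum_le_sum fun e'' he'' => ?_
    have hnn : ∀ p ∈ f.primeFactors, 0 ≤ (if e % p ^ f.factorization p ≠ e'' % p ^ f.factorization p then
        a e * a e'' else 0) := by
      intro p _
      split_ifs
      · exact mul_nonneg (ha0 _) (ha0 _)
      · exact le_rfl
    by_cases h : e = e''
    · rw [if_neg (by simpa using h)]
      exact Finset.sum_nonneg hnn
    · rw [if_pos h]
      obtain ⟨p, hp, hpne⟩ := exists_prime_h11 (mem_range.1 he) (mem_range.1 he'') h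
      have h4 := Finset.single_le_sum hnn hp
      rw [if_pos hpne] at h4
      exact h4
  have e1 : A - (∑ e ∈ range f, a e ^ 2) / A = (A ^ 2 - ∑ e ∈ range f, a e ^ 2) / A := by
    field_simp
  have e2 : ∀ p ∈ f.primeFactors, (A - (∑ e ∈ range (p ^ f.factorization p), (∑ e' ∈ range (f / p ^ f.factorization p),
      ν.m (i + 1) ((y : ℤ) + (f : ℤ) ^ i * ((e : ℤ) + ((p ^ f.factorization p : ℕ) : ℤ) * (e' : ℤ)))) ^ 2) / A) =
      (A ^ 2 - ∑ e ∈ range (p ^ f.factorization p), (∑ e' ∈ range (f / p ^ f.factorization p),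
        a (e + p ^ f.factorization p * e')) ^ 2) / A := by
    intro p _
    have h5 : ∀ e e' : ℕ, ν.m (i + 1) ((y : ℤ) + (f : ℤ) ^ i * ((e : ℤ) + ((p ^ f.factorization p : ℕ) : ℤ) * (e' : ℤ))) =
        a (e + p ^ f.factorization p * e') := by
      intro e e'
      simp only [ha]
      push_cast
      rfl
    simp only [h5]
    field_simp
  have e3 := Finset.sum_congr rfl e2
  change A - (∑ e ∈ range f, a e ^ 2) / A ≤ _
  refine le_of_le_of_eq ?_ e3.symm
  rw [e1, ← Finset.sum_div]
  exact div_le_div_of_nonneg_right key hpos.le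

end PoolAgent.Helper28.ED
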