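import Pool.Agent.Helper28.ED.Types
import Pool.Agent.Helper28.EC.En

/-!
# ED-PROJ: projection of a family which only sees the digits in `f`

`q = f g`, `f`, `g` coprime, `μ_j` periodic modulo `f^j`.  `proj_m`: in `range (q^j)` every class modulo `f^j` has `g^j` members and `μ_j` is constant on them.
`proj_H`: `∑_{x<q^j} φ(μ_j x) = g^j ∑_{x<f^j} φ(μ_j x)` and `φ(g^j u) = g^j φ(u) - u g^j j log g` (`Real.negMulLog_mul`), `∑_{x<f^j} g^j μ_j x = mass`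
(`sum_range_mul` with `q^j = f^j * g^j`: `∑_{x<q^j} F x = ∑_{y<f^j} ∑_{e<g^j} F (y + f^j e)`).
`res_type`: `(ω.res l y).m j (x + f^j z) = ω.m (l+j) (y + p^l x + p^l f^j z)` and `p^l f^j = p^rho f^(l+j-rho) g^(l-rho)`.
-/

set_option autoImplicit false

namespace PoolAgent.Helper28.ED

open PoolAgent.Helper28.EC hiding Sys Stat
open Finset Real

variable {q f g : ℕ}

theorem proj_mass (hq : 0 < q) (hf : f ∣ q) (μ : Fam q) : (proj hq hf μ).mass = μ.mass := by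
  show ∑ y ∈ range (q ^ 0), (if (y : ℤ) ≡ 0 [ZMOD (f : ℤ) ^ 0] then μ.m 0 (y : ℤ) else 0) = μ.m 0 0
  rw [pow_zero, Finset.sum_range_one]
  rw [if_pos]
  · rfl
  · rw [pow_zero]; exact Int.modEq_one

/-- Periodicity and the class modulo `f^j`. -/
theorem per_congr {f' : ℕ} (μ : Fam q) (h : ∀ (j : ℕ) (x z : ℤ), μ.m j (x + (f' : ℤ) ^ j * z) = μ.m j x) (j : ℕ) {x y : ℤ}
    (hxy : x ≡ y [ZMOD (f' : ℤ) ^ j]) : μ.m j x = μ.m j y := by
  obtain ⟨z, hz⟩ := hxy.dvd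
  have : y = x + (f' : ℤ) ^ j * z := by linarith
  rw [this, h]

theorem proj_m (hq : 0 < q) (hf : f ∣ q) (hfg : q = f * g) (_hc : Nat.Coprime f g) (μ : Fam q)
    (h : ∀ (j : ℕ) (x z : ℤ), μ.m j (x + (f : ℤ) ^ j * z) = μ.m j x) (j : ℕ) (x : ℤ) :
    (proj hq hf μ).m j x = (g : ℝ) ^ j * μ.m j x := by
  show ∑ y ∈ range (q ^ j), (if (y : ℤ) ≡ x [ZMOD (f : ℤ) ^ j] then μ.m j (y : ℤ) else 0) = _
  have hf0 : 0 < f := Nat.pos_of_dvd_of_pos hf hq
  have hfj : (0 : ℤ) < ((f ^ j : ℕ) : ℤ) := by exact_mod_cast pow_pos hf0 j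
  have e0 : q ^ j = f ^ j * g ^ j := by rw [hfg, mul_pow]
  rw [e0, sum_range_mul]
  have e1 : ∀ (y e : ℕ), (((y + f ^ j * e : ℕ) : ℤ) ≡ x [ZMOD (f : ℤ) ^ j]) ↔ ((y : ℤ) ≡ x [ZMOD (f : ℤ) ^ j]) := by
    intro y e
    have h1 : ((y + f ^ j * e : ℕ) : ℤ) ≡ (y : ℤ) [ZMOD (f : ℤ) ^ j] := by
      rw [Int.modEq_iff_dvd]
      refine ⟨-(e : ℤ), ?_⟩
      push_cast; ring
    exact ⟨fun h' => h1.symm.trans h', fun h' => h1.trans h'⟩
  have e2 : ∀ y ∈ range (f ^ j), (∑ e ∈ range (g ^ j),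
      if ((y + f ^ j * e : ℕ) : ℤ) ≡ x [ZMOD (f : ℤ) ^ j] then μ.m j ((y + f ^ j * e : ℕ) : ℤ) else 0) =
      if (y : ℤ) ≡ x [ZMOD (f : ℤ) ^ j] then (g : ℝ) ^ j * μ.m j x else 0 := by
    intro y _
    simp only [e1]
    by_cases hy : (y : ℤ) ≡ x [ZMOD (f : ℤ) ^ j]
    · simp only [if_pos hy]
      have e3 : ∀ e ∈ range (g ^ j), μ.m j ((y + f ^ j * e : ℕ) : ℤ) = μ.m j x := fun e _ =>
        per_congr μ h j ((e1 y e).2 hy)
      rw [Finset.sum_congr rfl e3, Finset.sum_const, Finset.card_range, nsmul_eq_mul, Nat.cast_pow]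
    · simp only [if_neg hy]
      simp
  rw [Finset.sum_congr rfl e2]
  have hx2 := Int.emod_nonneg x hfj.ne'
  have hx1 := Int.emod_lt_of_pos x hfj
  rw [Finset.sum_eq_single (x % ((f ^ j : ℕ) : ℤ)).toNat]
  · rw [if_pos]
    rw [Int.toNat_of_nonneg hx2, Nat.cast_pow]
    exact Int.mod_modEq _ _
  · intro y hy hne
    rw [if_neg]
    intro h'
    apply hne
    rw [mem_range] at hy
    have h1 : (y : ℤ) % ((f ^ j : ℕ) : ℤ) = x % ((f ^ j : ℕ) : ℤ) := by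
      rw [Nat.cast_pow]; exact h'
    have h2 : (y : ℤ) % ((f ^ j : ℕ) : ℤ) = y := Int.emod_eq_of_lt (by positivity) (by exact_mod_cast hy)
    omega
  · intro hne
    exfalso
    apply hne
    rw [mem_range]
    omega

theorem proj_H (hq : 0 < q) (hf : f ∣ q) (hfg : q = f * g) (hc : Nat.Coprime f g) (μ : Fam q)
    (h : ∀ (j : ℕ) (x z : ℤ), μ.m j (x + (f : ℤ) ^ j * z) = μ.m j x) (j : ℕ) :
    μ.H j = (proj hq hf μ).H j + μ.mass * (j * Real.log g) := by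
  have hg0 : 0 < g := by
    rcases Nat.eq_zero_or_pos g with h0 | h0
    · rw [h0, mul_zero] at hfg; omega
    · exact h0
  have hm := (proj hq hf μ).sum_eq_mass j
  rw [proj_mass] at hm
  unfold Fam.H En
  rw [hm, μ.sum_eq_mass j]
  have e0 : q ^ j = f ^ j * g ^ j := by rw [hfg, mul_pow]
  have e1 : ∑ x ∈ range (q ^ j), Real.negMulLog (μ.m j (x : ℤ)) =
      (g : ℝ) ^ j * ∑ x ∈ range (f ^ j), Real.negMulLog (μ.m j (x : ℤ)) := by
    rw [e0, sum_range_mul, Finset.mul_sum]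
    refine Finset.sum_congr rfl fun y _ => ?_
    have e3 : ∀ e ∈ range (g ^ j), Real.negMulLog (μ.m j ((y + f ^ j * e : ℕ) : ℤ)) = Real.negMulLog (μ.m j (y : ℤ)) := by
      intro e _
      congr 1
      push_cast
      exact h j _ _
    rw [Finset.sum_congr rfl e3, Finset.sum_const, Finset.card_range, nsmul_eq_mul, Nat.cast_pow]
  have e2 : ∑ x ∈ range (f ^ j), Real.negMulLog ((proj hq hf μ).m j (x : ℤ)) =
      (g : ℝ) ^ j * ∑ x ∈ range (f ^ j), Real.negMulLog (μ.m j (x : ℤ)) - μ.mass * (j * Real.log g) := by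
    have e4 : ∀ x ∈ range (f ^ j), Real.negMulLog ((proj hq hf μ).m j (x : ℤ)) =
        (g : ℝ) ^ j * Real.negMulLog (μ.m j (x : ℤ)) - (proj hq hf μ).m j (x : ℤ) * (j * Real.log g) := by
      intro x _
      rw [proj_m hq hf hfg hc μ h, Real.negMulLog_mul]
      have : Real.negMulLog ((g : ℝ) ^ j) = -((g : ℝ) ^ j * (j * Real.log g)) := by
        rw [Real.negMulLog, Real.log_pow]; ring
      rw [this]; ring
    rw [Finset.sum_congr rfl e4, Finset.sum_sub_distrib, ← Finset.mul_sum, ← Finset.sum_mul, hm]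
  rw [e1, e2]
  ring

theorem res_type (S : Sys) {f g : ℕ} (hfg : S.p = f * g) (ω : Fam S.p) (hT : OfType S f ω) (l : ℕ) (y : ℤ)
    (hl : S.rho ≤ l) (j : ℕ) (x z : ℤ) : (ω.res l y).m j (x + (f : ℤ) ^ j * z) = (ω.res l y).m j x := by
  show ω.m (l + j) (y + (S.p : ℤ) ^ l * (x + (f : ℤ) ^ j * z)) = ω.m (l + j) (y + (S.p : ℤ) ^ l * x)
  obtain ⟨k, rfl⟩ := Nat.exists_eq_add_of_le hl
  have h1 := hT (S.rho + k + j) (y + (S.p : ℤ) ^ (S.rho + k) * x) ((g : ℤ) ^ k * z) (by omega)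
  rw [← h1]
  congr 1
  have e1 : S.rho + k + j - S.rho = k + j := by omega
  have e2 : (S.p : ℤ) ^ (S.rho + k) = (S.p : ℤ) ^ S.rho * ((f : ℤ) ^ k * (g : ℤ) ^ k) := by
    rw [pow_add]
    congr 1
    rw [hfg]; push_cast; ring
  rw [e1, e2, pow_add]
  ring

theorem type_self (S : Sys) (ω : Fam S.p) : OfType S S.p ω := by
  intro j x z hj
  rw [← pow_add, Nat.add_sub_cancel' hj]
  exact ω.per j x z

end PoolAgent.Helper28.ED
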