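import Pool.Agent.Helper28.ED.Fek
import Pool.Agent.Helper28.ED.Kap
import Pool.Agent.Helper28.ED.NcSum
import Pool.Agent.Helper28.ED.Proj

/-!
# ED-KEY: nearly invariant windows with probability bounded below (adapt `EC/Key.lean`)

Fix `w`, `δ`; `ε = δ^2`.  `L = N (M p) t`.  By `kap` and `nc_le_sum`: `∑_{r | f prime} ∑_i A^r_i >= c1 t`, `A^r_i = ∑_B ω_B ∑_{T,R} ncp_r`, so for each large `t` some `r` has `∑_i A^r_i >= c1 t/k`, `k = card f.primeFactors`
(`k >= 1`).  `G^r_i = ∑_B ∑_{T,R} ncp_r DEV_i(B)`, `∑_i G^r_i = o(t)` (`gain_totalP`, `loss`).  `B` is good at `i` if `DEV_i(B) <= ε ω_B`: `P(good_i) >= A^r_i - G^r_i/ε`, so some `i` has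
`P(good_i) >= c1/(2 k N M p) =: 2 c2`.  `l = N t + rho + i`, classes `y = B + p^(Nt+rho) y'` modulo `p^l`; `DEV P f' w (muF ω (Nt+rho) B) i = ∑_{a<f^i} dev(window above a)`; the `y` modulo `p^l` above `B`
(`y' < p^i`) are distributed over the classes `a` modulo `f^i` (`p^i = f^i g^i` members ... `g^i` for each `a`), the window of `muF ω l y` is the window of `muF ω (Nt+rho) B` above `a = y' mod f^i`
divided by `g^i` (up to the translation of the digits: `(muF ω l (B + p^(Nt+rho) y'))_w(x) = g^w ω_{l+w}(B + p^(Nt+rho) (y' + p^i x))` and `ω_{l+w}(B + p^(Nt+rho) .)` is periodic modulo `f^(i+w)`;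
with `y' = a + f^i b`: `y' + p^i x = a + f^i (b + g^i x)`, and `dev` of `x -> u(b + g^i x)` equals `dev` of `u` since `g^i` is a unit modulo `f`, `dev` is homogeneous of degree 1).
So `∑_{y' < p^i} dev(window of muF ω l y) = DEV_i(B)`.  Markov as in `EC/Key.lean`; w.l.o.g. `δ <= c2`.
-/

set_option autoImplicit false

namespace PoolAgent.Helper28.ED

open PoolAgent.Helper28.EC hiding Sys Stat
open Finset Real

private theorem sum_unit_77 {M : Type*} [AddCommMonoid M] (n : ℕ) (g : ℤ → M) (hg : ∀ x z : ℤ, g (x + n * z) = g x)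
    (u u' : ℤ) (hu : u * u' ≡ 1 [ZMOD (n : ℤ)]) : ∑ x ∈ range n, g (u * x) = ∑ x ∈ range n, g x := by
  rcases Nat.eq_zero_or_pos n with rfl | hn
  · simp
  have hn' : (0 : ℤ) < n := by exact_mod_cast hn
  have key : ∀ y : ℤ, g y = g ((y % n).toNat : ℤ) := by
    intro y
    rw [Int.toNat_of_nonneg (Int.emod_nonneg _ hn'.ne')]
    conv_lhs => rw [← Int.emod_add_mul_ediv y n]
    exact hg _ _
  have inv : ∀ v v' : ℤ, v * v' ≡ 1 [ZMOD (n : ℤ)] → ∀ x ∈ range n,
      ((v' * (((v * (x : ℤ)) % n).toNat : ℤ)) % n).toNat = x := by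
    intro v v' hv x hx
    rw [mem_range] at hx
    rw [Int.toNat_of_nonneg (Int.emod_nonneg _ hn'.ne')]
    have h1 : v' * ((v * (x : ℤ)) % n) ≡ v' * (v * x) [ZMOD (n : ℤ)] := (Int.mod_modEq _ _).mul_left _
    have h2 : v' * (v * (x : ℤ)) ≡ x [ZMOD (n : ℤ)] := by
      have h3 := hv.mul_right (x : ℤ)
      rw [one_mul] at h3
      have h4 : v' * (v * (x : ℤ)) = v * v' * x := by ring
      rw [h4]
      exact h3
    have h5 : (v' * ((v * (x : ℤ)) % n)) % n = x % n := h1.trans h2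
    rw [h5, Int.emod_eq_of_lt (by positivity) (by exact_mod_cast hx)]
    rfl
  refine Finset.sum_nbij' (fun x => ((u * (x : ℤ)) % n).toNat) (fun x => ((u' * (x : ℤ)) % n).toNat)
    ?_ ?_ ?_ ?_ ?_
  · intro x _
    rw [mem_range]
    have h1 := Int.emod_lt_of_pos (u * (x : ℤ)) hn'
    have h2 := Int.emod_nonneg (u * (x : ℤ)) hn'.ne'
    omega
  · intro x _
    rw [mem_range]
    have h1 := Int.emod_lt_of_pos (u' * (x : ℤ)) hn'
    have h2 := Int.emod_nonneg (u' * (x : ℤ)) hn'.ne'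
    omega
  · intro x hx
    exact inv u u' hu x hx
  · intro x hx
    exact inv u' u (by rw [mul_comm]; exact hu) x hx
  · intro x _
    exact key _

private theorem sum_aff_77 {M : Type*} [AddCommMonoid M] (n : ℕ) (g : ℤ → M)
    (hg : ∀ x z : ℤ, g (x + n * z) = g x) (c b : ℤ) (hc : IsCoprime c (n : ℤ)) :
    ∑ x ∈ range n, g (b + c * x) = ∑ x ∈ range n, g x := by
  obtain ⟨u, v, huv⟩ := hc
  have h0 : c * u ≡ 1 [ZMOD (n : ℤ)] := by
    rw [Int.modEq_iff_dvd]
    exact ⟨v, by linarith⟩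
  have h1 := sum_unit_77 n (fun x => g (x + b)) (fun x z => by
    have : x + n * z + b = (x + b) + n * z := by ring
    simp only [this, hg]) c u h0
  have h2 : ∀ x : ℕ, b + c * (x : ℤ) = c * x + b := fun x => by ring
  simp only [h2]
  rw [h1]
  exact sum_range_shift n g hg b

private theorem av_aff_77 (P f' w : ℕ) (hw : 1 ≤ w) (v : ℤ → ℝ)
    (hv : ∀ x z : ℤ, v (x + ((P * f' : ℕ) : ℤ) ^ w * z) = v x) (c b : ℤ) (hc : IsCoprime c (P : ℤ))
    (x : ℤ) : av P f' w (fun x => v (b + c * x)) x = av P f' w v (b + c * x) := by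
  unfold av
  congr 1
  have h1 := sum_aff_77 (P ^ (w - 1)) (fun k : ℤ => v (b + c * x + P * (f' : ℤ) ^ w * k))
    (fun k z => by
      have e : b + c * x + (P : ℤ) * (f' : ℤ) ^ w * (k + ((P ^ (w - 1) : ℕ) : ℤ) * z) =
          (b + c * x + (P : ℤ) * (f' : ℤ) ^ w * k) + ((P * f' : ℕ) : ℤ) ^ w * z := by
        have e1 : (P : ℤ) ^ w = P * (P : ℤ) ^ (w - 1) := by
          rw [← pow_succ']
          congr 1
          omega
        push_cast
        rw [mul_pow, e1]
        ring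
      simp only [e, hv]) c 0 (by
        push_cast
        exact hc.pow_right)
  rw [← h1]
  refine Finset.sum_congr rfl fun k _ => ?_
  simp only
  congr 1
  ring

private theorem dev_aff_77 (P f' w : ℕ) (hw : 1 ≤ w) (v : ℤ → ℝ)
    (hv : ∀ x z : ℤ, v (x + ((P * f' : ℕ) : ℤ) ^ w * z) = v x) (c b : ℤ)
    (hc : IsCoprime c ((P * f' : ℕ) : ℤ)) :
    dev P f' w (fun x => v (b + c * x)) = dev P f' w v := by
  have hcP : IsCoprime c (P : ℤ) := by
    push_cast at hc
    exact hc.of_mul_right_left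
  unfold dev
  have h0 : IsCoprime c ((((P * f') ^ w : ℕ)) : ℤ) := by
    push_cast
    push_cast at hc
    exact hc.pow_right
  have hav : ∀ x z : ℤ, av P f' w v (x + (((P * f') ^ w : ℕ) : ℤ) * z) = av P f' w v x := by
    intro x z
    unfold av
    congr 1
    refine Finset.sum_congr rfl fun k _ => ?_
    have e : x + (((P * f') ^ w : ℕ) : ℤ) * z + (P : ℤ) * (f' : ℤ) ^ w * k =
        (x + (P : ℤ) * (f' : ℤ) ^ w * k) + ((P * f' : ℕ) : ℤ) ^ w * z := by
      push_cast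
      ring
    rw [e, hv]
  have hv' : ∀ x z : ℤ, v (x + (((P * f') ^ w : ℕ) : ℤ) * z) = v x := by
    intro x z
    rw [← hv x z]
    push_cast
    rfl
  have h1 := sum_aff_77 ((P * f') ^ w) (fun x => (v x - av P f' w v x) ^ 2)
    (fun x z => by simp only [hav, hv']) c b h0
  have h2 := sum_aff_77 ((P * f') ^ w) v hv' c b h0
  rw [← h1, ← h2]
  congr 1
  refine Finset.sum_congr rfl fun x _ => ?_
  rw [av_aff_77 P f' w hw v hv c b hcP]

private theorem dev_smul_77 (P f' w : ℕ) (v : ℤ → ℝ) (c : ℝ) :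
    dev P f' w (fun x => c * v x) = c * dev P f' w v := by
  unfold dev
  have h1 : ∀ x : ℤ, av P f' w (fun x => c * v x) x = c * av P f' w v x := by
    intro x
    unfold av
    rw [← Finset.mul_sum, mul_div_assoc]
  simp only [h1]
  rw [← Finset.mul_sum]
  have h2 : ∑ x ∈ range ((P * f') ^ w), (c * v (x : ℤ) - c * av P f' w v (x : ℤ)) ^ 2 =
      c ^ 2 * ∑ x ∈ range ((P * f') ^ w), (v (x : ℤ) - av P f' w v (x : ℤ)) ^ 2 := by
    rw [Finset.mul_sum]
    refine Finset.sum_congr rfl fun x _ => ?_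
    ring
  rw [h2]
  by_cases hc : c = 0
  · rw [hc]; simp
  · rw [sq, mul_assoc, mul_div_mul_left _ _ hc, mul_div_assoc]

private theorem dev_nonneg_77 (P f' w : ℕ) (v : ℤ → ℝ) (hv : ∀ x, 0 ≤ v x) :
    0 ≤ dev P f' w v := by
  unfold dev
  exact div_nonneg (Finset.sum_nonneg fun e _ => sq_nonneg _) (Finset.sum_nonneg fun e _ => hv _)

private theorem muF_m_77 (S : Sys) {f g : ℕ} (hfg : S.p = f * g) (hc : Nat.Coprime f g)
    (hf : f ∣ S.p) (ω : Fam S.p) (hT : OfType S f ω) (l : ℕ) (y : ℤ) (hl : S.rho ≤ l) (j : ℕ)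
    (x : ℤ) : (muF S hf ω l y).m j x = (g : ℝ) ^ j * ω.m (l + j) (y + (S.p : ℤ) ^ l * x) := by
  unfold muF
  rw [proj_m S.pp hf hfg hc (ω.res l y) (fun j x z => res_type S hfg ω hT l y hl j x z)]
  rfl

private theorem dev_sum_77 (S : Sys) {f g : ℕ} (hfg : S.p = f * g) (hc : Nat.Coprime f g)
    (hf : f ∣ S.p) (ω : Fam S.p) (hT : OfType S f ω) (P f' : ℕ) (hPf : f = P * f') (w : ℕ)
    (hw : 1 ≤ w) (n i : ℕ) (hn : S.rho ≤ n) (B : ℤ) :
    ∑ y ∈ range (S.p ^ i), dev P f' w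
        (fun x => (muF S hf ω (n + i) (B + (S.p : ℤ) ^ n * y)).m w x) =
      DEV P f' w (muF S hf ω n B) i := by
  have e0 : S.p ^ i = f ^ i * g ^ i := by rw [hfg, mul_pow]
  rw [e0, sum_range_mul]
  unfold DEV
  refine Finset.sum_congr rfl fun a _ => ?_
  set v : ℤ → ℝ := fun s => ω.m (n + (i + w)) (B + (S.p : ℤ) ^ n * (a + (f : ℤ) ^ i * s)) with hv
  have hvp : ∀ x z : ℤ, v (x + ((P * f' : ℕ) : ℤ) ^ w * z) = v x := by
    intro x z
    have h1 := res_type S hfg ω hT n B hn (i + w) (a + (f : ℤ) ^ i * x) z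
    have h2 : (a : ℤ) + (f : ℤ) ^ i * x + (f : ℤ) ^ (i + w) * z =
        a + (f : ℤ) ^ i * (x + ((P * f' : ℕ) : ℤ) ^ w * z) := by
      rw [← hPf, pow_add]; ring
    rw [h2] at h1
    exact h1
  have hcop : IsCoprime ((g : ℤ) ^ i) ((P * f' : ℕ) : ℤ) := by
    rw [← hPf]
    exact (Nat.isCoprime_iff_coprime.2 hc.symm).pow_left
  have h3 : ∀ b ∈ range (g ^ i), dev P f' w
      (fun x => (muF S hf ω (n + i) (B + (S.p : ℤ) ^ n * ((a + f ^ i * b : ℕ) : ℤ))).m w x) =
      (g : ℝ) ^ w * dev P f' w v := by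
    intro b _
    have h4 : (fun x : ℤ => (muF S hf ω (n + i)
        (B + (S.p : ℤ) ^ n * ((a + f ^ i * b : ℕ) : ℤ))).m w x) =
        fun x : ℤ => (g : ℝ) ^ w * v (b + (g : ℤ) ^ i * x) := by
      funext x
      rw [muF_m_77 S hfg hc hf ω hT (n + i) _ (by omega)]
      congr 1
      rw [hv]
      simp only
      have e1 : n + i + w = n + (i + w) := by ring
      have e2 : B + (S.p : ℤ) ^ n * ((a + f ^ i * b : ℕ) : ℤ) + (S.p : ℤ) ^ (n + i) * x =
          B + (S.p : ℤ) ^ n * (a + (f : ℤ) ^ i * (b + (g : ℤ) ^ i * x)) := by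
        have e3 : (S.p : ℤ) ^ i = (f : ℤ) ^ i * (g : ℤ) ^ i := by
          rw [← mul_pow]
          congr 1
          exact_mod_cast hfg
        rw [pow_add, e3]
        push_cast
        ring
      rw [e1, e2]
    rw [h4, dev_smul_77, dev_aff_77 P f' w hw v hvp _ _ hcop]
  rw [Finset.sum_congr rfl h3, Finset.sum_const, card_range, nsmul_eq_mul]
  have h5 : (fun x : ℤ => (muF S hf ω n B).m (i + w) ((a : ℤ) + (f : ℤ) ^ i * x)) =
      fun x : ℤ => (g : ℝ) ^ (i + w) * v x := by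
    funext x
    rw [muF_m_77 S hfg hc hf ω hT n _ hn]
  rw [h5, dev_smul_77]
  push_cast
  ring

open Classical in
theorem keyP (S : Sys) (h2 : S.Two) (hsep : S.Sep) (M : ℕ) (hM : 1 ≤ M) (hoff : S.OffBd M) {f g : ℕ} (hfg : S.p = f * g)
    (hc : Nat.Coprime f g) (hf : f ∣ S.p) (hf2 : 2 ≤ f) :
    ∃ c2 : ℝ, 0 < c2 ∧ ∀ ω : Fam S.p, Stat S ω → OfType S f ω → ∀ w : ℕ, 1 ≤ w → ∀ δ : ℝ, 0 < δ →
      ∃ r ∈ f.primeFactors, ∃ l : ℕ, S.rho ≤ l ∧
        c2 ≤ ∑ y ∈ range (S.p ^ l), if dev (r ^ f.factorization r) (f / r ^ f.factorization r) w (fun x => (muF S hf ω l (y : ℤ)).m w x) ≤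
          δ * ω.m l (y : ℤ) then ω.m l (y : ℤ) else 0 := by
  obtain ⟨K, -, hK⟩ := S.tt_le
  obtain ⟨c1, hc1, hkap⟩ := kap S h2 hsep M hM hoff hf hf2 K hK
  have hN : (0 : ℝ) < S.N := by exact_mod_cast S.hN
  have hM' : (0 : ℝ) < M := by exact_mod_cast hM
  have hp0 : (0 : ℝ) < S.p := by exact_mod_cast S.pp
  have hf0 : (0 : ℝ) < f := by exact_mod_cast (by omega : 0 < f)
  have hfne : f ≠ 0 := by omega
  have hPf : ∀ r : ℕ, f = r ^ f.factorization r * (f / r ^ f.factorization r) := fun r =>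
    (Nat.ordProj_mul_ordCompl_eq_self f r).symm
  have hkc : 0 < f.primeFactors.card := by
    rw [Finset.card_pos]
    exact Nat.nonempty_primeFactors.2 (by omega)
  have hkc' : (0 : ℝ) < f.primeFactors.card := by exact_mod_cast hkc
  obtain ⟨c2, hc2⟩ : ∃ c2 : ℝ, c2 = c1 / (4 * (f.primeFactors.card * (S.N * (M * S.p)))) :=
    ⟨_, rfl⟩
  have hc2pos : 0 < c2 := by rw [hc2]; positivity
  refine ⟨c2, hc2pos, ?_⟩
  intro ω hst hT w hw δ0 hδ0
  obtain ⟨δ, hδ⟩ : ∃ δ : ℝ, δ = min δ0 c2 := ⟨_, rfl⟩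
  have hδpos : 0 < δ := by rw [hδ]; exact lt_min hδ0 hc2pos
  have hδ1 : δ ≤ δ0 := by rw [hδ]; exact min_le_left _ _
  have hδ2 : δ ≤ c2 := by rw [hδ]; exact min_le_right _ _
  -- it is enough to treat the smaller `δ`
  suffices hmain : ∃ r ∈ f.primeFactors, ∃ l : ℕ, S.rho ≤ l ∧
      c2 ≤ ∑ y ∈ range (S.p ^ l), if dev (r ^ f.factorization r) (f / r ^ f.factorization r) w
        (fun x => (muF S hf ω l (y : ℤ)).m w x) ≤ δ * ω.m l (y : ℤ) then ω.m l (y : ℤ) else 0 by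
    obtain ⟨r, hr, l, hl, hsum⟩ := hmain
    refine ⟨r, hr, l, hl, hsum.trans ?_⟩
    refine Finset.sum_le_sum fun y _ => ?_
    split_ifs with h3 h4
    · exact le_rfl
    · exact absurd (h3.trans (mul_le_mul_of_nonneg_right hδ1 (ω.nonneg _ _))) h4
    · exact ω.nonneg _ _
    · exact le_rfl
  obtain ⟨ε, hε⟩ : ∃ ε : ℝ, ε = δ ^ 2 := ⟨_, rfl⟩
  have hεpos : 0 < ε := by rw [hε]; positivity
  have hwr : (0 : ℝ) < w := by exact_mod_cast hw
  obtain ⟨Q, hQ⟩ : ∃ Q : ℝ, Q = 4 * w * (f : ℝ) ^ (2 * w) := ⟨_, rfl⟩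
  have hQpos : 0 < Q := by rw [hQ]; positivity
  obtain ⟨kk, hkk⟩ : ∃ kk : ℝ, kk = (f.primeFactors.card : ℝ) := ⟨_, rfl⟩
  have hkkpos : 0 < kk := by rw [hkk]; exact hkc'
  obtain ⟨t0, ht0⟩ := hkap w
  -- choice of `t`
  have hMp : 1 ≤ M * S.p := Nat.mul_pos hM S.pp
  have hloss := loss S h2 ω hst (M * S.p) hMp
  have hev : ∀ᶠ t : ℕ in Filter.atTop, (ω.H (S.N * (M * S.p) * t + S.rho) +
      ω.H (S.N * t + S.rho) - ω.H (S.N * (M * S.p) * t + (S.N * t + S.rho))) / t <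
      c1 * ε / (4 * Q * kk) :=
    hloss.eventually_lt_const (by positivity)
  obtain ⟨t1, ht1⟩ := Filter.eventually_atTop.1 hev
  obtain ⟨t, htdef⟩ : ∃ t : ℕ, t = t0 + t1 + w + 1 := ⟨_, rfl⟩
  have htpos : (0 : ℝ) < t := by
    have : 0 < t := by omega
    exact_mod_cast this
  have hl1 := ht1 t (by omega)
  rw [div_lt_iff₀ htpos] at hl1
  have hk := ht0 ω hst t (by omega)
  obtain ⟨n, hn⟩ : ∃ n : ℕ, n = S.N * t + S.rho := ⟨_, rfl⟩
  obtain ⟨L, hL⟩ : ∃ L : ℕ, L = S.N * (M * S.p) * t := ⟨_, rfl⟩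
  have hLt : t ≤ L := by
    rw [hL]
    have : 1 ≤ S.N * (M * S.p) := Nat.mul_pos S.hN hMp
    nlinarith
  have hwL : w ≤ L := by omega
  have hg : ∀ r ∈ f.primeFactors, ∑ i ∈ range (L - w + 1), ∑ B ∈ range (S.p ^ n),
      ∑ T ∈ range (K * t + 1), ∑ R ∈ range (S.p ^ S.rho),
      ncp (r ^ f.factorization r) (f / r ^ f.factorization r) (nuF S hf t B T R) i *
        DEV (r ^ f.factorization r) (f / r ^ f.factorization r) w (muF S hf ω n B) i ≤
      Q * (ω.H (L + S.rho) + ω.H n - ω.H (L + n)) := by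
    intro r hr
    have hrp := Nat.prime_of_mem_primeFactors hr
    have hrd := Nat.dvd_of_mem_primeFactors hr
    have h3 := gain_totalP S h2 hfg hc hf (r ^ f.factorization r) (f / r ^ f.factorization r)
      (hPf r) ⟨r, f.factorization r, hrp, hrp.factorization_pos_of_dvd hfne hrd, rfl⟩
      (Nat.Coprime.pow_left _ (Nat.coprime_ordCompl hrp hfne)) ω hst hT K hK t L w hw hwL
    rw [← hn, ← hQ] at h3
    exact h3
  rw [← hn, ← hL] at hk hl1
  -- notation
  set SB : ℕ → ℕ → ℕ → ℝ := fun r i B => ∑ T ∈ range (K * t + 1), ∑ R ∈ range (S.p ^ S.rho),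
    ncp (r ^ f.factorization r) (f / r ^ f.factorization r) (nuF S hf t (B : ℤ) T R) i with hSB
  set D : ℕ → ℕ → ℕ → ℝ := fun r i B => DEV (r ^ f.factorization r) (f / r ^ f.factorization r) w
    (muF S hf ω n (B : ℤ)) i with hD
  set PG : ℕ → ℕ → ℝ := fun r i => ∑ B ∈ range (S.p ^ n), if D r i B ≤ ε * ω.m n (B : ℤ)
    then ω.m n (B : ℤ) else 0 with hPG
  have hSB0 : ∀ r i B, 0 ≤ SB r i B := fun r i B =>
    Finset.sum_nonneg fun T _ => Finset.sum_nonneg fun R _ => ncp_nonneg _ _ (hPf r) _ _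
  have hD0 : ∀ r i B, 0 ≤ D r i B := fun r i B => DEV_nonneg _ _ _ _ _
  have hSB1 : ∀ r i (B : ℕ), S.alive (B : ℤ) → SB r i B ≤ 1 := by
    intro r i B hB
    rw [← nuF_mass S h2 hf K hK t (B : ℤ) hB]
    exact Finset.sum_le_sum fun T _ => Finset.sum_le_sum fun R _ => ncp_le_mass _ _ _ _
  have hdead : ∀ (B : ℕ), ¬ S.alive (B : ℤ) → ω.m n (B : ℤ) = 0 := by
    intro B hB
    exact hst.supp n (B : ℤ) (by omega) hB
  have hg' : ∀ r ∈ f.primeFactors, ∑ i ∈ range (L - w + 1), ∑ B ∈ range (S.p ^ n),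
      SB r i B * D r i B ≤ Q * (ω.H (L + S.rho) + ω.H n - ω.H (L + n)) := by
    intro r hr
    refine le_trans (le_of_eq ?_) (hg r hr)
    refine Finset.sum_congr rfl fun i _ => Finset.sum_congr rfl fun B _ => ?_
    rw [hSB]
    simp only
    rw [Finset.sum_mul]
    exact Finset.sum_congr rfl fun T _ => by rw [Finset.sum_mul]
  have hA : ∀ r i, ∑ B ∈ range (S.p ^ n), ω.m n (B : ℤ) * SB r i B ≤
      PG r i + (∑ B ∈ range (S.p ^ n), SB r i B * D r i B) / ε := by
    intro r i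
    rw [hPG, Finset.sum_div]
    simp only
    rw [← Finset.sum_add_distrib]
    refine Finset.sum_le_sum fun B _ => ?_
    by_cases hgood : D r i B ≤ ε * ω.m n (B : ℤ)
    · rw [if_pos hgood]
      have h1 : ω.m n (B : ℤ) * SB r i B ≤ ω.m n (B : ℤ) := by
        by_cases hB : S.alive (B : ℤ)
        · exact mul_le_of_le_one_right (ω.nonneg _ _) (hSB1 r i B hB)
        · rw [hdead B hB, zero_mul]
      have h3 : 0 ≤ SB r i B * D r i B / ε :=
        div_nonneg (mul_nonneg (hSB0 r i B) (hD0 r i B)) hεpos.le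
      linarith
    · rw [if_neg hgood, zero_add]
      push Not at hgood
      have h1 : ω.m n (B : ℤ) ≤ D r i B / ε := by
        rw [le_div_iff₀ hεpos, mul_comm]
        exact hgood.le
      calc ω.m n (B : ℤ) * SB r i B ≤ D r i B / ε * SB r i B :=
            mul_le_mul_of_nonneg_right h1 (hSB0 r i B)
        _ = SB r i B * D r i B / ε := by ring
  -- from the digits modulo `f` to the digits modulo the prime powers
  have hk' : c1 * t ≤ ∑ r ∈ f.primeFactors, ∑ i ∈ range (L - w + 1),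
      ∑ B ∈ range (S.p ^ n), ω.m n (B : ℤ) * SB r i B := by
    refine hk.trans ?_
    have e1 : ∑ r ∈ f.primeFactors, ∑ i ∈ range (L - w + 1),
        ∑ B ∈ range (S.p ^ n), ω.m n (B : ℤ) * SB r i B =
        ∑ i ∈ range (L - w + 1), ∑ B ∈ range (S.p ^ n),
          ω.m n (B : ℤ) * ∑ r ∈ f.primeFactors, SB r i B := by
      rw [Finset.sum_comm]
      refine Finset.sum_congr rfl fun i _ => ?_
      rw [Finset.sum_comm]
      refine Finset.sum_congr rfl fun B _ => ?_
      rw [Finset.mul_sum]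
    rw [e1]
    refine Finset.sum_le_sum fun i _ => ?_
    refine Finset.sum_le_sum fun B _ => ?_
    refine mul_le_mul_of_nonneg_left ?_ (ω.nonneg _ _)
    have e2 : ∑ r ∈ f.primeFactors, SB r i B =
        ∑ T ∈ range (K * t + 1), ∑ R ∈ range (S.p ^ S.rho), ∑ r ∈ f.primeFactors,
          ncp (r ^ f.factorization r) (f / r ^ f.factorization r) (nuF S hf t (B : ℤ) T R) i := by
      rw [hSB]
      simp only
      rw [Finset.sum_comm]
      refine Finset.sum_congr rfl fun T _ => ?_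
      rw [Finset.sum_comm]
    rw [e2]
    refine Finset.sum_le_sum fun T _ => ?_
    refine Finset.sum_le_sum fun R _ => ?_
    exact nc_le_sum (by omega) _ _
  -- the total over `i`
  have hPGsum : c1 * t / 2 < ∑ r ∈ f.primeFactors, ∑ i ∈ range (L - w + 1), PG r i := by
    have h1 : c1 * t ≤ ∑ r ∈ f.primeFactors, ∑ i ∈ range (L - w + 1), PG r i +
        (∑ r ∈ f.primeFactors, ∑ i ∈ range (L - w + 1), ∑ B ∈ range (S.p ^ n),
          SB r i B * D r i B) / ε := by
      refine hk'.trans ?_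
      rw [Finset.sum_div, ← Finset.sum_add_distrib]
      refine Finset.sum_le_sum fun r _ => ?_
      rw [Finset.sum_div, ← Finset.sum_add_distrib]
      exact Finset.sum_le_sum fun i _ => hA r i
    have h3 : (∑ r ∈ f.primeFactors, ∑ i ∈ range (L - w + 1), ∑ B ∈ range (S.p ^ n),
        SB r i B * D r i B) / ε < c1 * t / 2 := by
      rw [div_lt_iff₀ hεpos]
      refine lt_of_le_of_lt (Finset.sum_le_sum hg') ?_
      rw [Finset.sum_const, nsmul_eq_mul, ← hkk]
      have h4 : kk * (Q * (ω.H (L + S.rho) + ω.H n - ω.H (L + n))) <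
          kk * (Q * (c1 * ε / (4 * Q * kk) * t)) :=
        mul_lt_mul_of_pos_left (mul_lt_mul_of_pos_left hl1 hQpos) hkkpos
      refine h4.trans_le ?_
      have h5 : kk * (Q * (c1 * ε / (4 * Q * kk) * t)) = c1 * ε * t / 4 := by
        field_simp
      rw [h5]
      have h6 : 0 < c1 * ε * t := by positivity
      nlinarith
    linarith
  obtain ⟨r, hr, i, hi, hPGi⟩ : ∃ r ∈ f.primeFactors, ∃ i ∈ range (L - w + 1), 2 * c2 ≤ PG r i := by
    by_contra hcon
    push Not at hcon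
    have h1 : ∑ r ∈ f.primeFactors, ∑ i ∈ range (L - w + 1), PG r i ≤
        ∑ r ∈ f.primeFactors, ∑ i ∈ range (L - w + 1), 2 * c2 := by
      refine Finset.sum_le_sum fun r hr => ?_
      refine Finset.sum_le_sum fun i hi => ?_
      exact (hcon r hr i hi).le
    rw [Finset.sum_const, Finset.sum_const, card_range, nsmul_eq_mul, nsmul_eq_mul] at h1
    have h3 : ((L - w + 1 : ℕ) : ℝ) ≤ S.N * (M * S.p) * t := by
      have : L - w + 1 ≤ L := by omega
      calc ((L - w + 1 : ℕ) : ℝ) ≤ (L : ℝ) := by exact_mod_cast this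
        _ = S.N * (M * S.p) * t := by rw [hL]; push_cast; ring
    have h4 : (f.primeFactors.card : ℝ) * (((L - w + 1 : ℕ) : ℝ) * (2 * c2)) ≤
        f.primeFactors.card * (S.N * (M * S.p) * t * (2 * c2)) :=
      mul_le_mul_of_nonneg_left (mul_le_mul_of_nonneg_right h3 (by positivity)) hkc'.le
    have h5 : (f.primeFactors.card : ℝ) * (S.N * (M * S.p) * t * (2 * c2)) = c1 * t / 2 := by
      rw [hc2]
      field_simp
      ring
    linarith
  -- the level
  refine ⟨r, hr, n + i, by omega, ?_⟩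
  have hmass : ∑ B ∈ range (S.p ^ n), ω.m n (B : ℤ) = 1 := by
    rw [ω.sum_eq_mass]
    exact hst.mass
  set DV : ℕ → ℝ := fun y => dev (r ^ f.factorization r) (f / r ^ f.factorization r) w
    (fun x => (muF S hf ω (n + i) (y : ℤ)).m w x) with hDV
  have hDV0 : ∀ y, 0 ≤ DV y := fun y => dev_nonneg_77 _ _ _ _ fun x => Fam.nonneg _ _ _
  have hstep : ∀ B : ℕ, (if D r i B ≤ ε * ω.m n (B : ℤ) then (1 - δ) * ω.m n (B : ℤ) else 0) ≤
      ∑ y ∈ range (S.p ^ i), (if DV (B + S.p ^ n * y) ≤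
        δ * ω.m (n + i) ((B + S.p ^ n * y : ℕ) : ℤ) then ω.m (n + i) ((B + S.p ^ n * y : ℕ) : ℤ)
          else 0) := by
    intro B
    split_ifs with hgood
    · have h1 : ∀ y ∈ range (S.p ^ i), ω.m (n + i) ((B + S.p ^ n * y : ℕ) : ℤ) -
          DV (B + S.p ^ n * y) / δ ≤
          (if DV (B + S.p ^ n * y) ≤
            δ * ω.m (n + i) ((B + S.p ^ n * y : ℕ) : ℤ) then
              ω.m (n + i) ((B + S.p ^ n * y : ℕ) : ℤ) else 0) := by
        intro y _
        have h0 : 0 ≤ DV (B + S.p ^ n * y) := hDV0 _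
        split_ifs with hy
        · have := div_nonneg h0 hδpos.le
          linarith
        · push Not at hy
          have : ω.m (n + i) ((B + S.p ^ n * y : ℕ) : ℤ) ≤ DV (B + S.p ^ n * y) / δ := by
            rw [le_div_iff₀ hδpos, mul_comm]
            exact hy.le
          linarith
      refine le_trans ?_ (Finset.sum_le_sum h1)
      rw [Finset.sum_sub_distrib, ← Finset.sum_div]
      have h3 : ∑ y ∈ range (S.p ^ i), ω.m (n + i) ((B + S.p ^ n * y : ℕ) : ℤ) =
          ω.m n (B : ℤ) := by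
        rw [ω.cons_iter n i (B : ℤ)]
        refine Finset.sum_congr rfl fun y _ => ?_
        push_cast
        rfl
      have h4 : ∑ y ∈ range (S.p ^ i), DV (B + S.p ^ n * y) = D r i B := by
        rw [hD]
        simp only
        rw [← dev_sum_77 S hfg hc hf ω hT _ _ (hPf r) w hw n i (by omega) (B : ℤ)]
        refine Finset.sum_congr rfl fun y _ => ?_
        rw [hDV]
        simp only
        push_cast
        rfl
      rw [h3, h4]
      have h5 : D r i B / δ ≤ δ * ω.m n (B : ℤ) := by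
        rw [div_le_iff₀ hδpos]
        calc D r i B ≤ ε * ω.m n (B : ℤ) := hgood
          _ = δ * ω.m n (B : ℤ) * δ := by rw [hε]; ring
      linarith
    · exact Finset.sum_nonneg fun y _ => by
        split_ifs
        · exact ω.nonneg _ _
        · exact le_rfl
  rw [pow_add, sum_range_mul]
  refine le_trans ?_ (Finset.sum_le_sum fun B _ => hstep B)
  have h6 : ∑ B ∈ range (S.p ^ n), (if D r i B ≤ ε * ω.m n (B : ℤ) then
      (1 - δ) * ω.m n (B : ℤ) else 0) = PG r i - δ * PG r i := by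
    rw [hPG]
    simp only
    rw [Finset.mul_sum, ← Finset.sum_sub_distrib]
    refine Finset.sum_congr rfl fun B _ => ?_
    split_ifs
    · ring
    · ring
  rw [h6]
  have h7 : PG r i ≤ 1 := by
    rw [← hmass, hPG]
    simp only
    refine Finset.sum_le_sum fun B _ => ?_
    split_ifs
    · exact le_rfl
    · exact ω.nonneg _ _
  have h8 : δ * PG r i ≤ δ * 1 := mul_le_mul_of_nonneg_left h7 hδpos.le
  linarith

end PoolAgent.Helper28.ED
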