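import Pool.Agent.Helper28.ED.Types
import Pool.Agent.Helper28.EC.En
import Pool.Agent.Helper66.EC.LocZ

/-!
# ED-LOCP: entropy gain of a convolution on `Z/f^w`, `f = P f'`, when the first digits differ modulo the prime power `P`

`P = p^v` is a prime power prime to `f'`, `n = f^w`, `V = ∑ ν`, `Q = ∑ u`.  Proof for `Q = V = 1` (general case by scaling, `en_smul`; `Q = 0` or `V = 0`: everything is 0):
* `φ(x) + x^2/2` is concave on `[0,1]` (`EC.concave_aux`), hence `En(u*ν) - En(u) >= (1/4) ∑_{c,c'} ν_c ν_c' ‖u - u^(c'-c)‖^2`, `u^(h)(x) = u(x-h)`, squared 2-norms over `range n`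
  (exactly as in `EC/Loc.lean` and `Helper66/EC/LocZ.lean`, which may be copied).
* If `c <> c' mod P` then `h = c' - c` is divisible by at most `p^(v-1)`, so the multiples of `h` modulo `n` contain every multiple of `P f'^w` modulo `n = P^w f'^w`
  (there is `k < n` with `k h = P f'^w k0 mod n`: solve modulo `f'^w` by `k = 0` and modulo `P^w` using that `h/p^s` is a unit, `p^s | P`; CRT).  So for every `g0 = P f'^w k0`:
  `‖u - u^(g0)‖ <= n ‖u - u^(h)‖`, and the average over `k0 < P^(w-1)` gives `‖u - av u‖ <= n ‖u - u^(h)‖`.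
* Therefore `En(u*ν) - En(u) >= (1/4) n^(-2) (1 - ∑_{e<P} ν(c = e mod P)^2) ‖u - av u‖^2`.
-/

set_option autoImplicit false

namespace PoolAgent.Helper28.ED

open PoolAgent.Helper28.EC hiding Sys Stat
open Finset Real

open PoolAgent.Helper66.LocZ

/-- the multiples of `h` contain the multiples of `P f'^w` -/
private lemma solve15 {P f' w : ℕ} (hP : ∃ p v : ℕ, p.Prime ∧ 1 ≤ v ∧ P = p ^ v) (hf' : 0 < f') {h : ℤ}
    (hh : ¬ (P : ℤ) ∣ h) (k0 : ℤ) :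
    ∃ k : ℕ, k < (P * f') ^ w ∧
      ((k : ℕ) : ZMod ((P * f') ^ w)) * (h : ZMod ((P * f') ^ w)) = ((P * (f' : ℤ) ^ w * k0 : ℤ) : ZMod ((P * f') ^ w)) := by
  obtain ⟨p, v, hp, hv, rfl⟩ := hP
  obtain ⟨n, hn⟩ : ∃ n : ℕ, n = (p ^ v * f') ^ w := ⟨_, rfl⟩
  have hn0 : 0 < n := by
    rw [hn]
    exact pow_pos (Nat.mul_pos (pow_pos hp.pos v) hf') w
  -- the gcd
  obtain ⟨g, hg⟩ : ∃ g : ℕ, g = Int.gcd h (((p ^ v) ^ w : ℕ) : ℤ) := ⟨_, rfl⟩
  have hg1 : g ∣ p ^ (v * w) := by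
    rw [hg, pow_mul]
    have := Int.gcd_dvd_right h (((p ^ v) ^ w : ℕ) : ℤ)
    exact_mod_cast this
  have hg2 : (g : ℤ) ∣ h := by
    rw [hg]
    exact Int.gcd_dvd_left h _
  obtain ⟨s, hs, hgs⟩ := (Nat.dvd_prime_pow hp).1 hg1
  have hsv : s ≤ v := by
    by_contra hcon
    rw [not_le] at hcon
    apply hh
    refine dvd_trans ?_ hg2
    rw [hgs]
    exact_mod_cast pow_dvd_pow p hcon.le
  have hgP : (g : ℤ) ∣ ((p ^ v : ℕ) : ℤ) := by
    rw [hgs]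
    exact_mod_cast pow_dvd_pow p hsv
  obtain ⟨r, hr⟩ := hgP
  have hbez := Int.gcd_eq_gcd_ab h (((p ^ v) ^ w : ℕ) : ℤ)
  rw [← hg] at hbez
  obtain ⟨X, hX⟩ : ∃ X, X = Int.gcdA h (((p ^ v) ^ w : ℕ) : ℤ) := ⟨_, rfl⟩
  obtain ⟨Y, hY⟩ : ∃ Y, Y = Int.gcdB h (((p ^ v) ^ w : ℕ) : ℤ) := ⟨_, rfl⟩
  rw [← hX, ← hY] at hbez
  obtain ⟨k1, hk1⟩ : ∃ k1 : ℤ, k1 = (f' : ℤ) ^ w * (X * r * k0) := ⟨_, rfl⟩
  have hk2 : k1 * h = ((p ^ v : ℕ) : ℤ) * (f' : ℤ) ^ w * k0 - ((n : ℕ) : ℤ) * (Y * r * k0) := by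
    have e1 : ((n : ℕ) : ℤ) = (((p ^ v) ^ w : ℕ) : ℤ) * (f' : ℤ) ^ w := by
      rw [hn, mul_pow]
      push_cast
      ring
    rw [e1, hr, hk1, hbez]
    ring
  rw [← hn]
  haveI : NeZero n := ⟨hn0.ne'⟩
  refine ⟨(k1 : ZMod n).val, ZMod.val_lt _, ?_⟩
  rw [ZMod.natCast_zmod_val, ← Int.cast_mul, hk2]
  push_cast
  rw [ZMod.natCast_self]
  ring

/-- The normalised statement. -/
private theorem locP_one (P f' w : ℕ) (hP : ∃ p v : ℕ, p.Prime ∧ 1 ≤ v ∧ P = p ^ v) (hf' : 0 < f') (hw : 1 ≤ w)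
    (u ν : ℤ → ℝ) (hu : ∀ x, 0 ≤ u x) (hν : ∀ x, 0 ≤ ν x)
    (hup : ∀ x z, u (x + ((P * f' : ℕ) : ℤ) ^ w * z) = u x) (hνp : ∀ x z, ν (x + ((P * f' : ℕ) : ℤ) ^ w * z) = ν x)
    (hu1 : ∑ x ∈ range ((P * f') ^ w), u (x : ℤ) = 1) (hν1 : ∑ c ∈ range ((P * f') ^ w), ν (c : ℤ) = 1) :
    En (range ((P * f') ^ w)) (fun x => u (x : ℤ)) +
      1 / (4 * ((P * f' : ℕ) : ℝ) ^ (2 * w)) *
        ((1 - ∑ e ∈ range P, (∑ c ∈ range (P ^ (w - 1) * f' ^ w), ν ((e : ℤ) + P * c)) ^ 2) *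
          ∑ x ∈ range ((P * f') ^ w), (u (x : ℤ) - av P f' w u (x : ℤ)) ^ 2) ≤
      En (range ((P * f') ^ w)) (fun x => ∑ c ∈ range ((P * f') ^ w), ν (c : ℤ) * u ((x : ℤ) - c)) := by
  have hP0 : 0 < P := by
    obtain ⟨p, v, hp, hv, rfl⟩ := hP
    exact pow_pos hp.pos v
  obtain ⟨n, hn⟩ : ∃ n : ℕ, n = (P * f') ^ w := ⟨_, rfl⟩
  have hpos : 0 < n := by rw [hn]; exact pow_pos (Nat.mul_pos hP0 hf') w
  have : NeZero n := ⟨hpos.ne'⟩
  have hn0 : (0 : ℝ) < n := by exact_mod_cast hpos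
  have hnz : ((P * f' : ℕ) : ℤ) ^ w = (n : ℤ) := by rw [hn]; push_cast; rfl
  rw [hnz] at hup hνp
  -- functions on `ZMod n`
  set Q : ZMod n → ℝ := fun z => u (z.val : ℤ) with hQ
  set N : ZMod n → ℝ := fun z => ν (z.val : ℤ) with hN
  have hcast : ∀ (f : ℤ → ℝ), (∀ x z, f (x + (n : ℤ) * z) = f x) → ∀ x : ℤ, f x = f (((x : ZMod n).val : ℕ) : ℤ) := by
    intro f hf x
    have h1 : (((((x : ZMod n).val : ℕ) : ℤ)) : ZMod n) = (x : ZMod n) := by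
      push_cast
      exact ZMod.natCast_zmod_val _
    have h2 := (ZMod.intCast_eq_intCast_iff_dvd_sub _ _ _).1 h1
    obtain ⟨z, hz⟩ := h2
    have h3 : x = (((x : ZMod n).val : ℕ) : ℤ) + (n : ℤ) * z := by linarith
    conv_lhs => rw [h3]
    rw [hf]
  have hqQ : ∀ x : ℤ, u x = Q (x : ZMod n) := fun x => hcast u hup x
  have hνN : ∀ x : ℤ, ν x = N (x : ZMod n) := fun x => hcast ν hνp x
  have hn2 : ((P * f' : ℕ) : ℝ) ^ (2 * w) = (n : ℝ) ^ 2 := by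
    rw [hn]
    push_cast
    rw [← pow_mul]
    congr 1
    ring
  rw [hn2]
  have hsol := @solve15 P f' w hP hf'
  rw [← hn] at hu1 hν1 ⊢
  have hqQ' : ∀ x : ℕ, u (x : ℤ) = Q (x : ZMod n) := fun x => by rw [hqQ]; push_cast; rfl
  have hνN' : ∀ x : ℕ, ν (x : ℤ) = N (x : ZMod n) := fun x => by rw [hνN]; push_cast; rfl
  have hQ1 : ∑ z, Q z = 1 := by
    rw [← hu1, ← sum_range_zmod Q]
    exact Finset.sum_congr rfl fun x _ => (hqQ' x).symm
  have hN1 : ∑ z, N z = 1 := by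
    rw [← hν1, ← sum_range_zmod N]
    exact Finset.sum_congr rfl fun x _ => (hνN' x).symm
  have hEq : En (range n) (fun x => u (x : ℤ)) = ∑ z, Real.negMulLog (Q z) := by
    unfold En
    rw [hu1, Real.negMulLog_one, sub_zero, ← sum_range_zmod (fun z => Real.negMulLog (Q z))]
    exact Finset.sum_congr rfl fun x _ => by show Real.negMulLog (u (x : ℤ)) = _; rw [hqQ']
  have hconv : ∀ x : ℕ, ∑ c ∈ range n, ν (c : ℤ) * u ((x : ℤ) - c) = ∑ c, N c * Q ((x : ZMod n) - c) := by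
    intro x
    rw [← sum_range_zmod (fun c => N c * Q ((x : ZMod n) - c))]
    refine Finset.sum_congr rfl fun c _ => ?_
    rw [hνN', hqQ]
    push_cast
    rfl
  have hEc : En (range n) (fun x => ∑ c ∈ range n, ν (c : ℤ) * u ((x : ℤ) - c)) =
      ∑ z, Real.negMulLog (∑ c, N c * Q (z - c)) := by
    unfold En
    simp only [hconv]
    rw [sum_range_zmod (fun z => Real.negMulLog (∑ c, N c * Q (z - c))), sum_range_zmod (fun z => ∑ c, N c * Q (z - c))]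
    have e1 : ∑ z, ∑ c, N c * Q (z - c) = 1 := by
      rw [Finset.sum_comm]
      have e2 : ∀ c, ∑ z, N c * Q (z - c) = N c := by
        intro c
        rw [← Finset.mul_sum, sum_shift Q c, hQ1, mul_one]
      simp only [e2]
      exact hN1
    rw [e1, Real.negMulLog_one, sub_zero]
  rw [hEq, hEc]
  have hgain := conv_gain Q N (fun z => hu _) (fun z => hν _) hQ1 hN1
  refine le_trans ?_ hgain
  -- the average
  obtain ⟨m, hm⟩ : ∃ m : ℕ, m = P ^ (w - 1) := ⟨_, rfl⟩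
  have hmpos : 0 < m := by rw [hm]; exact pow_pos hP0 _
  have hm0 : (0 : ℝ) < m := by exact_mod_cast hmpos
  set Av : ZMod n → ℝ := fun z => (∑ k ∈ range m, Q (z + ((P * (f' : ℤ) ^ w * k : ℤ) : ZMod n))) / m with hAv
  have hav : ∀ x : ℕ, av P f' w u (x : ℤ) = Av (x : ZMod n) := by
    intro x
    unfold av
    rw [hAv]
    simp only
    have e1 : (P : ℝ) ^ (w - 1) = (m : ℝ) := by rw [hm]; push_cast; rfl
    rw [e1, ← hm]
    congr 1
    refine Finset.sum_congr rfl fun k _ => ?_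
    rw [hqQ]
    push_cast
    rfl
  obtain ⟨U, hU⟩ : ∃ U : ℝ, U = ∑ x, (Q x - Av x) ^ 2 := ⟨_, rfl⟩
  have hU0 : 0 ≤ U := by rw [hU]; exact Finset.sum_nonneg fun _ _ => sq_nonneg _
  have hUsum : ∑ x ∈ range n, (u (x : ℤ) - av P f' w u (x : ℤ)) ^ 2 = U := by
    rw [hU, ← sum_range_zmod (fun z => (Q z - Av z) ^ 2)]
    refine Finset.sum_congr rfl fun x _ => ?_
    rw [hqQ', hav]
  rw [hUsum]
  -- the comparison for one translation
  have hone : ∀ h : ℤ, ¬ (P : ℤ) ∣ h → U ≤ (n : ℝ) ^ 2 * ∑ x, (Q x - Q (x - (h : ZMod n))) ^ 2 := by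
    intro h hh
    obtain ⟨D, hD⟩ : ∃ D, D = ∑ x, (Q x - Q (x - (h : ZMod n))) ^ 2 := ⟨_, rfl⟩
    have hD0 : 0 ≤ D := by rw [hD]; exact Finset.sum_nonneg fun _ _ => sq_nonneg _
    rw [← hD]
    have h1 : ∀ k : ℕ, ∑ x, (Q x - Q (x + ((P * (f' : ℤ) ^ w * k : ℤ) : ZMod n))) ^ 2 ≤ (n : ℝ) ^ 2 * D := by
      intro k
      obtain ⟨j, hj, hj2⟩ := hsol (h := h) hh (-(k : ℤ))
      rw [← hn] at hj hj2
      have h2 := shift_nsmul Q (h : ZMod n) j
      rw [← hD, hj2] at h2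
      have e1 : ∀ x : ZMod n, x - ((P * (f' : ℤ) ^ w * (-(k : ℤ)) : ℤ) : ZMod n) = x + ((P * (f' : ℤ) ^ w * k : ℤ) : ZMod n) := by
        intro x
        push_cast
        ring
      simp only [e1] at h2
      refine h2.trans (mul_le_mul_of_nonneg_right ?_ hD0)
      have : (j : ℝ) ≤ n := by exact_mod_cast hj.le
      exact pow_le_pow_left₀ (by positivity) this 2
    have h3 : ∀ x, (Q x - Av x) ^ 2 ≤ (1 / m) * ∑ k ∈ range m, (Q x - Q (x + ((P * (f' : ℤ) ^ w * k : ℤ) : ZMod n))) ^ 2 := by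
      intro x
      have e1 : Q x - Av x = ∑ k ∈ range m, (1 / (m : ℝ)) * (Q x - Q (x + ((P * (f' : ℤ) ^ w * k : ℤ) : ZMod n))) := by
        rw [← Finset.mul_sum, Finset.sum_sub_distrib, Finset.sum_const, Finset.card_range, nsmul_eq_mul, hAv]
        field_simp
      rw [e1]
      have h5 := Finset.sum_mul_sq_le_sq_mul_sq (range m) (fun _ => 1 / (m : ℝ))
        (fun k => Q x - Q (x + ((P * (f' : ℤ) ^ w * k : ℤ) : ZMod n)))
      refine h5.trans (le_of_eq ?_)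
      rw [Finset.sum_const, Finset.card_range, nsmul_eq_mul]
      field_simp
    rw [hU]
    refine (Finset.sum_le_sum fun x _ => h3 x).trans ?_
    rw [← Finset.mul_sum, Finset.sum_comm]
    have h6 : ∑ k ∈ range m, ∑ x, (Q x - Q (x + ((P * (f' : ℤ) ^ w * k : ℤ) : ZMod n))) ^ 2 ≤
        ∑ _k ∈ range m, (n : ℝ) ^ 2 * D := Finset.sum_le_sum fun k _ => h1 k
    rw [Finset.sum_const, Finset.card_range, nsmul_eq_mul] at h6
    calc _ ≤ 1 / (m : ℝ) * (m * ((n : ℝ) ^ 2 * D)) := mul_le_mul_of_nonneg_left h6 (by positivity)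
      _ = _ := by field_simp
  -- the sum over pairs
  obtain ⟨R, hR⟩ : ∃ R : ℕ, R = P ^ (w - 1) * f' ^ w := ⟨_, rfl⟩
  rw [← hR]
  set Aw : ℕ → ℝ := fun e => ∑ c ∈ range R, ν ((e : ℤ) + P * c) with hAw
  have hAw0 : ∀ e, 0 ≤ Aw e := fun e => Finset.sum_nonneg fun c _ => hν _
  have hnp : n = P * R := by
    rw [hn, hR, mul_pow]
    conv_lhs => rw [show w = (w - 1) + 1 by omega, pow_succ]
    rw [show w - 1 + 1 = w by omega]
    ring
  have hsumN : ∀ f : ZMod n → ℝ, ∑ c, f c = ∑ e ∈ range P, ∑ c ∈ range R, f ((e + P * c : ℕ) : ZMod n) := by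
    intro f
    rw [← sum_range_zmod f]
    have hr : range n = range (P * R) := by rw [← hnp]
    rw [hr, sum_range_mul]
  have hNe : ∀ e c : ℕ, N ((e + P * c : ℕ) : ZMod n) = ν ((e : ℤ) + P * c) := by
    intro e c
    rw [← hνN']
    push_cast
    rfl
  have hAsum : ∑ e ∈ range P, Aw e = 1 := by
    rw [← hN1, hsumN N]
    refine Finset.sum_congr rfl fun e _ => ?_
    rw [hAw]
    exact Finset.sum_congr rfl fun c _ => (hNe e c).symm
  have hpair : ∀ e ∈ range P, ∀ e' ∈ range P, e ≠ e' → ∀ c c' : ℕ,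
      U ≤ (n : ℝ) ^ 2 * ∑ x, (Q (x - ((e + P * c : ℕ) : ZMod n)) - Q (x - ((e' + P * c' : ℕ) : ZMod n))) ^ 2 := by
    intro e he e' he' hne c c'
    rw [Finset.mem_range] at he he'
    obtain ⟨h, hh⟩ : ∃ h : ℤ, h = ((e' : ℤ) + P * c') - (e + P * c) := ⟨_, rfl⟩
    have hnd : ¬ (P : ℤ) ∣ h := by
      intro hd
      have h1 : (P : ℤ) ∣ (e' : ℤ) - e := by
        have h2 : (e' : ℤ) - e = h + P * (c - c') := by rw [hh]; ring
        rw [h2]
        exact dvd_add hd (dvd_mul_right _ _)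
      have h3 := Int.eq_zero_of_abs_lt_dvd h1 (by
        rw [abs_lt]
        constructor <;> omega)
      omega
    have h2 := hone h hnd
    refine h2.trans (le_of_eq ?_)
    congr 1
    rw [← sum_shift (fun x => (Q x - Q (x - (h : ZMod n))) ^ 2) ((e + P * c : ℕ) : ZMod n)]
    refine Finset.sum_congr rfl fun x _ => ?_
    have h4 : x - ((e + P * c : ℕ) : ZMod n) - (h : ZMod n) = x - ((e' + P * c' : ℕ) : ZMod n) := by
      rw [hh]
      push_cast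
      ring
    rw [h4]
  have hmain : (1 - ∑ e ∈ range P, Aw e ^ 2) * (U / (n : ℝ) ^ 2) ≤
      ∑ c, ∑ c', N c * N c' * ∑ x, (Q (x - c) - Q (x - c')) ^ 2 := by
    have e1 : ∑ c, ∑ c', N c * N c' * ∑ x, (Q (x - c) - Q (x - c')) ^ 2 =
        ∑ e ∈ range P, ∑ e' ∈ range P, ∑ c ∈ range R, ∑ c' ∈ range R,
          N ((e + P * c : ℕ) : ZMod n) * N ((e' + P * c' : ℕ) : ZMod n) *
            ∑ x, (Q (x - ((e + P * c : ℕ) : ZMod n)) - Q (x - ((e' + P * c' : ℕ) : ZMod n))) ^ 2 := by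
      rw [hsumN]
      refine Finset.sum_congr rfl fun e _ => ?_
      symm
      rw [Finset.sum_comm]
      refine Finset.sum_congr rfl fun c _ => ?_
      rw [hsumN]
    rw [e1]
    have e2 : (1 - ∑ e ∈ range P, Aw e ^ 2) * (U / (n : ℝ) ^ 2) =
        ∑ e ∈ range P, ∑ e' ∈ range P, (if e = e' then 0 else Aw e * Aw e' * (U / (n : ℝ) ^ 2)) := by
      have e3 : ∀ e ∈ range P, ∑ e' ∈ range P, (if e = e' then 0 else Aw e * Aw e' * (U / (n : ℝ) ^ 2)) =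
          Aw e * (U / (n : ℝ) ^ 2) - Aw e ^ 2 * (U / (n : ℝ) ^ 2) := by
        intro e he
        have e4 : ∀ e' ∈ range P, (if e = e' then 0 else Aw e * Aw e' * (U / (n : ℝ) ^ 2)) =
            Aw e * Aw e' * (U / (n : ℝ) ^ 2) - (if e = e' then Aw e * Aw e' * (U / (n : ℝ) ^ 2) else 0) := by
          intro e' _
          split_ifs <;> ring
        rw [Finset.sum_congr rfl e4, Finset.sum_sub_distrib, Finset.sum_ite_eq, if_pos he, ← Finset.sum_mul,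
          ← Finset.mul_sum, hAsum]
        ring
      rw [Finset.sum_congr rfl e3, Finset.sum_sub_distrib, ← Finset.sum_mul, hAsum, ← Finset.sum_mul]
      ring
    rw [e2]
    refine Finset.sum_le_sum fun e he => Finset.sum_le_sum fun e' he' => ?_
    have hnn : ∀ c c' : ℕ, 0 ≤ N ((e + P * c : ℕ) : ZMod n) * N ((e' + P * c' : ℕ) : ZMod n) *
        ∑ x, (Q (x - ((e + P * c : ℕ) : ZMod n)) - Q (x - ((e' + P * c' : ℕ) : ZMod n))) ^ 2 := by
      intro c c'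
      refine mul_nonneg (mul_nonneg (hν _) (hν _)) (Finset.sum_nonneg fun _ _ => sq_nonneg _)
    split_ifs with hee
    · exact Finset.sum_nonneg fun c _ => Finset.sum_nonneg fun c' _ => hnn c c'
    · have e5 : Aw e * Aw e' * (U / (n : ℝ) ^ 2) = ∑ c ∈ range R, ∑ c' ∈ range R,
          N ((e + P * c : ℕ) : ZMod n) * N ((e' + P * c' : ℕ) : ZMod n) * (U / (n : ℝ) ^ 2) := by
        simp only [hNe]
        simp only [← Finset.sum_mul]
        rw [← Finset.sum_mul_sum]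
      rw [e5]
      refine Finset.sum_le_sum fun c _ => Finset.sum_le_sum fun c' _ => ?_
      refine mul_le_mul_of_nonneg_left ?_ (mul_nonneg (hν _) (hν _))
      rw [div_le_iff₀ (by positivity), mul_comm]
      exact hpair e he e' he' hee c c'
  have hm4 := mul_le_mul_of_nonneg_left hmain (show (0 : ℝ) ≤ 1 / 4 by norm_num)
  have hfin : 1 / (4 * (n : ℝ) ^ 2) * ((1 - ∑ e ∈ range P, Aw e ^ 2) * U) =
      1 / 4 * ((1 - ∑ e ∈ range P, Aw e ^ 2) * (U / (n : ℝ) ^ 2)) := by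
    field_simp
  have hAwe : ∑ e ∈ range P, (∑ c ∈ range R, ν ((e : ℤ) + P * c)) ^ 2 = ∑ e ∈ range P, Aw e ^ 2 := rfl
  rw [hAwe, hfin]
  linarith

theorem locP (P f' w : ℕ) (hP : ∃ p v : ℕ, p.Prime ∧ 1 ≤ v ∧ P = p ^ v) (hc : Nat.Coprime P f') (hf' : 0 < f') (hw : 1 ≤ w)
    (u ν : ℤ → ℝ) (hu : ∀ x, 0 ≤ u x) (hν : ∀ x, 0 ≤ ν x)
    (hup : ∀ x z, u (x + ((P * f' : ℕ) : ℤ) ^ w * z) = u x) (hνp : ∀ x z, ν (x + ((P * f' : ℕ) : ℤ) ^ w * z) = ν x) :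
    (∑ c ∈ range ((P * f') ^ w), ν c) * En (range ((P * f') ^ w)) (fun x => u (x : ℤ)) +
      1 / (4 * ((P * f' : ℕ) : ℝ) ^ (2 * w)) *
        (((∑ c ∈ range ((P * f') ^ w), ν c) -
            (∑ e ∈ range P, (∑ c ∈ range (P ^ (w - 1) * f' ^ w), ν ((e : ℤ) + P * c)) ^ 2) / (∑ c ∈ range ((P * f') ^ w), ν c)) *
          dev P f' w u) ≤
      En (range ((P * f') ^ w)) (fun x => ∑ c ∈ range ((P * f') ^ w), ν (c : ℤ) * u ((x : ℤ) - c)) := by
  obtain ⟨V, hV⟩ : ∃ V : ℝ, V = ∑ c ∈ range ((P * f') ^ w), ν (c : ℤ) := ⟨_, rfl⟩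
  obtain ⟨M, hM⟩ : ∃ M : ℝ, M = ∑ x ∈ range ((P * f') ^ w), u (x : ℤ) := ⟨_, rfl⟩
  obtain ⟨U, hU⟩ : ∃ U : ℝ, U = ∑ x ∈ range ((P * f') ^ w), (u (x : ℤ) - av P f' w u (x : ℤ)) ^ 2 := ⟨_, rfl⟩
  have hdev : dev P f' w u = U / M := by
    unfold dev
    rw [← hU, ← hM]
  rw [← hV, hdev]
  have hV0 : 0 ≤ V := by rw [hV]; exact Finset.sum_nonneg fun _ _ => hν _
  have hM0 : 0 ≤ M := by rw [hM]; exact Finset.sum_nonneg fun _ _ => hu _
  have hnn : 0 ≤ En (range ((P * f') ^ w)) (fun x => ∑ c ∈ range ((P * f') ^ w), ν (c : ℤ) * u ((x : ℤ) - c)) :=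
    en_nonneg _ _ fun x _ => Finset.sum_nonneg fun c _ => mul_nonneg (hν _) (hu _)
  rcases hM0.eq_or_lt with h0 | hMpos
  · have hz : ∀ x ∈ range ((P * f') ^ w), u (x : ℤ) = 0 := by
      rw [hM] at h0
      exact (Finset.sum_eq_zero_iff_of_nonneg (fun _ _ => hu _)).1 h0.symm
    have hE : En (range ((P * f') ^ w)) (fun x => u (x : ℤ)) = 0 := by
      unfold En
      rw [← hM, ← h0, Real.negMulLog_zero, sub_zero]
      refine Finset.sum_eq_zero fun x hx => ?_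
      show Real.negMulLog (u (x : ℤ)) = 0
      rw [hz x hx, Real.negMulLog_zero]
    rw [hE, ← h0]
    simpa using hnn
  rcases hV0.eq_or_lt with h0 | hVpos
  · -- no mass in `ν`
    rw [← h0]
    simpa using hnn
  have h1 := locP_one P f' w hP hf' hw (fun x => M⁻¹ * u x) (fun x => V⁻¹ * ν x)
    (fun x => mul_nonneg (inv_nonneg.2 hM0) (hu x))
    (fun x => mul_nonneg (inv_nonneg.2 hV0) (hν x)) (fun x z => by rw [hup]) (fun x z => by rw [hνp])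
    (by rw [← Finset.mul_sum, ← hM]; exact inv_mul_cancel₀ hMpos.ne')
    (by rw [← Finset.mul_sum, ← hV]; exact inv_mul_cancel₀ hVpos.ne')
  rw [en_smul] at h1
  have e1 : (fun x : ℕ => ∑ c ∈ range ((P * f') ^ w), V⁻¹ * ν (c : ℤ) * (M⁻¹ * u ((x : ℤ) - c))) =
      fun x : ℕ => (V⁻¹ * M⁻¹) * ∑ c ∈ range ((P * f') ^ w), ν (c : ℤ) * u ((x : ℤ) - c) := by
    funext x
    rw [Finset.mul_sum]
    exact Finset.sum_congr rfl fun c _ => by ring
  rw [e1, en_smul] at h1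
  have e2 : ∑ e ∈ range P, (∑ c ∈ range (P ^ (w - 1) * f' ^ w), V⁻¹ * ν ((e : ℤ) + P * c)) ^ 2 =
      V⁻¹ ^ 2 * ∑ e ∈ range P, (∑ c ∈ range (P ^ (w - 1) * f' ^ w), ν ((e : ℤ) + P * c)) ^ 2 := by
    rw [Finset.mul_sum]
    refine Finset.sum_congr rfl fun e _ => ?_
    rw [← Finset.mul_sum, mul_pow]
  have e5 : ∑ x ∈ range ((P * f') ^ w), (M⁻¹ * u (x : ℤ) - av P f' w (fun x => M⁻¹ * u x) (x : ℤ)) ^ 2 =
      M⁻¹ ^ 2 * U := by
    rw [hU, Finset.mul_sum]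
    refine Finset.sum_congr rfl fun x _ => ?_
    have e6 : av P f' w (fun x => M⁻¹ * u x) (x : ℤ) = M⁻¹ * av P f' w u (x : ℤ) := by
      unfold av
      rw [← Finset.mul_sum]
      ring
    rw [e6]
    ring
  rw [e2, e5] at h1
  have h2 := mul_le_mul_of_nonneg_left h1 (mul_pos hVpos hMpos).le
  set E1 := En (range ((P * f') ^ w)) (fun x => u (x : ℤ))
  set E2 := En (range ((P * f') ^ w)) (fun x => ∑ c ∈ range ((P * f') ^ w), ν (c : ℤ) * u ((x : ℤ) - c))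
  set S2 := ∑ e ∈ range P, (∑ c ∈ range (P ^ (w - 1) * f' ^ w), ν ((e : ℤ) + P * c)) ^ 2
  obtain ⟨K, hK⟩ : ∃ K : ℝ, K = 1 / (4 * ((P * f' : ℕ) : ℝ) ^ (2 * w)) := ⟨_, rfl⟩
  rw [← hK] at h2 ⊢
  have e3 : V * M * (V⁻¹ * M⁻¹ * E2) = E2 := by field_simp
  have e4 : V * M * (M⁻¹ * E1 + K * ((1 - V⁻¹ ^ 2 * S2) * (M⁻¹ ^ 2 * U))) =
      V * E1 + K * ((V - S2 / V) * (U / M)) := by
    field_simp
  rw [e3, e4] at h2
  exact h2

end PoolAgent.Helper28.ED
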