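import Pool.Agent.Helper28.ED.Proj
import Pool.Agent.Helper28.ED.Iter

/-!
# ED-MINW: from nearly invariant windows to an invariant minorant (adapt `EC/MinorW.lean`)

`q = p = f g = P Q`, `f = P f'`, `Q = f' g`.  Good `y0 < p^l`: `u(x) = (muF ω l y0)_w(x) = g^w ω_{l+w}(y0 + p^l x)` (periodic modulo `f^w`) has `dev <= δ ω_l(y0)`, mass `ω_l(y0)`.
For every `x` and every multiple `h` of `P f'^w`: `|u(x+h) - av u(x)| <= sqrt(∑ (u - av u)^2) <= sqrt(δ) ω_l(y0)` (`av u (x+h) = av u x`), so `⨅_h u(x+h) >= u(x) - 2 sqrt(δ) ω_l(y0)` and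
`∑_{x<f^w} ⨅_h u(x+h) >= ω_l(y0) (1 - 2 f^w sqrt δ) >= ω_l(y0)/2`.
`j = (l - rho)/N`, `r = l - N j` in `[rho, rho+N)`.  `stat_iter` (`j` steps, level `J = r + w`), `y = y0 + p^l e`: `cc u y = cc u y0 + p^r d^(tt u) e`.  For `x < p^J` and `k`:
`ω_J(x + n k)`, `n = P^(rho+N) Q^J`, `= ∑_{y0} ∑_u pc u y0 ∑_{e<p^w} [cc u y0 + p^r d^(tt u) e = x + n k mod p^J] ω_{l+w}(y0 + p^l e)`; `p^r P Q^w | n` modulo ... precisely `n = p^r h'` with
`h' = P^(rho+N-r) Q^w` a multiple of `P f'^w` (`r < rho + N`), so the condition is `cc u y0 = x mod p^r` and `e = e0 + D' h' k mod p^w`, `D'` the inverse of `d^(tt u)`: the term is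
`g^(-w) u(e0 + D' h' k) >= g^(-w) ⨅_h u(e0 + h)`.  Sum over `x < p^J`: for fixed `y0`, `u` the `e0` run once through `range (p^w)`: `mm >= ∑_{y0 good} ω_l(y0)/2 (∑_u pc u y0) >= c2/2`.
-/

set_option autoImplicit false

namespace PoolAgent.Helper28.ED

open PoolAgent.Helper28.EC hiding Sys Stat
open Finset Real

/-- Nonnegative periodic functions are at most the sum over a period. -/
private theorem mk_le_sum (n : ℕ) (hn : 0 < n) (G : ℤ → ℝ) (hG : ∀ x, 0 ≤ G x)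
    (hp : ∀ x z : ℤ, G (x + n * z) = G x) (y : ℤ) : G y ≤ ∑ x ∈ range n, G (x : ℤ) := by
  have hn' : (0 : ℤ) < n := by exact_mod_cast hn
  have h2 := Int.emod_nonneg y hn'.ne'
  have h1 := Int.emod_lt_of_pos y hn'
  have h3 : G y = G (((y % n).toNat : ℕ) : ℤ) := by
    rw [Int.toNat_of_nonneg h2]
    conv_lhs => rw [← Int.emod_add_mul_ediv y n]
    exact hp _ _
  rw [h3]
  refine Finset.single_le_sum (f := fun x : ℕ => G (x : ℤ)) (fun x _ => hG _) ?_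
  rw [mem_range]
  omega

/-- The average is invariant under the translations. -/
private theorem mk_av_inv (P f' w : ℕ) (hw : 1 ≤ w) (u : ℤ → ℝ)
    (hu : ∀ x z, u (x + ((P * f' : ℕ) : ℤ) ^ w * z) = u x) (x k : ℤ) :
    av P f' w u (x + P * (f' : ℤ) ^ w * k) = av P f' w u x := by
  unfold av
  congr 1
  have h := sum_range_shift (P ^ (w - 1)) (fun j : ℤ => u (x + P * (f' : ℤ) ^ w * j)) (by
    intro j z
    have e : x + P * (f' : ℤ) ^ w * (j + ((P ^ (w - 1) : ℕ) : ℤ) * z) =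
        (x + P * (f' : ℤ) ^ w * j) + ((P * f' : ℕ) : ℤ) ^ w * z := by
      have e1 : (P : ℤ) ^ w = P * (P : ℤ) ^ (w - 1) := by
        rw [← pow_succ']
        congr 1
        omega
      push_cast
      rw [mul_pow, e1]
      ring
    change u _ = u _
    rw [e, hu]) k
  refine Eq.trans ?_ h
  refine Finset.sum_congr rfl fun j _ => ?_
  congr 1
  ring

private theorem mk_av_per (P f' w : ℕ) (u : ℤ → ℝ)
    (hu : ∀ x z, u (x + ((P * f' : ℕ) : ℤ) ^ w * z) = u x) (x z : ℤ) :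
    av P f' w u (x + ((P * f' : ℕ) : ℤ) ^ w * z) = av P f' w u x := by
  unfold av
  congr 1
  refine Finset.sum_congr rfl fun j _ => ?_
  rw [add_right_comm, hu]

/-- A small deviation: the translations change `u` very little. -/
private theorem mk_dev (P f' w : ℕ) (hw : 1 ≤ w) (hf0 : 0 < P * f') (u : ℤ → ℝ) (hu0 : ∀ x, 0 ≤ u x)
    (hu : ∀ x z, u (x + ((P * f' : ℕ) : ℤ) ^ w * z) = u x) (m δ : ℝ) (hδ : 0 ≤ δ)
    (hm : ∑ x ∈ range ((P * f') ^ w), u (x : ℤ) = m) (hdev : dev P f' w u ≤ δ * m) (x k : ℤ) :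
    u x - 2 * Real.sqrt δ * m ≤ u (x + P * (f' : ℤ) ^ w * k) := by
  have hn : 0 < (P * f') ^ w := pow_pos hf0 w
  have hm0 : 0 ≤ m := by
    rw [← hm]
    exact Finset.sum_nonneg fun x _ => hu0 _
  have hle : ∀ y, u y ≤ m := by
    intro y
    rw [← hm]
    exact mk_le_sum _ hn u hu0 (by
      intro x z
      have := hu x z
      push_cast at this ⊢
      exact this) y
  rcases eq_or_lt_of_le hm0 with h0 | hpos
  · rw [← h0, mul_zero, sub_zero]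
    refine le_trans ?_ (hu0 _)
    rw [h0]
    exact hle x
  · unfold dev at hdev
    rw [hm, div_le_iff₀ hpos] at hdev
    have hsq : ∀ y, (u y - av P f' w u y) ^ 2 ≤ (Real.sqrt δ * m) ^ 2 := by
      intro y
      have h1 : (u y - av P f' w u y) ^ 2 ≤
          ∑ x ∈ range ((P * f') ^ w), (u (x : ℤ) - av P f' w u (x : ℤ)) ^ 2 := by
        refine mk_le_sum _ hn (fun y => (u y - av P f' w u y) ^ 2) (fun y => sq_nonneg _) ?_ y
        intro x z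
        have e1 := hu x z
        have e2 := mk_av_per P f' w u hu x z
        push_cast at e1 e2 ⊢
        rw [e1, e2]
      refine h1.trans (hdev.trans (le_of_eq ?_))
      rw [mul_pow, Real.sq_sqrt hδ]
      ring
    have hs : 0 ≤ Real.sqrt δ * m := mul_nonneg (Real.sqrt_nonneg _) hm0
    have h1 := abs_le_of_sq_le_sq' (hsq x) hs
    have h2 := abs_le_of_sq_le_sq' (hsq (x + P * (f' : ℤ) ^ w * k)) hs
    rw [mk_av_inv P f' w hw u hu x k] at h2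
    linarith [h1.1, h1.2, h2.1, h2.2]

private theorem mk_dev_sum (P f' w : ℕ) (hw : 1 ≤ w) (hf0 : 0 < P * f') (u : ℤ → ℝ) (hu0 : ∀ x, 0 ≤ u x)
    (hu : ∀ x z, u (x + ((P * f' : ℕ) : ℤ) ^ w * z) = u x) (m δ : ℝ) (hδ : 0 ≤ δ)
    (hm : ∑ x ∈ range ((P * f') ^ w), u (x : ℤ) = m) (hdev : dev P f' w u ≤ δ * m)
    (hδw : 2 * ((P * f' : ℕ) : ℝ) ^ w * Real.sqrt δ ≤ 1 / 2) :
    m / 2 ≤ ∑ x ∈ range ((P * f') ^ w), ⨅ k : ℤ, u ((x : ℤ) + P * (f' : ℤ) ^ w * k) := by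
  have hm0 : 0 ≤ m := by
    rw [← hm]
    exact Finset.sum_nonneg fun x _ => hu0 _
  have h1 : ∑ x ∈ range ((P * f') ^ w), (u (x : ℤ) - 2 * Real.sqrt δ * m) ≤
      ∑ x ∈ range ((P * f') ^ w), ⨅ k : ℤ, u ((x : ℤ) + P * (f' : ℤ) ^ w * k) :=
    Finset.sum_le_sum fun x _ => le_ciInf fun k => mk_dev P f' w hw hf0 u hu0 hu m δ hδ hm hdev _ k
  refine le_trans ?_ h1
  rw [Finset.sum_sub_distrib, hm, Finset.sum_const, card_range, nsmul_eq_mul]
  have h2 := mul_le_mul_of_nonneg_right hδw hm0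
  push_cast at h2 ⊢
  nlinarith [h2]

/-- Exactly one residue. -/
private theorem mk_one (p : ℕ) (hp : 0 < p) (r : ℕ) (c : ℤ) (a : ℝ) :
    ∑ s ∈ range (p ^ r), (if c ≡ (s : ℤ) [ZMOD (p : ℤ) ^ r] then a else 0) = a := by
  have hn : (0 : ℤ) < (p : ℤ) ^ r := pow_pos (by exact_mod_cast hp) r
  have h2 := Int.emod_nonneg c hn.ne'
  have h1 := Int.emod_lt_of_pos c hn
  rw [Finset.sum_eq_single (c % (p : ℤ) ^ r).toNat]
  · rw [if_pos]
    rw [Int.toNat_of_nonneg h2]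
    exact (Int.mod_modEq c _).symm
  · intro b hb hne
    rw [if_neg]
    intro h
    apply hne
    have h3 : c % (p : ℤ) ^ r = b := by
      have h4 : c % (p : ℤ) ^ r = (b : ℤ) % (p : ℤ) ^ r := h
      rw [h4, Int.emod_eq_of_lt (by positivity)]
      exact_mod_cast mem_range.1 hb
    rw [h3]
    simp
  · intro hne
    exfalso
    apply hne
    rw [mem_range]
    zify
    rw [Int.toNat_of_nonneg h2]
    exact h1

/-- The sum over the digits `e`, compared with the sum for the translated class. -/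
private theorem mk_shift (q : ℕ) (P Q f' g : ℕ) (hq : q = P * Q) (hQ : Q = f' * g) (D : ℤ)
    (hD : IsCoprime D (q : ℤ)) (r w s : ℕ) (hrs : r < s) (c x k : ℤ) (W V : ℤ → ℝ)
    (hW : ∀ a z, W (a + (q : ℤ) ^ w * z) = W a)
    (hV : ∀ a k, V a ≤ W (a + P * (f' : ℤ) ^ w * k)) :
    (∑ e ∈ range (q ^ w), if c + (q : ℤ) ^ r * (D * e) ≡ x [ZMOD (q : ℤ) ^ (r + w)] then V (e : ℤ) else 0) ≤
      ∑ e ∈ range (q ^ w), if c + (q : ℤ) ^ r * (D * e) ≡
        x + (P : ℤ) ^ s * (Q : ℤ) ^ (r + w) * k [ZMOD (q : ℤ) ^ (r + w)] then W (e : ℤ) else 0 := by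
  obtain ⟨a, b, hab⟩ : IsCoprime D ((q : ℤ) ^ w) := hD.pow_right
  set h' : ℤ := (P : ℤ) ^ (s - r) * (Q : ℤ) ^ w with hh'
  set t : ℤ := a * h' * k with ht
  have hqZ : (q : ℤ) = P * Q := by rw [hq]; push_cast; ring
  have hn : (P : ℤ) ^ s * (Q : ℤ) ^ (r + w) = (q : ℤ) ^ r * h' := by
    have e1 : (P : ℤ) ^ s = (P : ℤ) ^ r * (P : ℤ) ^ (s - r) := by
      rw [← pow_add]
      congr 1
      omega
    rw [hh', hqZ, mul_pow, e1, pow_add]
    ring
  have hDt : (q : ℤ) ^ r * (D * t) = (P : ℤ) ^ s * (Q : ℤ) ^ (r + w) * k - (q : ℤ) ^ (r + w) * (b * h' * k) := by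
    rw [hn, ht, pow_add]
    linear_combination ((q : ℤ) ^ r * h' * k) * hab
  have htP : t = P * (f' : ℤ) ^ w * ((P : ℤ) ^ (s - r - 1) * (g : ℤ) ^ w * a * k) := by
    have e1 : (P : ℤ) ^ (s - r) = P * (P : ℤ) ^ (s - r - 1) := by
      rw [← pow_succ']
      congr 1
      omega
    have e2 : (Q : ℤ) = f' * g := by rw [hQ]; push_cast; ring
    rw [ht, hh', e1, e2, mul_pow]
    ring
  have hsh := sum_range_shift (q ^ w) (fun e : ℤ => if c + (q : ℤ) ^ r * (D * e) ≡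
        x + (P : ℤ) ^ s * (Q : ℤ) ^ (r + w) * k [ZMOD (q : ℤ) ^ (r + w)] then W e else 0) (by
    intro e z
    have e1 : c + (q : ℤ) ^ r * (D * (e + ((q ^ w : ℕ) : ℤ) * z)) ≡ c + (q : ℤ) ^ r * (D * e)
        [ZMOD (q : ℤ) ^ (r + w)] := by
      rw [Int.modEq_iff_dvd]
      refine ⟨-(D * z), ?_⟩
      rw [pow_add]
      push_cast
      ring
    have e2 : W (e + ((q ^ w : ℕ) : ℤ) * z) = W e := by
      rw [Nat.cast_pow]
      exact hW e z
    simp only [e2]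
    by_cases h : c + (q : ℤ) ^ r * (D * e) ≡
        x + (P : ℤ) ^ s * (Q : ℤ) ^ (r + w) * k [ZMOD (q : ℤ) ^ (r + w)]
    · rw [if_pos h, if_pos (e1.trans h)]
    · rw [if_neg h, if_neg fun h' => h (e1.symm.trans h')]) t
  rw [← hsh]
  refine Finset.sum_le_sum fun e _ => ?_
  have e3 : c + (q : ℤ) ^ r * (D * ((e : ℤ) + t)) ≡ (c + (q : ℤ) ^ r * (D * e)) +
      (P : ℤ) ^ s * (Q : ℤ) ^ (r + w) * k [ZMOD (q : ℤ) ^ (r + w)] := by
    rw [mul_add, mul_add, hDt, Int.modEq_iff_dvd]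
    exact ⟨b * h' * k, by ring⟩
  by_cases h : c + (q : ℤ) ^ r * (D * e) ≡ x [ZMOD (q : ℤ) ^ (r + w)]
  · rw [if_pos h, if_pos (e3.trans (Int.ModEq.add_right _ h)), htP]
    exact hV _ _
  · rw [if_neg h, if_neg fun h' => h (Int.ModEq.add_right_cancel' _ (e3.symm.trans h'))]

open Classical in
/-- The lower bound by the good classes. -/
private theorem mk_lower (S : Sys) (ω : Fam S.p) (hst : Stat S ω) (P Q f' g : ℕ) (hq : S.p = P * Q)
    (hQ : Q = f' * g) (w r j s : ℕ) (hr : S.rho ≤ r) (hrs : r < s) (x : ℤ) (G : Finset ℕ)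
    (hG : G ⊆ range (S.p ^ (r + S.N * j))) (V : ℕ → ℤ → ℝ)
    (hV : ∀ y ∈ G, ∀ a k : ℤ, V y a ≤ ω.m (r + S.N * j + w)
      ((y : ℤ) + (S.p : ℤ) ^ (r + S.N * j) * (a + P * (f' : ℤ) ^ w * k))) :
    ∑ y ∈ G, ∑ u ∈ S.chains j, S.pc u y * ∑ e ∈ range (S.p ^ w),
      (if S.cc u y + (S.p : ℤ) ^ r * (S.d ^ S.tt u * e) ≡ x [ZMOD (S.p : ℤ) ^ (r + w)] then V y (e : ℤ) else 0) ≤
      ⨅ k : ℤ, ω.m (r + w) (x + (P : ℤ) ^ s * (Q : ℤ) ^ (r + w) * k) := by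
  refine le_ciInf fun k => ?_
  rw [stat_iter S ω hst j (r + w) _ (by omega)]
  have e1 : r + w + S.N * j = (r + S.N * j) + w := by ring
  rw [e1, pow_add S.p (r + S.N * j) w, sum_range_mul]
  have hterm : ∀ (y e : ℕ), 0 ≤ ω.m (r + S.N * j + w) (((y + S.p ^ (r + S.N * j) * e : ℕ) : ℤ)) *
      ∑ u ∈ S.chains j, (if S.cc u (((y + S.p ^ (r + S.N * j) * e : ℕ) : ℤ)) ≡
        x + (P : ℤ) ^ s * (Q : ℤ) ^ (r + w) * k [ZMOD (S.p : ℤ) ^ (r + w)] then
        S.pc u (((y + S.p ^ (r + S.N * j) * e : ℕ) : ℤ)) else 0) := by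
    intro y e
    refine mul_nonneg (ω.nonneg _ _) (Finset.sum_nonneg fun u _ => ?_)
    split_ifs
    · exact S.pc_nonneg _ _
    · exact le_rfl
  refine le_trans (Finset.sum_le_sum ?_) (Finset.sum_le_sum_of_subset_of_nonneg hG
    (fun y _ _ => Finset.sum_nonneg fun e _ => hterm y e))
  intro y hy
  have hswap : ∑ e ∈ range (S.p ^ w), ω.m (r + S.N * j + w) (((y + S.p ^ (r + S.N * j) * e : ℕ) : ℤ)) *
      ∑ u ∈ S.chains j, (if S.cc u (((y + S.p ^ (r + S.N * j) * e : ℕ) : ℤ)) ≡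
        x + (P : ℤ) ^ s * (Q : ℤ) ^ (r + w) * k [ZMOD (S.p : ℤ) ^ (r + w)] then
        S.pc u (((y + S.p ^ (r + S.N * j) * e : ℕ) : ℤ)) else 0) =
      ∑ u ∈ S.chains j, ∑ e ∈ range (S.p ^ w),
        ω.m (r + S.N * j + w) (((y + S.p ^ (r + S.N * j) * e : ℕ) : ℤ)) *
        (if S.cc u (((y + S.p ^ (r + S.N * j) * e : ℕ) : ℤ)) ≡
        x + (P : ℤ) ^ s * (Q : ℤ) ^ (r + w) * k [ZMOD (S.p : ℤ) ^ (r + w)] then
        S.pc u (((y + S.p ^ (r + S.N * j) * e : ℕ) : ℤ)) else 0) := by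
    rw [Finset.sum_comm]
    refine Finset.sum_congr rfl fun e _ => Finset.mul_sum _ _ _
  rw [hswap]
  refine Finset.sum_le_sum fun u hu => ?_
  have hlen : u.length = j := (S.mem_chains j u).1 hu
  have hnn : 0 ≤ ∑ e ∈ range (S.p ^ w),
        ω.m (r + S.N * j + w) (((y + S.p ^ (r + S.N * j) * e : ℕ) : ℤ)) *
        (if S.cc u (((y + S.p ^ (r + S.N * j) * e : ℕ) : ℤ)) ≡
        x + (P : ℤ) ^ s * (Q : ℤ) ^ (r + w) * k [ZMOD (S.p : ℤ) ^ (r + w)] then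
        S.pc u (((y + S.p ^ (r + S.N * j) * e : ℕ) : ℤ)) else 0) := by
    refine Finset.sum_nonneg fun e _ => mul_nonneg (ω.nonneg _ _) ?_
    split_ifs
    · exact S.pc_nonneg _ _
    · exact le_rfl
  by_cases h0 : S.pc u (y : ℤ) = 0
  · rw [h0, zero_mul]
    exact hnn
  · have hper : ∀ e : ℕ, S.pc u (((y + S.p ^ (r + S.N * j) * e : ℕ) : ℤ)) = S.pc u y := by
      intro e
      have := S.pc_per u (y : ℤ) ((S.p : ℤ) ^ (r - S.rho) * e)
      rw [← this]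
      congr 1
      push_cast
      congr 1
      rw [← mul_assoc, ← pow_add]
      congr 2
      rw [hlen]
      omega
    have hcc : ∀ e : ℕ, S.cc u (((y + S.p ^ (r + S.N * j) * e : ℕ) : ℤ)) =
        S.cc u y + (S.p : ℤ) ^ r * (S.d ^ S.tt u * e) := by
      intro e
      have := S.cc_shift u (y : ℤ) (e : ℤ) r h0
      rw [← this]
      congr 1
      push_cast
      congr 3
      rw [hlen]
      ring
    have hshift := mk_shift S.p P Q f' g hq hQ (S.d ^ S.tt u) (S.hd.pow_left) r w s hrs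
      (S.cc u y) x k (fun a => ω.m (r + S.N * j + w) ((y : ℤ) + (S.p : ℤ) ^ (r + S.N * j) * a)) (V y)
      (by
        intro a z
        have e2 : (y : ℤ) + (S.p : ℤ) ^ (r + S.N * j) * (a + (S.p : ℤ) ^ w * z) =
          ((y : ℤ) + (S.p : ℤ) ^ (r + S.N * j) * a) + (S.p : ℤ) ^ (r + S.N * j + w) * z := by
          rw [pow_add (S.p : ℤ) (r + S.N * j) w]
          ring
        change ω.m _ _ = ω.m _ _
        rw [e2, ω.per])
      (fun a k => hV y hy a k)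
    refine le_trans (mul_le_mul_of_nonneg_left hshift (S.pc_nonneg _ _)) (le_of_eq ?_)
    rw [Finset.mul_sum]
    refine Finset.sum_congr rfl fun e _ => ?_
    rw [hcc e, hper e]
    push_cast
    split_ifs
    · ring
    · ring

open Classical in
theorem mm_of_key (S : Sys) (h2 : S.Two) {f g : ℕ} (hfg : S.p = f * g) (hc : Nat.Coprime f g) (hf : f ∣ S.p)
    (P f' : ℕ) (hPf : f = P * f') (hPc : Nat.Coprime P f') (hP2 : 2 ≤ P)
    (ω : Fam S.p) (hst : Stat S ω) (hT : OfType S f ω) (c2 : ℝ) (w : ℕ) (hw : 1 ≤ w) (δ : ℝ) (hδ : 0 < δ)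
    (hδw : 2 * (f : ℝ) ^ w * Real.sqrt δ ≤ 1 / 2) (l : ℕ) (hl : S.rho ≤ l)
    (hkey : c2 ≤ ∑ y ∈ range (S.p ^ l), if dev P f' w (fun x => (muF S hf ω l (y : ℤ)).m w x) ≤ δ * ω.m l (y : ℤ)
      then ω.m l (y : ℤ) else 0) :
    ∃ r : ℕ, S.rho ≤ r ∧ r < S.rho + S.N ∧ c2 / 2 ≤ mm ω ((P : ℤ) ^ (S.rho + S.N) * ((f' * g : ℕ) : ℤ) ^ (r + w)) (r + w) := by
  have hN := S.hN
  have hp0 := S.pp
  obtain ⟨j, r, hr1, hr2, hlr⟩ : ∃ j r : ℕ, S.rho ≤ r ∧ r < S.rho + S.N ∧ l = r + S.N * j := by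
    refine ⟨(l - S.rho) / S.N, S.rho + (l - S.rho) % S.N, by omega, ?_, ?_⟩
    · have := Nat.mod_lt (l - S.rho) (show 0 < S.N by omega)
      omega
    · have := Nat.mod_add_div (l - S.rho) S.N
      omega
  subst hlr
  refine ⟨r, hr1, hr2, ?_⟩
  have hf0 : 0 < f := Nat.pos_of_dvd_of_pos hf hp0
  have hg0 : 0 < g := by
    rcases Nat.eq_zero_or_pos g with h0 | h0
    · rw [h0, mul_zero] at hfg; omega
    · exact h0
  have hgR : (0 : ℝ) < (g : ℝ) ^ w := by positivity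
  have hq : S.p = P * (f' * g) := by rw [hfg, hPf]; ring
  have hPf0 : 0 < P * f' := hPf ▸ hf0
  -- the windows
  set U : ℕ → ℤ → ℝ := fun y x => (muF S hf ω (r + S.N * j) (y : ℤ)).m w x with hU
  have hUper : ∀ (y : ℕ) (x z : ℤ), U y (x + ((P * f' : ℕ) : ℤ) ^ w * z) = U y x := by
    intro y x z
    rw [← hPf]
    exact (muF S hf ω (r + S.N * j) (y : ℤ)).per w x z
  have hU0 : ∀ (y : ℕ) (x : ℤ), 0 ≤ U y x := fun y x => (muF S hf ω (r + S.N * j) (y : ℤ)).nonneg w x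
  have hUm : ∀ y : ℕ, ∑ x ∈ range ((P * f') ^ w), U y (x : ℤ) = ω.m (r + S.N * j) (y : ℤ) := by
    intro y
    rw [← hPf]
    have h1 := (muF S hf ω (r + S.N * j) (y : ℤ)).sum_eq_mass w
    rw [hU]
    simp only
    rw [h1]
    unfold muF
    rw [proj_mass, Fam.res_mass]
  have hUw : ∀ (y : ℕ) (x : ℤ), U y x = (g : ℝ) ^ w * ω.m (r + S.N * j + w)
      ((y : ℤ) + (S.p : ℤ) ^ (r + S.N * j) * x) := by
    intro y x
    exact proj_m S.pp hf hfg hc (ω.res (r + S.N * j) (y : ℤ))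
      (fun j' x' z' => res_type S hfg ω hT (r + S.N * j) (y : ℤ) hl j' x' z') w x
  set V : ℕ → ℤ → ℝ := fun y a => (⨅ k : ℤ, U y (a + P * (f' : ℤ) ^ w * k)) with hVdef
  have hbdd : ∀ (y : ℕ) (a : ℤ), BddBelow (Set.range fun k : ℤ => U y (a + P * (f' : ℤ) ^ w * k)) :=
    fun y a => ⟨0, by rintro _ ⟨k, rfl⟩; exact hU0 _ _⟩
  have hVper : ∀ (y : ℕ) (x z : ℤ), V y (x + ((P * f' : ℕ) : ℤ) ^ w * z) = V y x := by
    intro y x z
    rw [hVdef]
    simp only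
    congr 1
    funext k
    rw [add_right_comm, hUper]
  set G : Finset ℕ := (range (S.p ^ (r + S.N * j))).filter
    (fun y => dev P f' w (fun x => (muF S hf ω (r + S.N * j) (y : ℤ)).m w x) ≤
      δ * ω.m (r + S.N * j) (y : ℤ)) with hGdef
  rw [← Finset.sum_filter] at hkey
  have hVsum : ∀ y ∈ G, ω.m (r + S.N * j) (y : ℤ) / 2 ≤ ∑ x ∈ range (f ^ w), V y (x : ℤ) := by
    intro y hy
    have h1 := mk_dev_sum P f' w hw hPf0 (U y) (hU0 y) (hUper y) (ω.m (r + S.N * j) (y : ℤ)) δ hδ.le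
      (hUm y) (Finset.mem_filter.1 hy).2 (by rw [← hPf]; exact hδw)
    rw [← hPf] at h1
    exact h1
  have hlow := fun x : ℤ => mk_lower S ω hst P (f' * g) f' g hq rfl w r j (S.rho + S.N) hr1 hr2 x G
    (Finset.filter_subset _ _) (fun y a => ((g : ℝ) ^ w)⁻¹ * V y a) (by
      intro y _ a k
      rw [inv_mul_le_iff₀ hgR, ← hUw]
      exact ciInf_le (hbdd y a) k)
  have hmm : ∑ y ∈ G, ∑ u ∈ S.chains j, S.pc u y * ∑ e ∈ range (S.p ^ w), ((g : ℝ) ^ w)⁻¹ * V y (e : ℤ) ≤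
      mm ω ((P : ℤ) ^ (S.rho + S.N) * ((f' * g : ℕ) : ℤ) ^ (r + w)) (r + w) := by
    unfold mm
    have hsum : ∑ x ∈ range (S.p ^ (r + w)), (∑ y ∈ G, ∑ u ∈ S.chains j, S.pc u y *
        ∑ e ∈ range (S.p ^ w), (if S.cc u y + (S.p : ℤ) ^ r * (S.d ^ S.tt u * e) ≡ (x : ℤ)
          [ZMOD (S.p : ℤ) ^ (r + w)] then ((g : ℝ) ^ w)⁻¹ * V y (e : ℤ) else 0)) =
        ∑ y ∈ G, ∑ u ∈ S.chains j, S.pc u y * ∑ e ∈ range (S.p ^ w), ((g : ℝ) ^ w)⁻¹ * V y (e : ℤ) := by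
      rw [Finset.sum_comm]
      refine Finset.sum_congr rfl fun y _ => ?_
      rw [Finset.sum_comm]
      refine Finset.sum_congr rfl fun u _ => ?_
      rw [← Finset.mul_sum, Finset.sum_comm]
      congr 1
      refine Finset.sum_congr rfl fun e _ => ?_
      exact mk_one S.p hp0 (r + w) _ _
    rw [← hsum]
    exact Finset.sum_le_sum fun x _ => hlow (x : ℤ)
  refine le_trans ?_ hmm
  have hVq : ∀ y : ℕ, ∑ e ∈ range (S.p ^ w), ((g : ℝ) ^ w)⁻¹ * V y (e : ℤ) =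
      ∑ x ∈ range (f ^ w), V y (x : ℤ) := by
    intro y
    rw [← Finset.mul_sum, inv_mul_eq_iff_eq_mul₀ hgR.ne', Finset.mul_sum]
    have e0 : S.p ^ w = f ^ w * g ^ w := by rw [hfg, mul_pow]
    rw [e0, sum_range_mul]
    refine Finset.sum_congr rfl fun x _ => ?_
    have e3 : ∀ e ∈ range (g ^ w), V y (((x + f ^ w * e : ℕ) : ℤ)) = V y (x : ℤ) := by
      intro e _
      have h1 := hVper y (x : ℤ) (e : ℤ)
      rw [← hPf] at h1
      push_cast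
      exact h1
    rw [Finset.sum_congr rfl e3, Finset.sum_const, card_range, nsmul_eq_mul, Nat.cast_pow]
  calc c2 / 2 ≤ (∑ y ∈ G, ω.m (r + S.N * j) (y : ℤ)) / 2 := by linarith
    _ = ∑ y ∈ G, ω.m (r + S.N * j) (y : ℤ) / 2 := Finset.sum_div _ _ _
    _ ≤ _ := by
      refine Finset.sum_le_sum fun y hy => ?_
      rw [hVq y, ← Finset.sum_mul]
      have hpc0 : 0 ≤ ∑ u ∈ S.chains j, S.pc u (y : ℤ) :=
        Finset.sum_nonneg fun u _ => S.pc_nonneg _ _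
      refine le_trans ?_ (mul_le_mul_of_nonneg_left (hVsum y hy) hpc0)
      by_cases ha : S.alive (y : ℤ)
      · rw [S.pc_sum h2 j _ ha, one_mul]
      · rw [hst.supp _ _ hl ha, zero_div, mul_zero]

end PoolAgent.Helper28.ED
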