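import Pool.Agent.Helper28.ED.MinorDef

/-!
# ED: types of families, projection to the digits in a divisor `f` of the base, invariant minorants
-/

set_option autoImplicit false

namespace PoolAgent.Helper28.ED

open PoolAgent.Helper28.EC hiding Sys Stat
open Finset

/-- The projection of a base `q` family to a base `f` family, `f` a divisor of `q`: masses of the classes modulo `f^j`. -/
def proj {q f : ℕ} (hq : 0 < q) (hf : f ∣ q) (μ : Fam q) : Fam f where
  m j x := ∑ y ∈ range (q ^ j), if (y : ℤ) ≡ x [ZMOD (f : ℤ) ^ j] then μ.m j (y : ℤ) else 0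
  nonneg j x := Finset.sum_nonneg fun y _ => by split_ifs <;> simp [μ.nonneg]
  per j x z := by
    refine Finset.sum_congr rfl fun y _ => ?_
    have h : x + (f : ℤ) ^ j * z ≡ x [ZMOD (f : ℤ) ^ j] := by
      rw [Int.modEq_iff_dvd]; exact ⟨-z, by ring⟩
    have : ((y : ℤ) ≡ x + (f : ℤ) ^ j * z [ZMOD (f : ℤ) ^ j]) ↔ (y : ℤ) ≡ x [ZMOD (f : ℤ) ^ j] :=
      ⟨fun h' => h'.trans h, fun h' => h'.trans h.symm⟩
    simp only [this]
  cons j x := by
    have hf0 : 0 < f := Nat.pos_of_dvd_of_pos hf hq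
    have key := (Fam.law hf0 (range (q ^ (j + 1))) (fun y => μ.m (j + 1) (y : ℤ)) (fun y => μ.nonneg _ _)
      (fun y : ℕ => (y : ℤ))).cons j x
    have e1 : ∑ e ∈ range f, (∑ y ∈ range (q ^ (j + 1)),
        if (y : ℤ) ≡ x + (f : ℤ) ^ j * e [ZMOD (f : ℤ) ^ (j + 1)] then μ.m (j + 1) (y : ℤ) else 0) =
        ∑ y ∈ range (q ^ (j + 1)), if (y : ℤ) ≡ x [ZMOD (f : ℤ) ^ j] then μ.m (j + 1) (y : ℤ) else 0 := key.symm
    rw [e1, pow_succ, sum_range_mul]
    refine Finset.sum_congr rfl fun a _ => ?_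
    have e2 : ∀ e : ℕ, (((a + q ^ j * e : ℕ) : ℤ) ≡ x [ZMOD (f : ℤ) ^ j]) ↔ ((a : ℤ) ≡ x [ZMOD (f : ℤ) ^ j]) := by
      intro e
      have h : ((a + q ^ j * e : ℕ) : ℤ) ≡ a [ZMOD (f : ℤ) ^ j] := by
        rw [Int.modEq_iff_dvd]
        push_cast
        obtain ⟨g, hg⟩ := hf
        refine ⟨-((g : ℤ) ^ j * e), ?_⟩
        rw [hg]; push_cast; ring
      exact ⟨fun h' => h.symm.trans h', fun h' => h.trans h'⟩
    simp only [e2]
    by_cases h : (a : ℤ) ≡ x [ZMOD (f : ℤ) ^ j]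
    · simp only [if_pos h]
      rw [μ.cons]
      refine Finset.sum_congr rfl fun e _ => ?_
      push_cast
      rfl
    · simp only [if_neg h]
      simp

/-- A family is of type `f` if, from the level `rho` on, it only sees the digits in `f`. -/
def OfType (S : Sys) (f : ℕ) (ω : Fam S.p) : Prop := ∀ (j : ℕ) (x z : ℤ), S.rho ≤ j →
  ω.m j (x + (S.p : ℤ) ^ S.rho * (f : ℤ) ^ (j - S.rho) * z) = ω.m j x

/-- The base `f` family of the digits of `ω` above the class of `y` modulo `p^l`. -/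
def muF (S : Sys) {f : ℕ} (hf : f ∣ S.p) (ω : Fam S.p) (l : ℕ) (y : ℤ) : Fam f := proj S.pp hf (ω.res l y)

open Classical in
/-- The law (base `f`) of `cc u B / p^rho` over the chains `u` of length `t` with `tt u = T` and `cc u B = R mod p^rho`. -/
noncomputable def nuF (S : Sys) {f : ℕ} (hf : f ∣ S.p) (t : ℕ) (B : ℤ) (T R : ℕ) : Fam f :=
  Fam.law (Nat.pos_of_dvd_of_pos hf S.pp) ((S.chains t).filter fun u => S.tt u = T ∧ S.cc u B % (S.p : ℤ) ^ S.rho = R)
    (fun u => S.pc u B) (fun u => S.pc_nonneg u B) (fun u => S.cc u B / (S.p : ℤ) ^ S.rho)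

/-- Mean non-collision of the digit `i` modulo `P` given the lower digits (times the mass); `f = P f'`. -/
noncomputable def ncp {f : ℕ} (P f' : ℕ) (ν : Fam f) (i : ℕ) : ℝ :=
  ∑ y ∈ range (f ^ i), (ν.m i (y : ℤ) - (∑ e ∈ range P, (∑ e' ∈ range f', ν.m (i + 1) ((y : ℤ) + (f : ℤ) ^ i * (e + P * e'))) ^ 2) /
    ν.m i (y : ℤ))

/-- Average of `u` over the translations by the multiples of `P f'^w` modulo `(P f')^w`. -/
noncomputable def av (P f' w : ℕ) (u : ℤ → ℝ) (x : ℤ) : ℝ :=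
  (∑ k ∈ range (P ^ (w - 1)), u (x + P * (f' : ℤ) ^ w * k)) / (P : ℝ) ^ (w - 1)

/-- Squared distance of `u` (periodic modulo `f^w`, `f = P f'`) from its average, divided by the mass. -/
noncomputable def dev (P f' w : ℕ) (u : ℤ → ℝ) : ℝ :=
  (∑ x ∈ range ((P * f') ^ w), (u (x : ℤ) - av P f' w u (x : ℤ)) ^ 2) / ∑ x ∈ range ((P * f') ^ w), u (x : ℤ)

/-- Sum of the deviations of the windows `[i, i+w)`. -/
noncomputable def DEV {f : ℕ} (P f' w : ℕ) (μ : Fam f) (i : ℕ) : ℝ :=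
  ∑ a ∈ range (f ^ i), dev P f' w (fun x => μ.m (i + w) ((a : ℤ) + (f : ℤ) ^ i * x))

/-- Total mass of the largest minorant of `ω_J` which is periodic modulo `n`. -/
noncomputable def mm {q : ℕ} (ω : Fam q) (n : ℤ) (J : ℕ) : ℝ := ∑ x ∈ range (q ^ J), ⨅ k : ℤ, ω.m J ((x : ℤ) + n * k)

end PoolAgent.Helper28.ED
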