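import Pool.Agent.Helper28.ED.MinorDef
import Pool.Agent.Helper28.ED.Types
import Pool.Agent.Helper28.ED.KStat

/-!
# ED-STEP: one more step of the chain lowers the starting level of the invariance from `rho + N` to `rho`

`p = P Q`, `J >= rho`, `n = P^rho Q^J`, `n' = P^(rho+N) Q^(J+N) = p^N n`.  `hst.inv` at the level `J`, `y = s + p^(N+rho) e`, `s < p^(N+rho)`, `e < p^(J-rho)`: for a letter `w` valid at `s`
`child w y = child w s + p^rho d^tau e`, which is `x + n k mod p^J` iff `child w s = x mod p^rho` (`p^rho | n`) and `e = e0 + (n/p^rho) D' k mod p^(J-rho)` (`D'` inverse of `d^tau`, `e0 = e0(x, s, w)`), and then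
`ω_{J+N}(y) = ω_{J+N}(y0 + p^(N+rho) (n/p^rho) D' k) = ω_{J+N}(y0 + n' D' k) >= ⨅_k ω_{J+N}(y0 + n' k)`.  So
`⨅_k ω_J(x + n k) >= ∑_s ∑_w pr w s [child w s = x mod p^rho] ⨅_k ω_{J+N}(y0(x,s,w) + n' k)`; summing over `x < p^J` the point `e0` runs once over `range (p^(J-rho))` for each `(s,w)` with `w` valid, and
`∑_w pr w s = 1` for alive `s` (`pr_sum`; for `s` not alive all `ω_{J+N}` above `s` vanish, `hst.supp`).
-/

set_option autoImplicit false

namespace PoolAgent.Helper28.ED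

open PoolAgent.Helper28.EC hiding Sys Stat
open Finset Real

namespace MmStep

open KStat

/-- Invariance of one step of the chain applied to a function which is invariant under the translations by `p^N n`. -/
theorem step_inv (S : Sys) (F : ℤ → ℝ) (n : ℤ) (j : ℕ) (hj : S.rho ≤ j)
    (hF1 : ∀ y t : ℤ, F (y + (S.p : ℤ) ^ (j + S.N) * t) = F y)
    (hF2 : ∀ y t : ℤ, F (y + (S.p : ℤ) ^ S.N * n * t) = F y)
    (hn : ∃ n0 : ℤ, n = (S.p : ℤ) ^ S.rho * n0) (x z : ℤ) :
    ∑ y ∈ range (S.p ^ (j + S.N)), F (y : ℤ) * (qf S y).m j (x + n * z) =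
      ∑ y ∈ range (S.p ^ (j + S.N)), F (y : ℤ) * (qf S y).m j x := by
  simp only [qf_m, Finset.mul_sum]
  rw [Finset.sum_comm]
  conv_rhs => rw [Finset.sum_comm]
  refine Finset.sum_congr rfl fun w _ => ?_
  have hcop : IsCoprime (S.d ^ S.tau w) ((S.p : ℤ) ^ j) := IsCoprime.pow S.hd
  obtain ⟨u, v, huv⟩ := hcop
  obtain ⟨n0, hn0⟩ := hn
  set z' : ℤ := u * n * z with hz'
  have hshift := sum_range_shift (S.p ^ (j + S.N))
    (fun y : ℤ => F y * if S.child w y ≡ x + n * z [ZMOD (S.p : ℤ) ^ j] then S.pr w y else 0) ?_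
    ((S.p : ℤ) ^ S.N * z')
  · rw [← hshift]
    refine Finset.sum_congr rfl fun y _ => ?_
    have h1 : F ((y : ℤ) + (S.p : ℤ) ^ S.N * z') = F y := by
      have : (S.p : ℤ) ^ S.N * z' = (S.p : ℤ) ^ S.N * n * (u * z) := by
        rw [hz']; ring
      rw [this, hF2]
    have h2 : S.pr w ((y : ℤ) + (S.p : ℤ) ^ S.N * z') = S.pr w y := by
      have : (S.p : ℤ) ^ S.N * z' = (S.p : ℤ) ^ (S.N + S.rho) * (n0 * (u * z)) := by
        rw [hz', hn0, pow_add]
        ring
      rw [this, S.pr_per]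
    rw [h1, h2]
    congr 1
    by_cases h0 : S.pr w y = 0
    · rw [h0]; simp
    · have hval := S.valid_of_pr w y h0
      have hch := S.child_shift w y z' 0 hval.1
      rw [add_zero, pow_zero, one_mul] at hch
      rw [hch]
      have : (S.child w y + S.d ^ S.tau w * z' ≡ x + n * z [ZMOD (S.p : ℤ) ^ j]) ↔
          (S.child w y ≡ x [ZMOD (S.p : ℤ) ^ j]) := by
        have h : S.d ^ S.tau w * z' ≡ n * z [ZMOD (S.p : ℤ) ^ j] := by
          rw [Int.modEq_iff_dvd]
          refine ⟨v * n * z, ?_⟩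
          rw [hz']
          linear_combination (-(n * z)) * huv
        constructor
        · intro h'
          exact Int.ModEq.add_right_cancel h h'
        · intro h'
          exact h'.add h
      simp only [this]
  · intro y t
    have h1 : F (y + ((S.p ^ (j + S.N) : ℕ) : ℤ) * t) = F y := by
      have := hF1 y t
      push_cast
      exact this
    have h2 : y + ((S.p ^ (j + S.N) : ℕ) : ℤ) * t = y + (S.p : ℤ) ^ (S.N + j) * t := by push_cast; ring
    have hpr : S.pr w (y + (S.p : ℤ) ^ (S.N + j) * t) = S.pr w y := by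
      have : (S.p : ℤ) ^ (S.N + j) * t = (S.p : ℤ) ^ (S.N + S.rho) * ((S.p : ℤ) ^ (j - S.rho) * t) := by
        rw [← mul_assoc, ← pow_add]
        congr 2
        omega
      rw [this, S.pr_per]
    rw [h1, h2, hpr]
    congr 1
    by_cases h0 : S.pr w y = 0
    · rw [h0]; simp
    · have hval := S.valid_of_pr w y h0
      rw [S.child_shift w y t j hval.1]
      have : (S.child w y + (S.p : ℤ) ^ j * (S.d ^ S.tau w * t) ≡ x + n * z [ZMOD (S.p : ℤ) ^ j]) ↔
          (S.child w y ≡ x + n * z [ZMOD (S.p : ℤ) ^ j]) := by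
        have h : S.child w y + (S.p : ℤ) ^ j * (S.d ^ S.tau w * t) ≡ S.child w y [ZMOD (S.p : ℤ) ^ j] := by
          rw [Int.modEq_iff_dvd]
          exact ⟨-(S.d ^ S.tau w * t), by ring⟩
        exact ⟨fun h' => h.symm.trans h', fun h' => h.trans h'⟩
      simp only [this]

end MmStep

open KStat in
theorem mm_step (S : Sys) (h2 : S.Two) (P Q : ℕ) (hPQ : S.p = P * Q) (ω : Fam S.p) (hst : Stat S ω) (J : ℕ) (hJ : S.rho ≤ J) :
    mm ω ((P : ℤ) ^ (S.rho + S.N) * (Q : ℤ) ^ (J + S.N)) (J + S.N) ≤ mm ω ((P : ℤ) ^ S.rho * (Q : ℤ) ^ J) J := by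
  set n : ℤ := (P : ℤ) ^ S.rho * (Q : ℤ) ^ J with hn
  have hn' : (P : ℤ) ^ (S.rho + S.N) * (Q : ℤ) ^ (J + S.N) = (S.p : ℤ) ^ S.N * n := by
    rw [hn, hPQ]
    push_cast
    rw [mul_pow, pow_add, pow_add]
    ring
  rw [hn']
  unfold mm
  set F : ℤ → ℝ := fun y => ⨅ k : ℤ, ω.m (J + S.N) (y + (S.p : ℤ) ^ S.N * n * k) with hF
  have hbdd : ∀ y : ℤ, BddBelow (Set.range fun k : ℤ => ω.m (J + S.N) (y + (S.p : ℤ) ^ S.N * n * k)) := by
    intro y
    refine ⟨0, ?_⟩
    rintro _ ⟨k, rfl⟩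
    exact ω.nonneg _ _
  have hFle : ∀ y : ℤ, F y ≤ ω.m (J + S.N) y := by
    intro y
    have h := ciInf_le (hbdd y) 0
    rw [mul_zero, add_zero] at h
    exact h
  have hF0 : ∀ y : ℤ, 0 ≤ F y := fun y => Real.iInf_nonneg fun k => ω.nonneg _ _
  have hF1 : ∀ y t : ℤ, F (y + (S.p : ℤ) ^ (J + S.N) * t) = F y := by
    intro y t
    simp only [hF]
    congr 1
    funext k
    have : y + (S.p : ℤ) ^ (J + S.N) * t + (S.p : ℤ) ^ S.N * n * k =
        y + (S.p : ℤ) ^ S.N * n * k + (S.p : ℤ) ^ (J + S.N) * t := by ring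
    rw [this, ω.per]
  have hF2 : ∀ y t : ℤ, F (y + (S.p : ℤ) ^ S.N * n * t) = F y := by
    intro y t
    simp only [hF]
    refine Equiv.iInf_congr (Equiv.addLeft t) fun k => ?_
    congr 1
    simp only [Equiv.coe_addLeft]
    ring
  have hnp : ∃ n0 : ℤ, n = (S.p : ℤ) ^ S.rho * n0 := by
    refine ⟨(Q : ℤ) ^ (J - S.rho), ?_⟩
    rw [hn, hPQ]
    push_cast
    rw [mul_pow, mul_assoc, ← pow_add]
    congr 2
    omega
  have hkey : ∀ x : ℤ, ∑ y ∈ range (S.p ^ (J + S.N)), F (y : ℤ) * (qf S y).m J x ≤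
      ⨅ k : ℤ, ω.m J (x + n * k) := by
    intro x
    apply le_ciInf
    intro k
    rw [← MmStep.step_inv S F n J hJ hF1 hF2 hnp x k, hst.inv J (x + n * k) hJ]
    exact Finset.sum_le_sum fun y _ => mul_le_mul_of_nonneg_right (hFle _) ((qf S y).nonneg _ _)
  refine le_trans (le_of_eq ?_) (Finset.sum_le_sum fun x _ => hkey (x : ℤ))
  rw [Finset.sum_comm]
  refine Finset.sum_congr rfl fun y _ => ?_
  rw [← Finset.mul_sum, (qf S y).sum_eq_mass, qf_mass]
  show F (y : ℤ) = _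
  by_cases ha : S.alive (y : ℤ)
  · rw [S.pr_sum h2 _ ha, mul_one]
  · have h3 : F (y : ℤ) = 0 := by
      apply le_antisymm _ (hF0 _)
      rw [← hst.supp (J + S.N) y (by omega) ha]
      exact hFle _
    rw [h3, zero_mul]

end PoolAgent.Helper28.ED
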