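import Pool.Agent.Helper28.ED.Key
import Pool.Agent.Helper28.ED.MinW
import Pool.Agent.Helper28.ED.MmStep
import Pool.Agent.Helper28.ED.KStat

/-!
# ED-MIN: every stationary family has a locally uniform minorant

`step`: for a stationary `ω` of type `f >= 2` there are a prime `r | f` (`P = r^(f.factorization r)`, `f' = f/P`) and `c > 0` with `c <= mm ω (P^rho Q^J) J` for all `J`: by `keyP` and `mm_of_key` for every `w` there are `r`, `s` with
`c2/2 <= mm ω (P^(rho+N) Q^(s+w)) (s+w)`; one `r` occurs for infinitely many `w`; `mm_step` (`J + N = s + w`) and `mm_mono`.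
Induction: `P(f)`: every stationary family of type `f` (`f` a unitary divisor of `p`) has a locally uniform minorant.  `f = 1`: `ω_j` is periodic modulo `p^rho`, so `p^j ω_j(x) = p^rho ω_rho(x)`; choose `R` with `ω_rho(R) > 0`.
`f >= 2`: `kstat` and `P(f')`, `f' < f`.  Finally `type_self`.
-/

set_option autoImplicit false

namespace PoolAgent.Helper28.ED

open PoolAgent.Helper28.EC hiding Sys Stat
open Finset Real

theorem mm_anti {q P Q : ℕ} (hPQ : q = P * Q) (hc : Nat.Coprime P Q) (hq : 0 < q) (s : ℕ) (ω : Fam q) :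
    Antitone fun J : ℕ => mm ω ((P : ℤ) ^ s * (Q : ℤ) ^ J) J :=
  antitone_nat_of_succ_le fun J => mm_mono hPQ hc hq s ω J

theorem primePow_facts {f g r : ℕ} (hc : Nat.Coprime f g) (hf2 : 2 ≤ f) (hr : r ∈ f.primeFactors) :
    f = r ^ f.factorization r * (f / r ^ f.factorization r) ∧
      Nat.Coprime (r ^ f.factorization r) (f / r ^ f.factorization r) ∧ 2 ≤ r ^ f.factorization r ∧
      Nat.Coprime (r ^ f.factorization r) g ∧ Nat.Coprime (f / r ^ f.factorization r) g := by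
  have hrp := Nat.prime_of_mem_primeFactors hr
  have hrd := Nat.dvd_of_mem_primeFactors hr
  have hf0 : f ≠ 0 := by omega
  have h1 : r ^ f.factorization r * (f / r ^ f.factorization r) = f := Nat.ordProj_mul_ordCompl_eq_self f r
  have h2 : Nat.Coprime r (f / r ^ f.factorization r) := Nat.coprime_ordCompl hrp hf0
  have h3 : 1 ≤ f.factorization r := (hrp.dvd_iff_one_le_factorization hf0).1 hrd
  refine ⟨h1.symm, h2.pow_left _, ?_, ?_, ?_⟩
  · calc 2 ≤ r := hrp.two_le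
      _ = r ^ 1 := (pow_one r).symm
      _ ≤ r ^ f.factorization r := Nat.pow_le_pow_right hrp.pos h3
  · exact Nat.Coprime.coprime_dvd_left ⟨_, h1.symm⟩ hc
  · exact Nat.Coprime.coprime_dvd_left ⟨r ^ f.factorization r, by rw [mul_comm]; exact h1.symm⟩ hc

theorem step (S : Sys) (h2 : S.Two) (hsep : S.Sep) (M : ℕ) (hM : 1 ≤ M) (hoff : S.OffBd M) {f g : ℕ} (hfg : S.p = f * g)
    (hc : Nat.Coprime f g) (hf : f ∣ S.p) (hf2 : 2 ≤ f) (ω : Fam S.p) (hst : Stat S ω) (hT : OfType S f ω) :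
    ∃ r ∈ f.primeFactors, ∃ c : ℝ, 0 < c ∧ ∀ J : ℕ, c ≤ mm ω (((r ^ f.factorization r : ℕ) : ℤ) ^ S.rho *
      ((f / r ^ f.factorization r * g : ℕ) : ℤ) ^ J) J := by
  obtain ⟨c2, hc2, hkey⟩ := keyP S h2 hsep M hM hoff hfg hc hf hf2
  have hf0 : (0 : ℝ) < f := by exact_mod_cast (by omega : 0 < f)
  -- one scale
  have hone : ∀ w : ℕ, 1 ≤ w → ∃ r ∈ f.primeFactors, ∃ s : ℕ, S.rho ≤ s ∧ s < S.rho + S.N ∧
      c2 / 2 ≤ mm ω (((r ^ f.factorization r : ℕ) : ℤ) ^ (S.rho + S.N) *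
        ((f / r ^ f.factorization r * g : ℕ) : ℤ) ^ (s + w)) (s + w) := by
    intro w hw
    have hδ : (0 : ℝ) < (1 / (4 * (f : ℝ) ^ w)) ^ 2 := by positivity
    obtain ⟨r, hr, l, hl, hk⟩ := hkey ω hst hT w hw _ hδ
    obtain ⟨e1, e2, e3, -, -⟩ := primePow_facts hc hf2 hr
    refine ⟨r, hr, ?_⟩
    refine mm_of_key S h2 hfg hc hf (r ^ f.factorization r) (f / r ^ f.factorization r) e1 e2 e3 ω hst hT c2 w hw _ hδ ?_ l hl hk
    rw [Real.sqrt_sq (by positivity)]
    apply le_of_eq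
    field_simp
    norm_num
  -- pigeonhole
  have hpig : ∃ r ∈ f.primeFactors, ∀ W : ℕ, ∃ w : ℕ, W ≤ w ∧ ∃ s : ℕ, S.rho ≤ s ∧ s < S.rho + S.N ∧
      c2 / 2 ≤ mm ω (((r ^ f.factorization r : ℕ) : ℤ) ^ (S.rho + S.N) *
        ((f / r ^ f.factorization r * g : ℕ) : ℤ) ^ (s + w)) (s + w) := by
    by_contra hcon
    push Not at hcon
    choose! W hW using hcon
    obtain ⟨r, hr, s, hs1, hs2, hs3⟩ := hone (f.primeFactors.sup W + 1) (by omega)
    have h1 : W r ≤ f.primeFactors.sup W + 1 := (Finset.le_sup hr).trans (Nat.le_succ _)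
    have h2 := hW r hr _ h1 s hs1 hs2
    linarith
  obtain ⟨r, hr, hw⟩ := hpig
  obtain ⟨e1, e2, e3, e4, e5⟩ := primePow_facts hc hf2 hr
  set P := r ^ f.factorization r with hP
  set f' := f / r ^ f.factorization r with hf'
  have hPQ : S.p = P * (f' * g) := by rw [hfg, ← mul_assoc, ← e1]
  have hcop : Nat.Coprime P (f' * g) := Nat.Coprime.mul_right e2 e4
  refine ⟨r, hr, c2 / 2, by positivity, fun J => ?_⟩
  obtain ⟨w, hWw, s, hs1, hs2, hs3⟩ := hw (J + S.N)
  obtain ⟨J', hJ'⟩ : ∃ J' : ℕ, s + w = J' + S.N := ⟨s + w - S.N, by omega⟩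
  have hJ1 : S.rho ≤ J' := by omega
  have hJ2 : J ≤ J' := by omega
  rw [hJ'] at hs3
  have h3 := mm_step S h2 P (f' * g) hPQ ω hst J' hJ1
  have h4 := mm_anti hPQ hcop S.pp S.rho ω hJ2
  exact (hs3.trans h3).trans h4

theorem minor_type (S : Sys) (h2 : S.Two) (hsep : S.Sep) (M : ℕ) (hM : 1 ≤ M) (hoff : S.OffBd M) (f : ℕ) :
    ∀ g : ℕ, S.p = f * g → Nat.Coprime f g → ∀ ω : Fam S.p, Stat S ω → OfType S f ω →
      ∃ (R : ℤ) (c4 : ℝ), 0 < c4 ∧
        ∀ (j : ℕ) (x : ℤ), S.rho ≤ j → x ≡ R [ZMOD (S.p : ℤ) ^ S.rho] → c4 ≤ (S.p : ℝ) ^ j * ω.m j x := by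
  have hp0 : (0 : ℝ) < S.p := by exact_mod_cast S.pp
  induction f using Nat.strong_induction_on with
  | _ f ih =>
    intro g hfg hc ω hst hT
    rcases (by omega : f = 0 ∨ f = 1 ∨ 2 ≤ f) with h0 | h1 | hf2
    · exfalso
      have := S.pp
      rw [hfg, h0, zero_mul] at this
      exact lt_irrefl _ this
    · subst h1
      have hper : ∀ (j : ℕ) (x z : ℤ), S.rho ≤ j → ω.m j (x + (S.p : ℤ) ^ S.rho * z) = ω.m j x := by
        intro j x z hj
        have := hT j x z hj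
        rwa [Nat.cast_one, one_pow, mul_one] at this
      have hR : ∃ R ∈ range (S.p ^ S.rho), ω.m S.rho (R : ℤ) ≠ 0 := by
        by_contra hcon
        push Not at hcon
        have h1 := ω.sum_eq_mass S.rho
        rw [Finset.sum_eq_zero hcon] at h1
        have h3 : ω.mass = 1 := hst.mass
        rw [h3] at h1
        exact zero_ne_one h1
      obtain ⟨R, -, hR⟩ := hR
      have hR0 : 0 < ω.m S.rho (R : ℤ) := lt_of_le_of_ne (ω.nonneg _ _) (Ne.symm hR)
      refine ⟨(R : ℤ), (S.p : ℝ) ^ S.rho * ω.m S.rho (R : ℤ), by positivity, fun j x hj hx => ?_⟩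
      obtain ⟨k, rfl⟩ := Nat.exists_eq_add_of_le hj
      have h3 : ω.m S.rho x = ω.m S.rho (R : ℤ) := ω.congr_of_modEq _ hx
      have h4 := ω.cons_iter S.rho k x
      have h5 : ∀ e ∈ range (S.p ^ k), ω.m (S.rho + k) (x + (S.p : ℤ) ^ S.rho * e) = ω.m (S.rho + k) x :=
        fun e _ => hper _ _ _ hj
      rw [Finset.sum_congr rfl h5, Finset.sum_const, Finset.card_range, nsmul_eq_mul, Nat.cast_pow] at h4
      rw [← h3, h4, pow_add]
      apply le_of_eq
      ring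
    · have hf : f ∣ S.p := ⟨g, hfg⟩
      obtain ⟨r, hr, c, hc0, hcm⟩ := step S h2 hsep M hM hoff hfg hc hf hf2 ω hst hT
      obtain ⟨e1, e2, e3, e4, e5⟩ := primePow_facts hc hf2 hr
      obtain ⟨κ, hκ1, hκ2, hκ3⟩ := kstat S h2 hfg hc _ _ e1 e2 ω hst hT c hc0 hcm
      have hlt : f / r ^ f.factorization r < f := Nat.div_lt_self (by omega) (by omega)
      obtain ⟨R, c4, hc4, h⟩ := ih _ hlt (r ^ f.factorization r * g)
        (by
          conv_lhs => rw [hfg, e1]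
          ring) (Nat.Coprime.mul_right e2.symm e5) κ hκ1 hκ2
      refine ⟨R, c * c4, by positivity, fun j x hj hx => ?_⟩
      have h3 := mul_le_mul_of_nonneg_left (h j x hj hx) hc0.le
      have h4 := mul_le_mul_of_nonneg_left (hκ3 j x) (pow_nonneg hp0.le j)
      calc c * c4 ≤ c * ((S.p : ℝ) ^ j * κ.m j x) := h3
        _ = (S.p : ℝ) ^ j * (c * κ.m j x) := by ring
        _ ≤ _ := h4

theorem minor (S : Sys) (h2 : S.Two) (hsep : S.Sep) (M : ℕ) (hM : 1 ≤ M) (hoff : S.OffBd M) : Minor S :=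
  fun ω hst => minor_type S h2 hsep M hM hoff S.p 1 (mul_one _).symm (Nat.coprime_one_right _) ω hst (type_self S ω)

end PoolAgent.Helper28.ED
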