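import Pool.Agent.Helper28.ED.Iter

/-!
# ED: the minorisation property and the types of families
-/

set_option autoImplicit false

namespace PoolAgent.Helper28.ED

open PoolAgent.Helper28.EC hiding Sys Stat
open Finset

/-- Every stationary family is bounded below by a positive multiple of the uniform law on some class modulo `p^rho`. -/
def Minor (S : Sys) : Prop := ∀ ω : Fam S.p, Stat S ω → ∃ (R : ℤ) (c4 : ℝ), 0 < c4 ∧
    ∀ (j : ℕ) (x : ℤ), S.rho ≤ j → x ≡ R [ZMOD (S.p : ℤ) ^ S.rho] → c4 ≤ (S.p : ℝ) ^ j * ω.m j x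

end PoolAgent.Helper28.ED
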