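import Pool.Agent.Helper28.ED.Types

/-!
# ED-MONO: the mass of the invariant minorant decreases with the level

`q = P Q`, coprime, `n_J = P^s Q^J`.  For `x < q^J` and `k`: choose `k'` with `n_{J+1} k' = n_J k mod q^J` (`n_{J+1} = Q n_J`; if `J <= s` then `q^J | n_J`, take `k' = 0`; otherwise `Q k' = k mod P^(J-s)`, `Q` is a
unit).  Then `ω_J(x + n_J k) = ω_J(x + n_{J+1} k') = ∑_{e<q} ω_{J+1}(x + q^J e + n_{J+1} k') >= ∑_{e<q} ⨅_k ω_{J+1}(x + q^J e + n_{J+1} k)` (`cons`, `ciInf_le` with the lower bound 0).  So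
`⨅_k ω_J(x + n_J k) >= ∑_e ⨅_k ...` (`le_ciInf`), sum over `x` (`sum_range_mul`).  `mm_le` : the same for one class, any number of levels.
-/

set_option autoImplicit false

namespace PoolAgent.Helper28.ED

open PoolAgent.Helper28.EC hiding Sys Stat
open Finset Real

/-- Translation of the starting point by `n_J k` is, modulo `q^J`, a translation by `n_{J+1} k'`. -/
theorem exists_shift {q P Q : ℕ} (hPQ : q = P * Q) (hc : Nat.Coprime P Q) (s J m : ℕ) (k : ℤ) :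
    ∃ k' z : ℤ, (P : ℤ) ^ s * (Q : ℤ) ^ J * k = (P : ℤ) ^ s * (Q : ℤ) ^ (J + m) * k' + (q : ℤ) ^ J * z := by
  have hc' : IsCoprime ((Q : ℤ) ^ m) ((P : ℤ) ^ (J - s)) := by
    apply IsCoprime.pow
    exact (Nat.isCoprime_iff_coprime.2 hc).symm
  obtain ⟨a, b, hab⟩ := hc'
  have hq : (q : ℤ) ^ J = (P : ℤ) ^ J * (Q : ℤ) ^ J := by rw [hPQ]; push_cast; ring
  rcases le_total J s with h | h
  · refine ⟨0, (P : ℤ) ^ (s - J) * k, ?_⟩
    have h1 : (P : ℤ) ^ s = (P : ℤ) ^ J * (P : ℤ) ^ (s - J) := by rw [← pow_add]; congr 1; omega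
    rw [hq, h1]; ring
  · refine ⟨a * k, b * k, ?_⟩
    have h1 : (P : ℤ) ^ J = (P : ℤ) ^ s * (P : ℤ) ^ (J - s) := by rw [← pow_add]; congr 1; omega
    rw [hq, h1, pow_add]
    linear_combination (-(P : ℤ) ^ s * (Q : ℤ) ^ J * k) * hab

theorem inf_bdd {q : ℕ} (ω : Fam q) (J : ℕ) (x n : ℤ) : BddBelow (Set.range fun k : ℤ => ω.m J (x + n * k)) :=
  ⟨0, by rintro _ ⟨k, rfl⟩; exact ω.nonneg _ _⟩

theorem inf_mono {q P Q : ℕ} (hPQ : q = P * Q) (hc : Nat.Coprime P Q) (_hq : 0 < q) (s : ℕ) (ω : Fam q) (J : ℕ) (x : ℤ) :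
    ∑ e ∈ range q, (⨅ k : ℤ, ω.m (J + 1) (x + (q : ℤ) ^ J * e + (P : ℤ) ^ s * (Q : ℤ) ^ (J + 1) * k)) ≤
      ⨅ k : ℤ, ω.m J (x + (P : ℤ) ^ s * (Q : ℤ) ^ J * k) := by
  refine le_ciInf fun k => ?_
  obtain ⟨k', z, hk⟩ := exists_shift hPQ hc s J 1 k
  have h1 : ω.m J (x + (P : ℤ) ^ s * (Q : ℤ) ^ J * k) = ω.m J (x + (P : ℤ) ^ s * (Q : ℤ) ^ (J + 1) * k') := by
    rw [hk, ← add_assoc, ω.per]
  rw [h1, ω.cons]
  refine Finset.sum_le_sum fun e _ => ?_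
  refine (ciInf_le (inf_bdd ω (J + 1) (x + (q : ℤ) ^ J * e) _) k').trans (le_of_eq ?_)
  congr 1
  ring

theorem mm_mono {q P Q : ℕ} (hPQ : q = P * Q) (hc : Nat.Coprime P Q) (hq : 0 < q) (s : ℕ) (ω : Fam q) (J : ℕ) :
    mm ω ((P : ℤ) ^ s * (Q : ℤ) ^ (J + 1)) (J + 1) ≤ mm ω ((P : ℤ) ^ s * (Q : ℤ) ^ J) J := by
  unfold mm
  rw [pow_succ q J, sum_range_mul]
  refine Finset.sum_le_sum fun x _ => ?_
  refine le_trans (le_of_eq ?_) (inf_mono hPQ hc hq s ω J (x : ℤ))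
  refine Finset.sum_congr rfl fun e _ => ?_
  push_cast
  rfl

end PoolAgent.Helper28.ED
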